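import Pool.Agent.P.MP_8b60db_ag.Geom

/-! The reciprocity argument on the generic zero curve. -/

namespace Pool.Agent.P.MP_8b60db_ag
namespace Arith

open Polynomial Module Geom
open scoped nonZeroDivisors

attribute [local instance] FractionRing.liftAlgebra FractionRing.isScalarTower_liftAlgebra

theorem Nm_eq_zero {R : Type} [CommRing R] {θ a b c d : R} (hθ : θ ^ 4 = 2)
    (h : a + b * θ + c * θ ^ 2 + d * θ ^ 3 = 0) : Nm a b c d = 0 := by
  have h1 : (a ^ 2 + 2 * c ^ 2 - 4 * b * d) + (2 * a * c - b ^ 2 - 2 * d ^ 2) * θ ^ 2 = 0 := by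
    linear_combination (a - b * θ + c * θ ^ 2 - d * θ ^ 3) * h -
      (c ^ 2 - 2 * b * d - d ^ 2 * θ ^ 2) * hθ
  unfold Nm
  linear_combination ((a ^ 2 + 2 * c ^ 2 - 4 * b * d) -
    (2 * a * c - b ^ 2 - 2 * d ^ 2) * θ ^ 2) * h1 + (2 * a * c - b ^ 2 - 2 * d ^ 2) ^ 2 * hθ

theorem map_Nm {R S : Type} [CommRing R] [CommRing S] (φ : R →+* S) (a b c d : R) :
    φ (Nm a b c d) = Nm (φ a) (φ b) (φ c) (φ d) := by
  simp only [Nm, map_sub, map_add, map_mul, map_pow, map_ofNat]

section good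

variable {K : Type} [Field K] {v : K → ℤ}

theorem v_one (h : Good K v) : v 1 = 0 := by
  have := h.mul 1 1 one_ne_zero one_ne_zero
  rw [mul_one] at this
  omega

theorem v_sq (h : Good K v) {a : K} (ha : a ≠ 0) : v (a ^ 2) = 2 * v a := by
  rw [pow_two, h.mul a a ha ha]; ring

theorem v_neg_one_pow (h : Good K v) (n : ℕ) : v ((-1) ^ n) = 0 := by
  have := v_sq h (a := (-1) ^ n) (pow_ne_zero _ (neg_ne_zero.mpr one_ne_zero))
  rw [← pow_mul, mul_comm n 2, pow_mul, neg_one_sq, one_pow, v_one h] at this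
  omega

theorem five_not_sq [CharZero K] (h : Good K v) (k : K) : k ^ 2 ≠ 5 := by
  intro e
  have hk : k ≠ 0 := by
    rintro rfl
    norm_num at e
  have h5 := h.five
  rw [← e, v_sq h hk] at h5
  obtain ⟨n, hn⟩ := h5
  omega

end good

/-- Reduction of a basis, norms and Gram determinants modulo `X`. -/
theorem red {K B C : Type} [Field K] [CommRing B] [CommRing C] [Algebra K B] [Algebra K[X] B]
    [IsScalarTower K K[X] B] [Algebra K C] {ι : Type} [Fintype ι] [DecidableEq ι]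
    (e : Basis ι K[X] B) (Φ : B →ₐ[K] C) (hs : Function.Surjective Φ)
    (hk : ∀ b, Φ b = 0 ↔ algebraMap K[X] B X ∣ b) (l : B →ₗ[K[X]] K[X]) :
    ∃ (e' : Basis ι K C) (l' : C →ₗ[K] K), gram l' e' = (gram l e).eval 0 ∧
      ∀ b, Algebra.norm K (Φ b) = (Algebra.norm K[X] b).eval 0 := by
  have hsm : ∀ (r : K[X]) (b : B), Φ (r • b) = r.eval 0 • Φ b := by
    intro r b
    have h1 : r = Polynomial.C (r.eval 0) + X * r.divX := by
      rw [← coeff_zero_eq_eval_zero, add_comm, mul_comm, divX_mul_X_add]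
    have h2 : Φ ((X * r.divX) • b) = 0 := by
      rw [hk, mul_smul, Algebra.smul_def]
      exact dvd_mul_right _ _
    conv_lhs => rw [h1, add_smul, map_add, h2, add_zero]
    rw [← map_smul, ← algebraMap_smul K[X] (r.eval 0) b]
    rfl
  have hli : LinearIndependent K (fun i => Φ (e i)) := by
    rw [Fintype.linearIndependent_iff]
    intro g hg i
    have h1 : Φ (∑ i, Polynomial.C (g i) • e i) = 0 := by
      rw [map_sum]
      simpa only [hsm, eval_C] using hg
    obtain ⟨b, hb⟩ := (hk _).mp h1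
    have h2 := congrArg (fun x => (e.repr x i).eval 0) hb
    simp only [← Algebra.smul_def, map_smul, Finsupp.smul_apply, smul_eq_mul, eval_mul, eval_X,
      zero_mul] at h2
    rwa [e.repr_sum_self, eval_C] at h2
  have hrep : ∀ b, Φ b = ∑ i, (e.repr b i).eval 0 • Φ (e i) := by
    intro b
    conv_lhs => rw [← e.sum_repr b, map_sum]
    simp only [hsm]
  have hsp : ⊤ ≤ Submodule.span K (Set.range fun i => Φ (e i)) := by
    intro c _
    obtain ⟨b, rfl⟩ := hs c
    rw [hrep]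
    exact Submodule.sum_mem _ fun i _ => Submodule.smul_mem _ _ (Submodule.subset_span ⟨i, rfl⟩)
  set e' := Basis.mk hli hsp with he'
  have he : ∀ i, e' i = Φ (e i) := fun i => by simp [he']
  have hrepr : ∀ b i, e'.repr (Φ b) i = (e.repr b i).eval 0 := by
    intro b i
    rw [hrep]
    simp only [← he]
    rw [e'.repr_sum_self]
  set l' : C →ₗ[K] K := e'.constr K fun i => (l (e i)).eval 0 with hl'
  have hl : ∀ b, l' (Φ b) = (l b).eval 0 := by
    intro b
    rw [hrep]
    conv_rhs => rw [← e.sum_repr b]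
    simp only [← he, map_sum, map_smul, hl', Basis.constr_basis, smul_eq_mul, eval_finsetSum,
      eval_mul]
  refine ⟨e', l', ?_, fun b => ?_⟩
  · rw [gram, gram, ← coe_evalRingHom, RingHom.map_det]
    congr 1
    ext i j
    simp [he, ← map_mul, hl]
  · rw [Algebra.norm_eq_matrix_det e', Algebra.norm_eq_matrix_det e, ← coe_evalRingHom,
      RingHom.map_det]
    congr 1
    ext i j
    simp [Algebra.leftMulMatrix_eq_repr_mul, he, ← map_mul, hrepr]

section curve

variable {K B : Type} [Field K] [CommRing B] [Algebra K B] {u w : Fin 3 → B}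

theorem span_mod_I0 (hrel : Rel u w) (hgen : Algebra.adjoin K (Set.range u ∪ Set.range w) = ⊤)
    (x : B) : ∃ k0 k1 k2 k3 : K, x - (algebraMap K B k0 + algebraMap K B k1 * u 0 +
      algebraMap K B k2 * (u 0 ^ 2 - 5) + algebraMap K B k3 * (u 0 * (u 0 ^ 2 - 5))) ∈ I0 u w := by
  have hx : x ∈ Algebra.adjoin K (Set.range u ∪ Set.range w) := by rw [hgen]; trivial
  induction hx using Algebra.adjoin_induction with
  | mem x hx =>
    rcases hx with ⟨i, rfl⟩ | ⟨i, rfl⟩ <;> fin_cases i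
    · exact ⟨0, 1, 0, 0, by simp⟩
    · exact ⟨0, 0, 0, 0, by simpa using u1_mem u w⟩
    · exact ⟨0, 0, 0, 0, by simpa using u2_mem u w⟩
    · exact ⟨0, 1, 0, 0, by simpa using f1_mem u w⟩
    · exact ⟨0, 0, 0, 0, by simpa using w1_mem u w⟩
    · exact ⟨0, 0, 0, 0, by simpa using w2_mem u w⟩
  | algebraMap k => exact ⟨k, 0, 0, 0, by simp⟩
  | add x y _ _ hx hy =>
    obtain ⟨a, b, c, d, h⟩ := hx
    obtain ⟨a', b', c', d', h'⟩ := hy
    refine ⟨a + a', b + b', c + c', d + d', ?_⟩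
    convert Ideal.add_mem _ h h' using 1
    simp only [map_add]
    ring
  | mul x y _ _ hx hy =>
    obtain ⟨a, b, c, d, h⟩ := hx
    obtain ⟨a', b', c', d', h'⟩ := hy
    refine ⟨a * a' + 5 * b * b', a * b' + a' * b,
      b * b' + a * c' + a' * c + 5 * b * d' + 5 * b' * d, a * d' + a' * d + b * c' + b' * c, ?_⟩
    convert Ideal.add_mem _ (Ideal.add_mem _ (Ideal.mul_mem_left _ y h)
      (Ideal.mul_mem_left _ (algebraMap K B a + algebraMap K B b * u 0 +
        algebraMap K B c * (u 0 ^ 2 - 5) + algebraMap K B d * (u 0 * (u 0 ^ 2 - 5))) h'))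
      (Ideal.mul_mem_left _ (algebraMap K B b * algebraMap K B d' +
        algebraMap K B b' * algebraMap K B d + (algebraMap K B c + algebraMap K B d * u 0) *
        (algebraMap K B c' + algebraMap K B d' * u 0)) (R_sq_mem hrel)) using 1
    simp only [map_add, map_mul, map_ofNat]
    ring

theorem basis_fib (hrel : Rel u w) (hgen : Algebra.adjoin K (Set.range u ∪ Set.range w) = ⊤)
    (hind : Ind K (u 0) (I0 u w)) :
    ∃ b : Basis (Fin 4) K (B ⧸ I0 u w), b 0 = 1 ∧ b 1 = Ideal.Quotient.mk _ (u 0) ∧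
      b 2 = Ideal.Quotient.mk _ (u 0) ^ 2 - 5 ∧
      b 3 = Ideal.Quotient.mk _ (u 0) * (Ideal.Quotient.mk _ (u 0) ^ 2 - 5) := by
  set q := Ideal.Quotient.mkₐ K (I0 u w)
  set r := q (u 0)
  set g : Fin 4 → B ⧸ I0 u w := ![1, r, r ^ 2 - 5, r * (r ^ 2 - 5)] with hg
  have hq : ∀ k0 k1 k2 k3 : K, q (algebraMap K B k0 + algebraMap K B k1 * u 0 +
      algebraMap K B k2 * (u 0 ^ 2 - 5) + algebraMap K B k3 * (u 0 * (u 0 ^ 2 - 5))) =
      k0 • g 0 + k1 • g 1 + k2 • g 2 + k3 • g 3 := by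
    intro k0 k1 k2 k3
    simp only [map_add, map_mul, map_sub, map_pow, map_ofNat, AlgHom.commutes, Algebra.smul_def,
      hg, Matrix.cons_val_zero, Matrix.cons_val_one, Matrix.cons_val, mul_one, r]
  have hli : LinearIndependent K g := by
    rw [Fintype.linearIndependent_iff]
    intro k hk i
    rw [Fin.sum_univ_four, ← hq] at hk
    obtain ⟨h0, h1, h2, h3⟩ := hind _ _ _ _ (Ideal.Quotient.eq_zero_iff_mem.mp hk)
    fin_cases i <;> assumption
  have hsp : ⊤ ≤ Submodule.span K (Set.range g) := by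
    intro x _
    obtain ⟨x, rfl⟩ := Ideal.Quotient.mkₐ_surjective K _ x
    obtain ⟨k0, k1, k2, k3, h⟩ := span_mod_I0 hrel hgen x
    have e : q x = _ := Ideal.Quotient.eq.mpr h
    change q x ∈ _
    rw [e]
    change q _ ∈ _
    rw [hq]
    have := fun i => Submodule.subset_span (R := K) (Set.mem_range_self (f := g) i)
    exact Submodule.add_mem _ (Submodule.add_mem _ (Submodule.add_mem _
      (Submodule.smul_mem _ _ (this 0)) (Submodule.smul_mem _ _ (this 1)))
      (Submodule.smul_mem _ _ (this 2))) (Submodule.smul_mem _ _ (this 3))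
  refine ⟨Basis.mk hli hsp, ?_, ?_, ?_, ?_⟩ <;> rw [Basis.mk_apply] <;> rfl

theorem coprime_fib {v : K → ℤ} (hv : Good K v) (hrel : Rel u w)
    (hgen : Algebra.adjoin K (Set.range u ∪ Set.range w) = ⊤) (y : B) :
    IsCoprime (I0 u w) (Ideal.span {y ^ 4 - 2}) := by
  rw [Ideal.isCoprime_iff_sup_eq]
  by_contra h
  obtain ⟨m, hm, hle⟩ := Ideal.exists_le_maximal _ h
  have := hm.isPrime
  have hZ := Z0_le hrel (le_sup_left.trans hle)
  obtain ⟨a, b, hab⟩ := lin_mod_Z0 hgen y
  set q := Ideal.Quotient.mk m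
  have h1 : q y ^ 4 = 2 := by
    have : q (y ^ 4 - 2) = 0 :=
      Ideal.Quotient.eq_zero_iff_mem.mpr (hle (Ideal.mem_sup_right (Ideal.subset_span rfl)))
    rwa [map_sub, map_pow, map_ofNat, sub_eq_zero] at this
  have h2 : q y = q (algebraMap K B a) + q (algebraMap K B b) * q (u 0) := by
    rw [← map_mul, ← map_add]
    exact Ideal.Quotient.eq.mpr (hZ hab)
  have h3 : q (u 0) ^ 2 = 5 := by
    have : q (u 0 ^ 2 - 5) = 0 := Ideal.Quotient.eq_zero_iff_mem.mpr (hZ (R_mem u w))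
    rwa [map_sub, map_pow, map_ofNat, sub_eq_zero] at this
  have h4 : q (algebraMap K B (Nm (a ^ 2 - 5 * b ^ 2) (-2 * a) 1 0)) = 0 := by
    rw [map_Nm, map_Nm]
    refine Nm_eq_zero h1 ?_
    simp only [map_sub, map_mul, map_pow, map_ofNat, map_neg, map_one, map_zero]
    rw [h2]
    linear_combination q (algebraMap K B b) ^ 2 * h3
  exact const_notMem hm.ne_top (hv.nm _ _ _ _ (by simp)).1 (Ideal.Quotient.eq_zero_iff_mem.mp h4)

end curve

/-- Places at infinity contain a fourth root of two. -/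
theorem place_inf {L : Type} [Field L] (O : ValuationSubring L) {x y a b c : L} (ha : a ∈ O)
    (hb : b ∈ O) (hc : c ∈ O) (h : y ^ 4 = 2 * x ^ 4 + a * x ^ 2 + b * x + c) (hx : x ∉ O) :
    O.valuation ((y / x) ^ 4 - 2) < 1 := by
  have hx0 : x ≠ 0 := by
    rintro rfl
    exact hx O.zero_mem
  have h1 : O.valuation x⁻¹ < 1 := by
    rw [map_inv₀, inv_lt_one₀ (by simpa [zero_lt_iff] using hx0)]
    exact not_le.mp fun h => hx ((O.valuation_le_one_iff x).mp h)
  have hi : x⁻¹ ∈ O := (O.valuation_le_one_iff _).mp h1.le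
  have e : (y / x) ^ 4 - 2 = x⁻¹ * (a * x⁻¹ + b * x⁻¹ ^ 2 + c * x⁻¹ ^ 3) := by
    field_simp
    linear_combination h
  have h2 : O.valuation (a * x⁻¹ + b * x⁻¹ ^ 2 + c * x⁻¹ ^ 3) ≤ 1 :=
    (O.valuation_le_one_iff _).mpr (add_mem (add_mem (mul_mem ha hi) (mul_mem hb (pow_mem hi 2)))
      (mul_mem hc (pow_mem hi 3)))
  rw [e, map_mul]
  exact mul_lt_one_of_lt_of_le h1 h2

theorem place_fin {L : Type} [Field L] (O : ValuationSubring L) {y z : L} (hz : z ∈ O)
    (h : y ^ 4 = z) : y ∈ O := by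
  rw [← O.valuation_le_one_iff] at hz ⊢
  rw [← h, map_pow] at hz
  exact (pow_le_one_iff (by norm_num)).mp hz

theorem exists_theta {K B L : Type} [Field K] [CommRing B] [Field L] [Algebra K B] [Algebra B L]
    {u w : Fin 3 → B} (hrel : Rel u w) (hgen : Algebra.adjoin K (Set.range u ∪ Set.range w) = ⊤)
    (O : ValuationSubring L) (hK : ∀ k, algebraMap B L (algebraMap K B k) ∈ O) (T : B)
    (hT : algebraMap B L T ∉ O) : ∃ y : L, O.valuation (y ^ 4 - 2) < 1 := by
  set φ := algebraMap B L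
  have e0 : φ (w 0) ^ 4 = 2 * φ (u 0) ^ 4 + (-10) * φ (u 0) ^ 2 + 0 * φ (u 0) + 25 := by
    have := congrArg φ hrel.r0
    simp only [map_pow, map_add, map_sub, map_mul, map_ofNat] at this
    linear_combination this
  have e1 : φ (w 1) ^ 4 = 2 * φ (u 1) ^ 4 + 0 * φ (u 1) ^ 2 + 1 * φ (u 1) + 0 := by
    have := congrArg φ hrel.r1
    simp only [map_pow, map_add, map_mul, map_ofNat] at this
    linear_combination this
  have e2 : φ (w 2) ^ 4 = 2 * φ (u 2) ^ 4 + 0 * φ (u 2) ^ 2 + 1 * φ (u 2) + 0 := by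
    have := congrArg φ hrel.r2
    simp only [map_pow, map_add, map_mul, map_ofNat] at this
    linear_combination this
  have n10 : (-10 : L) ∈ O := neg_mem (ofNat_mem O 10)
  have n25 : (25 : L) ∈ O := ofNat_mem O 25
  have n2 : (2 : L) ∈ O := ofNat_mem O 2
  by_cases h0 : φ (u 0) ∈ O
  swap
  · exact ⟨_, place_inf O n10 O.zero_mem n25 e0 h0⟩
  by_cases h1 : φ (u 1) ∈ O
  swap
  · exact ⟨_, place_inf O O.zero_mem O.one_mem O.zero_mem e1 h1⟩
  by_cases h2 : φ (u 2) ∈ O
  swap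
  · exact ⟨_, place_inf O O.zero_mem O.one_mem O.zero_mem e2 h2⟩
  exfalso
  apply hT
  have hpoly : ∀ {x a b c : L}, x ∈ O → a ∈ O → b ∈ O → c ∈ O →
      2 * x ^ 4 + a * x ^ 2 + b * x + c ∈ O := fun hx ha hb hc =>
    add_mem (add_mem (add_mem (mul_mem n2 (pow_mem hx 4)) (mul_mem ha (pow_mem hx 2)))
      (mul_mem hb hx)) hc
  have hx : T ∈ Algebra.adjoin K (Set.range u ∪ Set.range w) := by rw [hgen]; trivial
  clear hT
  induction hx using Algebra.adjoin_induction with
  | mem x hx =>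
    rcases hx with ⟨i, rfl⟩ | ⟨i, rfl⟩ <;> fin_cases i
    · exact h0
    · exact h1
    · exact h2
    · exact place_fin O (hpoly h0 n10 O.zero_mem n25) e0
    · exact place_fin O (hpoly h1 O.zero_mem O.one_mem O.zero_mem) e1
    · exact place_fin O (hpoly h2 O.zero_mem O.one_mem O.zero_mem) e2
  | algebraMap k => exact hK k
  | add x y _ _ hx hy => rw [map_add]; exact add_mem hx hy
  | mul x y _ _ hx hy => rw [map_mul]; exact mul_mem hx hy

/-- The constant has valuation divisible by four. -/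
theorem at_infinity (hI : InfStmt) {K B : Type} [Field K] [CharZero K] {v : K → ℤ}
    (hv : Good K v) [CommRing B] [IsDedekindDomain B] [Algebra K B] [Algebra K[X] B]
    [IsScalarTower K K[X] B] [Module.Finite K[X] B] [Module.IsTorsionFree K[X] B]
    {u w : Fin 3 → B} (hrel : Rel u w) (hgen : Algebra.adjoin K (Set.range u ∪ Set.range w) = ⊤)
    {ι : Type} [Fintype ι] [DecidableEq ι] (e : Basis ι K[X] B) (γ : B) (c : K) (hc : c ≠ 0)
    (h : Algebra.norm K[X] γ = Polynomial.C c * Algebra.discr K[X] e ^ 2) : 4 ∣ v c := by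
  classical
  let Kt := FractionRing K[X]
  let L := FractionRing B
  have : Module.Free K[X] B := Module.Free.of_basis e
  have : IsLocalization (Algebra.algebraMapSubmonoid B K[X]⁰) L :=
    IsIntegralClosure.isLocalization _ Kt _ _
  have : FiniteDimensional Kt L := .of_isLocalization K[X] B K[X]⁰
  have : CharZero Kt := algebraRat.charZero Kt
  have hinj : Function.Injective (algebraMap K[X] Kt) := IsFractionRing.injective _ _
  have H := hI K v hv Kt L (fun O hK hT => by
    refine exists_theta hrel hgen O (fun k => ?_) (algebraMap K[X] B X) ?_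
    · rw [IsScalarTower.algebraMap_apply K K[X] B, ← IsScalarTower.algebraMap_apply]
      exact hK k
    · rwa [← IsScalarTower.algebraMap_apply])
  set e' := e.localizationLocalization Kt K[X]⁰ L
  have hd : Algebra.discr Kt e' = algebraMap K[X] Kt (Algebra.discr K[X] e) :=
    Algebra.discr_localizationLocalization _ _ _ e
  have hd0 : Algebra.discr K[X] e ≠ 0 := by
    intro h0
    apply Algebra.discr_not_zero_of_basis Kt e'
    rw [hd, h0, map_zero]
  have hl0 : (Algebra.discr K[X] e).leadingCoeff ≠ 0 := leadingCoeff_ne_zero.mpr hd0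
  have h1 := H (algebraMap B L γ) (Algebra.norm K[X] γ) 1
    (by rw [h]; exact mul_ne_zero (C_ne_zero.mpr hc) (pow_ne_zero _ hd0)) one_ne_zero
    (by rw [map_one, mul_one, Algebra.norm_localization K[X] K[X]⁰])
  rw [h, leadingCoeff_mul, leadingCoeff_C, leadingCoeff_pow, leadingCoeff_one, v_one hv,
    hv.mul _ _ hc (pow_ne_zero _ hl0), v_sq hv hl0] at h1
  let pb := Field.powerBasisOfFiniteOfSeparable Kt L
  have h2 := Algebra.discr_powerBasis_eq_norm Kt pb
  have h3 : Algebra.discr Kt pb.basis =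
      ((e'.reindex (e'.indexEquiv pb.basis)).toMatrix pb.basis).det ^ 2 * Algebra.discr Kt e' := by
    conv_lhs => rw [← (e'.reindex (e'.indexEquiv pb.basis)).toMatrix_map_vecMul pb.basis]
    rw [Algebra.discr_of_matrix_vecMul, Basis.coe_reindex, Algebra.discr_reindex]
  set χ := ((e'.reindex (e'.indexEquiv pb.basis)).toMatrix pb.basis).det
  have hχ : χ ≠ 0 := by
    intro h0
    apply Algebra.discr_not_zero_of_basis Kt pb.basis
    rw [h3, h0]
    simp
  obtain ⟨a, b, hb, hab⟩ := IsFractionRing.div_surjective (A := K[X]) χ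
  have hb0 : b ≠ 0 := nonZeroDivisors.ne_zero hb
  have hb' : algebraMap K[X] Kt b ≠ 0 := by
    rwa [ne_eq, map_eq_zero_iff _ hinj]
  have ha0 : a ≠ 0 := by
    rintro rfl
    apply hχ
    rw [← hab]
    simp
  set n := finrank Kt L * (finrank Kt L - 1) / 2
  have hn : ((-1 : K) ^ n) ≠ 0 := pow_ne_zero _ (neg_ne_zero.mpr one_ne_zero)
  have h4 := H (aeval pb.gen (derivative (minpoly Kt pb.gen)))
    (Polynomial.C ((-1) ^ n) * (a ^ 2 * Algebra.discr K[X] e)) (b ^ 2)
    (mul_ne_zero (C_ne_zero.mpr hn) (mul_ne_zero (pow_ne_zero _ ha0) hd0)) (pow_ne_zero _ hb0)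
    (by
      have h5 : ((-1 : Kt) ^ n) * (-1) ^ n = 1 := by
        rw [← mul_pow, neg_mul_neg, one_mul, one_pow]
      have h6 : algebraMap K[X] Kt a = χ * algebraMap K[X] Kt b := by
        rw [← hab, div_mul_cancel₀ _ hb']
      simp only [map_mul, map_pow, map_neg, map_one, ← hd, h6]
      linear_combination (-(-1 : Kt) ^ n * algebraMap K[X] Kt b ^ 2) * (h2.symm.trans h3) * (-1)
        - (Algebra.norm Kt (aeval pb.gen (derivative (minpoly Kt pb.gen))) *
          algebraMap K[X] Kt b ^ 2) * h5)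
  have hla := leadingCoeff_ne_zero.mpr ha0
  have hlb := leadingCoeff_ne_zero.mpr hb0
  rw [leadingCoeff_mul, leadingCoeff_mul, leadingCoeff_C, leadingCoeff_pow, leadingCoeff_pow,
    hv.mul _ _ hn (mul_ne_zero (pow_ne_zero _ hla) hl0), hv.mul _ _ (pow_ne_zero _ hla) hl0,
    v_neg_one_pow hv, v_sq hv hla, v_sq hv hlb] at h4
  omega

theorem core (hF : FiberStmt) (hI : InfStmt) (hD : DiffStmt) (hP : FinStmt) {K B : Type}
    [Field K] [CharZero K] {v : K → ℤ}
    (hv : Good K v) [CommRing B] [IsDedekindDomain B] [Algebra K B] [Algebra K[X] B]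
    [IsScalarTower K K[X] B] [Module.Finite K[X] B] [Module.IsTorsionFree K[X] B]
    {u w : Fin 3 → B} {f : B} {σ : Type} {d : σ → Derivation K B B} {β c : σ → B}
    (H : Curve K u w f d β c) (y : B) (hT : algebraMap K[X] B X = f * (y ^ 4 - 2)) : False := by
  classical
  have hI0 : I0 u w ≠ ⊤ := by
    intro h
    exact one_ne_zero (H.ind 1 0 0 0 (by rw [h]; trivial)).1
  obtain ⟨z, hz, hIz⟩ := Ideal.exists_le_maximal _ hI0
  have hzp := hz.isPrime
  have hZ := Z0_le H.rel hIz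
  have hgz : w 0 + u 0 ∉ z := by
    intro h
    refine const_notMem (K := K) hz.ne_top (k := 20) (by norm_num) ?_
    convert z.sub_mem (z.mul_mem_left (2 * u 0) (z.sub_mem h (hIz (f1_mem u w))))
      (z.mul_mem_left 4 (hZ (R_mem u w))) using 1
    rw [map_ofNat]
    ring
  have hg : w 0 + u 0 ≠ 0 := fun h => hgz (h ▸ z.zero_mem)
  obtain ⟨γ, hγ, hγc⟩ := hD K B σ d c (fun α α' b => by
    apply mul_left_cancel₀ hg
    have e := H.prop α α' b
    calc _ = (β α' * d α b) ^ 2 := by rw [mul_pow, H.sq]; ring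
      _ = (β α * d α' b) ^ 2 := by rw [e]
      _ = _ := by rw [mul_pow, H.sq]; ring) H.loc
  have : Module.Free K[X] B := Module.free_of_finite_type_torsion_free'
  let e := Module.Free.chooseBasis K[X] B
  obtain ⟨c0, hc0, hn, ε, l, hl, hε, hsq⟩ := hP K B _ e γ hγ
  have h4 := at_infinity hI hv H.rel H.gen e γ c0 hc0 hn
  have hcop := coprime_fib hv H.rel H.gen y
  let Φ : B →ₐ[K] (B ⧸ I0 u w) × (B ⧸ Ideal.span {y ^ 4 - 2}) :=
    (Ideal.Quotient.mkₐ K _).prod (Ideal.Quotient.mkₐ K _)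
  have hΦs : Function.Surjective Φ := by
    rintro ⟨x1, x2⟩
    obtain ⟨x1, rfl⟩ := Ideal.Quotient.mk_surjective x1
    obtain ⟨x2, rfl⟩ := Ideal.Quotient.mk_surjective x2
    obtain ⟨i, hi, j, hj, hij⟩ := Ideal.isCoprime_iff_exists.mp hcop
    refine ⟨j * x1 + i * x2, Prod.ext (Ideal.Quotient.eq.mpr ?_) (Ideal.Quotient.eq.mpr ?_)⟩
    · have : j * x1 + i * x2 - x1 = (x2 - x1) * i := by linear_combination x1 * hij
      rw [this]
      exact Ideal.mul_mem_left _ _ hi
    · have : j * x1 + i * x2 - x2 = (x1 - x2) * j := by linear_combination x2 * hij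
      rw [this]
      exact Ideal.mul_mem_left _ _ hj
  have hΦk : ∀ b, Φ b = 0 ↔ algebraMap K[X] B X ∣ b := by
    intro b
    rw [hT, ← Ideal.mem_span_singleton, ← Ideal.span_singleton_mul_span_singleton, H.fib,
      Ideal.mul_eq_inf_of_isCoprime hcop, Ideal.mem_inf, Prod.ext_iff,
      ← Ideal.Quotient.eq_zero_iff_mem, ← Ideal.Quotient.eq_zero_iff_mem]
    rfl
  obtain ⟨e', l', hg', hN'⟩ := red e Φ hΦs hΦk l
  obtain ⟨b, hb0, hb1, hb2, hb3⟩ := basis_fib H.rel H.gen H.ind
  obtain ⟨α, hα, -⟩ := H.loc z hz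
  obtain ⟨p, hp⟩ := hsq _ _ (hγc α)
  have hβz : β α ∉ z := by
    intro h
    have : β α ^ 2 ∈ z := by rw [pow_two]; exact z.mul_mem_left _ h
    rw [H.sq] at this
    exact (hzp.mem_or_mem this).elim hgz hα
  have h2 := hF K v hv (B ⧸ I0 u w) (B ⧸ Ideal.span {y ^ 4 - 2}) (Ideal.Quotient.mk _ (u 0)) b
    hb0 hb1 hb2 hb3
    (by
      have := Ideal.Quotient.eq_zero_iff_mem.mpr (R_sq_mem H.rel)
      simpa only [map_pow, map_sub, map_ofNat] using this)
    (Ideal.Quotient.mk _ y)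
    (by
      have : Ideal.Quotient.mk (Ideal.span {y ^ 4 - 2}) (y ^ 4 - 2) = 0 :=
        Ideal.Quotient.eq_zero_iff_mem.mpr (Ideal.subset_span rfl)
      rwa [map_sub, map_pow, map_ofNat, sub_eq_zero] at this)
    _ e' l' (Φ ε) (Ideal.Quotient.mk _ (β α)) (Ideal.Quotient.mk _ p)
    (by
      obtain ⟨s, n, hn, hs⟩ := hz.exists_inv hβz
      obtain ⟨i, hi, r, hr, e1⟩ := Submodule.mem_sup.mp
        (le_Z0 (five_not_sq hv) H.gen hz.ne_top hZ hn)
      obtain ⟨r, rfl⟩ := Ideal.mem_span_singleton'.mp hr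
      refine IsUnit.of_mul_eq_one (Ideal.Quotient.mk _ (s * (1 + r * (u 0 ^ 2 - 5)))) ?_
      rw [← map_mul, ← map_one (Ideal.Quotient.mk (I0 u w)), Ideal.Quotient.eq]
      have : β α * (s * (1 + r * (u 0 ^ 2 - 5))) - 1 =
          -((1 + r * (u 0 ^ 2 - 5)) * i + r ^ 2 * (u 0 ^ 2 - 5) ^ 2) := by
        linear_combination (1 + r * (u 0 ^ 2 - 5)) * hs + (1 + r * (u 0 ^ 2 - 5)) * e1
      rw [this]
      exact neg_mem (Ideal.add_mem _ (Ideal.mul_mem_left _ _ hi)
        (Ideal.mul_mem_left _ _ (R_sq_mem H.rel))))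
    (by
      change Ideal.Quotient.mk (I0 u w) ε * _ = _
      rw [← map_ofNat (Ideal.Quotient.mk (I0 u w)) 2, ← map_pow, ← map_pow, ← map_mul, ← map_mul,
        ← map_mul, Ideal.Quotient.eq]
      have : ε * β α ^ 2 - 2 * u 0 * p ^ 2 = p ^ 2 * (w 0 - u 0) := by
        rw [H.sq]
        linear_combination (w 0 + u 0) * hp
      rw [this]
      exact Ideal.mul_mem_left _ _ (f1_mem u w))
    c0 hc0
    (by
      rw [hg', ← coeff_zero_eq_eval_zero]
      exact fun h => hl (X_dvd_iff.mpr h))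
    (by rw [hN', hg', hε, eval_mul, eval_C, eval_pow])
  omega

end Arith

open Polynomial Geom Arith in
theorem arithThm (hN : NoethStmt) (hF : FiberStmt) (hI : InfStmt) (hD : DiffStmt) (hP : FinStmt) :
    ArithStmt := by
  intro K _ _ v hv B _ _ _ u w f σ d β c H
  classical
  have hft : Algebra.FiniteType K B := by
    refine ⟨⟨((Set.finite_range u).union (Set.finite_range w)).toFinset, ?_⟩⟩
    rw [Set.Finite.coe_toFinset, H.gen]
  have hf0 : f ≠ 0 := by
    intro h
    have h1 := R_sq_mem H.rel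
    rw [← H.fib, h, Ideal.span_singleton_zero, Ideal.mem_bot] at h1
    have h2 : u 0 ^ 2 - 5 = 0 := pow_eq_zero_iff (by norm_num) |>.mp h1
    exact one_ne_zero (H.ind 0 0 1 0 (by simp [h2])).2.2.1
  have hfu : ¬ IsUnit f := by
    intro h
    refine one_ne_zero (H.ind 1 0 0 0 ?_).1
    rw [← H.fib, Ideal.span_singleton_eq_top.mpr h]
    trivial
  obtain ⟨y, hinj, hfin⟩ := hN K B f hf0 hfu
  let : Algebra K[X] B := (aeval (R := K) (f * (y ^ 4 - 2)) : K[X] →ₐ[K] B).toRingHom.toAlgebra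
  have : IsScalarTower K K[X] B := IsScalarTower.of_algebraMap_eq fun k =>
    ((aeval (R := K) (f * (y ^ 4 - 2)) : K[X] →ₐ[K] B).commutes k).symm
  have : Module.Finite K[X] B := hfin
  have : FaithfulSMul K[X] B := (faithfulSMul_iff_algebraMap_injective _ _).mpr hinj
  exact core hF hI hD hP hv H y (aeval_X _)

end Pool.Agent.P.MP_8b60db_ag
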