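import Pool.Agent.P.MP_8b60db_ag.Defs

/-! The rank three projective module given by an explicit idempotent matrix. -/

namespace Pool.Agent.P.MP_8b60db_ag
namespace Bundle

open Matrix

variable {A : Type} [CommRing A]

section idem
variable {ι : Type} [Fintype ι] [DecidableEq ι]

/-- the fixed module of a matrix -/
def Fx (P : Matrix ι ι A) : Submodule A (ι → A) := LinearMap.eqLocus P.mulVecLin LinearMap.id

/-- the projection onto the fixed module of an idempotent matrix -/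
def pj (P : Matrix ι ι A) (hP : P * P = P) : (ι → A) →ₗ[A] Fx P :=
  P.mulVecLin.codRestrict _ fun x => by
    change P *ᵥ (P *ᵥ x) = P *ᵥ x
    rw [mulVec_mulVec, hP]

omit [DecidableEq ι] in
theorem pj_self (P : Matrix ι ι A) (hP : P * P = P) (x : Fx P) : pj P hP x.1 = x :=
  Subtype.ext x.2

theorem dual_row (P : Matrix ι ι A) (hP : P * P = P) (φ : Module.Dual A (Fx P)) :
    ∃ Φ : ι → A, Φ ᵥ* P = Φ ∧ ∀ x : Fx P, φ x = Φ ⬝ᵥ x.1 := by
  have h : ∀ v, φ (pj P hP v) = (fun i => φ (pj P hP fun j => if i = j then 1 else 0)) ⬝ᵥ v := by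
    intro v
    have := LinearMap.pi_apply_eq_sum_univ (φ ∘ₗ pj P hP) v
    simpa [dotProduct, mul_comm] using this
  refine ⟨_, ?_, fun x => by rw [← h, pj_self]⟩
  refine dotProduct_eq _ _ fun v => ?_
  rw [← dotProduct_mulVec, ← h, ← h]
  congr 1
  exact pj_self P hP (pj P hP v)

omit [DecidableEq ι] in
theorem row_dual (P : Matrix ι ι A) (Φ : ι → A) :
    ∃ φ : Module.Dual A (Fx P), ∀ x : Fx P, φ x = Φ ⬝ᵥ x.1 :=
  ⟨{ toFun := fun x => Φ ⬝ᵥ x.1
     map_add' := fun x y => by simp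
     map_smul' := fun c x => by simp }, fun _ => rfl⟩

end idem

/-- determinant of three vectors -/
def D (x y z : Fin 3 → A) : A :=
  x 0 * (y 1 * z 2 - y 2 * z 1) - x 1 * (y 0 * z 2 - y 2 * z 0) + x 2 * (y 0 * z 1 - y 1 * z 0)

theorem D_vecMul (x y z : Fin 3 → A) (N : Matrix (Fin 3) (Fin 3) A) :
    D (x ᵥ* N) (y ᵥ* N) (z ᵥ* N) = D x y z * N.det := by
  simp only [D, vecMul, dotProduct, Fin.sum_univ_three, det_fin_three]
  ring

theorem D_rows (N : Matrix (Fin 3) (Fin 3) A) : D (N 0) (N 1) (N 2) = N.det := by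
  simp only [D, det_fin_three]
  ring

theorem D_cramer (x y z q v : Fin 3 → A) :
    D x y q * (z ⬝ᵥ v) - D x z q * (y ⬝ᵥ v) + D y z q * (x ⬝ᵥ v) = D x y z * (q ⬝ᵥ v) := by
  simp only [D, dotProduct, Fin.sum_univ_three]
  ring

theorem D_plu (x y z t q : Fin 3 → A) :
    D x y q * D z t q - D x z q * D y t q + D y z q * D x t q = 0 := by
  simp only [D]
  ring

theorem D_tri (x y z q : Fin 3 → A) (r s t : A) :
    D x y z = D (x - r • q) (y - s • q) (z - t • q) + t * D (x - r • q) (y - s • q) q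
      - s * D (x - r • q) (z - t • q) q + r * D (y - s • q) (z - t • q) q := by
  simp only [D, Pi.sub_apply, Pi.smul_apply, smul_eq_mul]
  ring

def io (a b g R : A) : Matrix (Fin 3) (Fin 4) A := !![1, 0, 0, 0; 0, 1, 0, 0; 0, 0, a * g, b * R]
def io' (g R : A) : Matrix (Fin 4) (Fin 3) A := !![g, 0, 0; 0, g, 0; 0, 0, g; 0, 0, R]
def Pm (a b g G R : A) : Matrix (Fin 4) (Fin 4) A :=
  !![1, 0, 0, 0; 0, 1, 0, 0; 0, 0, a * g, b * R; 0, 0, a * R, b * G]

section mats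
variable {g G R a b : A} (hR : g * G = R ^ 2) (hab : a * g + b * G = 1)
include hR hab

theorem m1 : io a b g R * io' g R = g • (1 : Matrix (Fin 3) (Fin 3) A) := by
  ext i j
  fin_cases i <;> fin_cases j <;> simp [io, io', Matrix.mul_apply, Fin.sum_univ_succ]
  linear_combination g * hab - b * hR

omit hab in
theorem m2 : io' g R * io a b g R = g • Pm a b g G R := by
  ext i j
  fin_cases i <;> fin_cases j <;> simp [io, io', Pm, Matrix.mul_apply, Fin.sum_univ_succ]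
  · ring
  · linear_combination (-b) * hR

theorem m3 : io a b g R * Pm a b g G R = io a b g R := by
  ext i j
  fin_cases i <;> fin_cases j <;> simp [io, Pm, Matrix.mul_apply, Fin.sum_univ_succ]
  · linear_combination a * g * hab - a * b * hR
  · linear_combination b * R * hab

theorem m4 : Pm a b g G R * io' g R = io' g R := by
  ext i j
  fin_cases i <;> fin_cases j <;> simp [io', Pm, Matrix.mul_apply, Fin.sum_univ_succ]
  · linear_combination g * hab - b * hR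
  · linear_combination R * hab

theorem m5 : Pm a b g G R * Pm a b g G R = Pm a b g G R := by
  ext i j
  fin_cases i <;> fin_cases j <;> simp [Pm, Matrix.mul_apply, Fin.sum_univ_succ]
  · linear_combination a * g * hab - a * b * hR
  · linear_combination b * R * hab
  · linear_combination a * R * hab
  · linear_combination b * G * hab - a * b * hR

end mats

section blocks
variable {e' : A} {al : Matrix (Fin 3) (Fin 4) A} {be : Matrix (Fin 4) (Fin 3) A}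
  {Pi : Matrix (Fin 4) (Fin 4) A}

theorem idem (h1 : al * be = (e' * (1 - e')) • (1 : Matrix (Fin 3) (Fin 3) A))
    (h2 : be * al = (e' * (1 - e')) • Pi) (h3 : al * Pi = al) (h4 : Pi * be = be)
    (h5 : Pi * Pi = Pi) :
    fromBlocks ((1 - e') • 1) al be (e' • Pi) * fromBlocks ((1 - e') • 1) al be (e' • Pi) =
      fromBlocks ((1 - e') • 1) al be (e' • Pi) := by
  rw [fromBlocks_multiply]
  simp only [Matrix.smul_mul, Matrix.mul_smul, Matrix.one_mul, Matrix.mul_one, h1, h2, h3, h4, h5,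
    smul_smul, ← add_smul]
  congr 1
  · congr 1; ring
  · simp
  · simp
  · congr 1; ring

theorem row_fix (h3 : al * Pi = al) (h5 : Pi * Pi = Pi) {Φ : Fin 3 ⊕ Fin 4 → A}
    (h : Φ ᵥ* fromBlocks ((1 - e') • 1) al be (e' • Pi) = Φ) :
    (1 - e') • (Φ ∘ Sum.inr) = (Φ ∘ Sum.inl) ᵥ* al := by
  rw [vecMul_fromBlocks] at h
  have h0 : (Φ ∘ Sum.inl) ᵥ* al + (Φ ∘ Sum.inr) ᵥ* (e' • Pi) = Φ ∘ Sum.inr := by
    funext j; exact congrFun h (Sum.inr j)
  have h1 : (Φ ∘ Sum.inr) ᵥ* Pi = Φ ∘ Sum.inr := by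
    conv_lhs => rw [← h0]
    rw [add_vecMul, vecMul_vecMul, vecMul_vecMul, h3, Matrix.smul_mul, h5, h0]
  rw [vecMul_smul, h1] at h0
  rw [sub_smul, one_smul, ← eq_sub_iff_add_eq.2 h0]

theorem dot_fix (h3 : al * Pi = al) (h5 : Pi * Pi = Pi) {Φ x : Fin 3 ⊕ Fin 4 → A}
    (h : Φ ᵥ* fromBlocks ((1 - e') • 1) al be (e' • Pi) = Φ)
    (hx : fromBlocks ((1 - e') • 1) al be (e' • Pi) *ᵥ x = x) :
    (Φ ∘ Sum.inl) ⬝ᵥ (x ∘ Sum.inl) = (1 - e') * (Φ ⬝ᵥ x) := by
  have h1 := row_fix h3 h5 h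
  rw [fromBlocks_mulVec] at hx
  have h0 : ((1 - e') • (1 : Matrix (Fin 3) (Fin 3) A)) *ᵥ (x ∘ Sum.inl) + al *ᵥ (x ∘ Sum.inr) =
      x ∘ Sum.inl := by
    funext j; exact congrFun hx (Sum.inl j)
  have h2 : Φ ⬝ᵥ x = (Φ ∘ Sum.inl) ⬝ᵥ (x ∘ Sum.inl) + (Φ ∘ Sum.inr) ⬝ᵥ (x ∘ Sum.inr) := by
    simp [dotProduct, Fintype.sum_sum_type]
  conv_lhs => rw [← h0]
  rw [dotProduct_add, dotProduct_mulVec _ al, ← h1, smul_mulVec, one_mulVec, dotProduct_smul,
    smul_dotProduct, h2, smul_eq_mul, smul_eq_mul, mul_add]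

end blocks

theorem beta [IsDomain A] {g G R a b e ε h0 e' : A} {N : Matrix (Fin 3) (Fin 3) A}
    (hR : g * G = R ^ 2) (hab : a * g + b * G = 1) (he : e + ε = 1) (hε : ε = g * h0)
    (hN : N.det = (e * ε) ^ 2) (he' : e' = e ^ 2 * (6 - 8 * e + 3 * e ^ 2)) (h0' : 1 - e' ≠ 0)
    {x y z : Fin 3 → A} {x' y' z' : Fin 4 → A} (hx : (1 - e') • x' = x ᵥ* (N * io a b g R))
    (hy : (1 - e') • y' = y ᵥ* (N * io a b g R)) (hz : (1 - e') • z' = z ᵥ* (N * io a b g R)) :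
    ∃ m n, h0 * ε ^ 6 * (1 + 3 * e) ^ 3 * (g * m + R * n) = D x y z := by
  have key : ∀ {x : Fin 3 → A} {x' : Fin 4 → A}, (1 - e') • x' = x ᵥ* (N * io a b g R) →
      (1 - e') * x' 0 = (x ᵥ* N) 0 ∧ (1 - e') * x' 1 = (x ᵥ* N) 1 ∧
        (1 - e') * (g * x' 2 + R * x' 3) = g * (x ᵥ* N) 2 := by
    intro x x' h
    rw [← vecMul_vecMul] at h
    generalize x ᵥ* N = t at h
    have a0 := congrFun h 0
    have a1 := congrFun h 1
    have a2 := congrFun h 2
    have a3 := congrFun h 3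
    simp [io, vecMul, dotProduct, Fin.sum_univ_succ] at a0 a1 a2 a3
    exact ⟨a0, a1, by linear_combination g * a2 + R * a3 + g * t 2 * hab - b * t 2 * hR⟩
  obtain ⟨x0, x1, x2⟩ := key hx
  obtain ⟨y0, y1, y2⟩ := key hy
  obtain ⟨z0, z1, z2⟩ := key hz
  have h1 : 1 - e' = ε ^ 3 * (1 + 3 * e) := by
    have hεe : ε = 1 - e := by linear_combination he
    rw [he', hεe]; ring
  set κ := h0 * ε ^ 6 * (1 + 3 * e) ^ 3 with hκ
  have h2 : (1 - e') ^ 3 = κ * (g * ε ^ 2) := by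
    rw [h1, hκ]; linear_combination ε ^ 8 * (1 + 3 * e) ^ 3 * hε
  have h3 : g * ε ^ 2 ≠ 0 := fun h => pow_ne_zero 3 h0' (by rw [h2, h, mul_zero])
  set O := D ![x' 0, x' 1, g * x' 2 + R * x' 3] ![y' 0, y' 1, g * y' 2 + R * y' 3]
    ![z' 0, z' 1, g * z' 2 + R * z' 3] with hO
  have h4 : (1 - e') ^ 3 * O = g * D (x ᵥ* N) (y ᵥ* N) (z ᵥ* N) := by
    have : g * D (x ᵥ* N) (y ᵥ* N) (z ᵥ* N) = D ![(x ᵥ* N) 0, (x ᵥ* N) 1, g * (x ᵥ* N) 2]
        ![(y ᵥ* N) 0, (y ᵥ* N) 1, g * (y ᵥ* N) 2] ![(z ᵥ* N) 0, (z ᵥ* N) 1, g * (z ᵥ* N) 2] := by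
      simp [D]; ring
    rw [this, ← x0, ← x1, ← x2, ← y0, ← y1, ← y2, ← z0, ← z1, ← z2, hO]
    simp [D]; ring
  have h5 : κ * O = e ^ 2 * D x y z := by
    refine mul_left_cancel₀ h3 ?_
    rw [D_vecMul, hN, h2] at h4
    linear_combination h4
  have h6 : IsCoprime κ (e ^ 2) := by
    have : IsCoprime (1 - e') e := ⟨1, e * (6 - 8 * e + 3 * e ^ 2), by rw [he']; ring⟩
    have h7 : IsCoprime ((1 - e') ^ 3) (e ^ 2) := this.pow
    rw [h2] at h7
    exact h7.of_mul_left_left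
  obtain ⟨a1, a2, h7⟩ := h6
  obtain ⟨m, n, hm⟩ : ∃ m n, O = g * m + R * n :=
    ⟨D ![x' 0, x' 1, x' 2] ![y' 0, y' 1, y' 2] ![z' 0, z' 1, z' 2],
      D ![x' 0, x' 1, x' 3] ![y' 0, y' 1, y' 3] ![z' 0, z' 1, z' 3], by
        rw [hO]; simp [D]; ring⟩
  have h8 : κ * (a1 * D x y z + a2 * O) = D x y z := by
    linear_combination a2 * h5 + D x y z * h7
  refine ⟨a1 * (h0 ^ 2 * ε ^ 5 * (1 + 3 * e) ^ 3) * (a1 * D x y z + a2 * O) + a2 * m, a2 * n, ?_⟩
  have h9 : κ = g * (h0 ^ 2 * ε ^ 5 * (1 + 3 * e) ^ 3) := by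
    rw [hκ]; linear_combination h0 * ε ^ 5 * (1 + 3 * e) ^ 3 * hε
  linear_combination (1 + κ * a1) * h8 - κ * a2 * hm - κ * a1 * (a1 * D x y z + a2 * O) * h9

theorem main [IsDomain A] {g G R a b e ε h0 : A} (N : Matrix (Fin 3) (Fin 3) A)
    (hR : g * G = R ^ 2) (hab : a * g + b * G = 1) (he : e + ε = 1) (hε : ε = g * h0)
    (hN : N.det = (e * ε) ^ 2) (I : Ideal A)
    (hI : I = Ideal.span {N 0 0, N 1 0, N 2 0, e ^ 2 * (6 - 8 * e + 3 * e ^ 2)}) (hI' : I ≠ ⊤) :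
    ∃ (E : Type) (_ : AddCommGroup E) (_ : Module A E), Module.Finite A E ∧
      Module.Projective A E ∧ Module.finrank A E = 3 ∧ ∃ s : E,
        (∀ x : A, x ∈ I ↔ ∃ φ : Module.Dual A E, φ s = x) ∧
        ∀ (e0 : E) (q : Module.Dual A E), q e0 = 1 →
          ∃ (c : Fin 3 ⊕ Fin 4 → A) (f : A) (β : Fin 3 ⊕ Fin 4 → Fin 3 ⊕ Fin 4 → A),
            Ideal.span (Set.range c) ⊔ Ideal.span {f} = I ∧ (∀ i j, β i j = - β j i) ∧
            (∀ i j k l, β i j * β k l - β i k * β j l + β j k * β i l = 0) ∧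
            (∀ i j k, β i j * c k - β i k * c j + β j k * c i = 0) ∧
            (∀ i j k l, g ∣ β i j * β k l) ∧
            g ∈ Ideal.span {x | ∃ i j k l, x = β i j * β k l} := by
  set T := 6 - 8 * e + 3 * e ^ 2 with hT
  set e' := e ^ 2 * T with he'
  have hεe : ε = 1 - e := by linear_combination he
  have h1e : 1 - e' = ε ^ 3 * (1 + 3 * e) := by rw [he', hT, hεe]; ring
  have h0' : 1 - e' ≠ 0 := fun h => hI' (by
    rw [Ideal.eq_top_iff_one, hI, sub_eq_zero.1 h]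
    exact Ideal.subset_span (by simp))
  set c0 := h0 * T * (1 + 3 * e) with hc0
  set al := N * io a b g R with hal
  set be := c0 • (io' g R * N.adjugate) with hbe
  set Pi := Pm a b g G R with hPi
  have hc : c0 * g * (e * ε) ^ 2 = e' * (1 - e') := by
    rw [h1e, he', hc0]; linear_combination (-(T * (1 + 3 * e) * e ^ 2 * ε ^ 2)) * hε
  have h1 : al * be = (e' * (1 - e')) • (1 : Matrix (Fin 3) (Fin 3) A) := by
    rw [hal, hbe, Matrix.mul_smul, Matrix.mul_assoc, ← Matrix.mul_assoc (io a b g R), m1 hR hab,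
      Matrix.smul_mul, Matrix.one_mul, Matrix.mul_smul, mul_adjugate, hN, smul_smul, smul_smul, hc]
  have h2 : be * al = (e' * (1 - e')) • Pi := by
    rw [hal, hbe, Matrix.smul_mul, Matrix.mul_assoc, ← Matrix.mul_assoc N.adjugate, adjugate_mul,
      Matrix.smul_mul, Matrix.one_mul, Matrix.mul_smul, m2 hR, hN, smul_smul, smul_smul, ← hc,
      mul_right_comm]
  have h3 : al * Pi = al := by rw [hal, Matrix.mul_assoc, m3 hR hab]
  have h4 : Pi * be = be := by rw [hbe, Matrix.mul_smul, ← Matrix.mul_assoc, m4 hR hab]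
  have h5 : Pi * Pi = Pi := m5 hR hab
  have hP := idem h1 h2 h3 h4 h5
  have hrow := fun Φ => row_fix (e' := e') (be := be) (Φ := Φ) h3 h5
  have hdot := fun Φ x => dot_fix (e' := e') (be := be) (Φ := Φ) (x := x) h3 h5
  set P := fromBlocks ((1 - e') • (1 : Matrix (Fin 3) (Fin 3) A)) al be (e' • Pi) with hPd
  have hPr : ∀ i, P i ᵥ* P = P i := fun i => by
    funext j
    have := congrFun (congrFun hP i) j
    rwa [Matrix.mul_apply] at this
  have hPx : ∀ (x : Fx P) i, P i ⬝ᵥ x.1 = x.1 i := fun x i => congrFun x.2 i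
  set s := pj P hP (_root_.Pi.single (Sum.inr 0) 1) with hs
  have hsv : ∀ i, s.1 i = P i (Sum.inr 0) := fun i => by
    change (P *ᵥ _root_.Pi.single (Sum.inr 0) 1) i = _
    simp
  have hIs : I = Ideal.span (Set.range s.1) := by
    have a0 : ∀ i, s.1 (Sum.inl i) = N i 0 := fun i => by
      rw [hsv, hPd, fromBlocks_apply₁₂, hal]
      simp [io, Matrix.mul_apply, Fin.sum_univ_succ]
    have a1 : ∀ j, s.1 (Sum.inr j) = e' * Pi j 0 := fun j => by
      rw [hsv, hPd, fromBlocks_apply₂₂]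
      simp
    rw [hI]
    refine le_antisymm (Ideal.span_mono ?_) (Ideal.span_le.2 ?_)
    · rintro x (rfl | rfl | rfl | rfl)
      exacts [⟨_, a0 0⟩, ⟨_, a0 1⟩, ⟨_, a0 2⟩, ⟨Sum.inr 0, by rw [a1]; simp [hPi, Pm]⟩]
    · rintro x ⟨i | j, rfl⟩
      · rw [a0]
        refine Ideal.subset_span ?_
        fin_cases i <;> simp
      · rw [a1]
        exact Ideal.mul_mem_right _ _ (Ideal.subset_span (by simp))
  have hsurj : Function.Surjective (pj P hP) := fun x => ⟨x.1, pj_self P hP x⟩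
  have hfin : Module.Finite A (Fx P) := Module.Finite.of_surjective _ hsurj
  refine ⟨Fx P, inferInstance, inferInstance, hfin,
    Module.Projective.of_split (Fx P).subtype (pj P hP) (LinearMap.ext (pj_self P hP)), ?_, s,
    fun x => ?_, fun e0 q hq => ?_⟩
  · refine le_antisymm ?_ ?_
    · have := LinearMap.finrank_le_finrank_of_injective
        (f := LinearMap.funLeft A A Sum.inl ∘ₗ (Fx P).subtype) (M' := Fin 3 → A) (by
          rw [← LinearMap.ker_eq_bot, LinearMap.ker_eq_bot']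
          intro x hx
          refine Subtype.ext (funext fun i => ?_)
          have h6 := hdot (P i) x.1 (hPr i) x.2
          have h7 : x.1 ∘ Sum.inl = 0 := hx
          rw [h7, dotProduct_zero, hPx] at h6
          exact (mul_eq_zero.1 h6.symm).resolve_left h0')
      simpa using this
    · have := LinearMap.finrank_le_finrank_of_injective (M := Fin 3 → A)
        (f := pj P hP ∘ₗ (fromRows 1 (0 : Matrix (Fin 4) (Fin 3) A)).mulVecLin) (by
          rw [← LinearMap.ker_eq_bot, LinearMap.ker_eq_bot']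
          intro x hx
          funext i
          have h6 : P *ᵥ (fromRows 1 (0 : Matrix (Fin 4) (Fin 3) A) *ᵥ x) = 0 :=
            congrArg Subtype.val hx
          have h7 := congrFun h6 (Sum.inl i)
          rw [hPd, mulVec_mulVec, fromBlocks_mul_fromRows, fromRows_mulVec] at h7
          simp [smul_mulVec] at h7
          exact h7.resolve_left h0')
      simpa using this
  · rw [hIs, Ideal.mem_span_range_iff_exists_fun]
    constructor
    · rintro ⟨c, rfl⟩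
      obtain ⟨φ, hφ⟩ := row_dual P c
      exact ⟨φ, hφ s⟩
    · rintro ⟨φ, rfl⟩
      obtain ⟨Φ, -, hΦ⟩ := dual_row P hP φ
      exact ⟨Φ, (hΦ s).symm⟩
  obtain ⟨Q, hQ, hQ'⟩ := dual_row P hP q
  rw [hQ'] at hq
  set κ := h0 * ε ^ 6 * (1 + 3 * e) ^ 3 with hκ
  have hκ3 : (1 - e') ^ 3 = κ * (g * ε ^ 2) := by
    rw [h1e, hκ]; linear_combination ε ^ 8 * (1 + 3 * e) ^ 3 * hε
  have hκ0 : κ ≠ 0 := fun h => pow_ne_zero 3 h0' (by rw [hκ3, h, zero_mul])
  set Φ : Fin 3 ⊕ Fin 4 → Fin 3 ⊕ Fin 4 → A := fun i => P i - e0.1 i • Q with hΦ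
  have hΦP : ∀ i, Φ i ᵥ* P = Φ i := fun i => by
    simp only [hΦ, sub_vecMul, smul_vecMul, hPr, hQ]
  set x : Fin 3 ⊕ Fin 4 → Fin 3 → A := fun i => Φ i ∘ Sum.inl with hx
  set y : Fin 3 → A := Q ∘ Sum.inl with hy
  have hb : ∀ i j, ∃ m n, κ * (g * m + R * n) = D (x i) (x j) y := fun i j =>
    beta hR hab he hε hN he' h0' (hrow _ (hΦP i)) (hrow _ (hΦP j)) (hrow _ hQ)
  choose m n hmn using hb
  have hz : ∀ i j k, D (x i) (x j) (x k) = 0 := fun i j k => by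
    have h6 : ∀ i, x i ⬝ᵥ (e0.1 ∘ Sum.inl) = 0 := fun i => by
      rw [hx, hdot _ _ (hΦP i) e0.2, hΦ]
      simp only [sub_dotProduct, smul_dotProduct, hPx, hq, smul_eq_mul, mul_one, sub_self, mul_zero]
    have h7 := D_cramer (x i) (x j) (x k) y (e0.1 ∘ Sum.inl)
    rw [h6, h6, h6, hy, hdot _ _ hQ e0.2, hq, mul_one] at h7
    exact (mul_eq_zero.1 (by linear_combination -h7)).resolve_right h0'
  have hc' : ∀ i, Φ i ⬝ᵥ s.1 = s.1 i - e0.1 i * (Q ⬝ᵥ s.1) := fun i => by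
    simp only [hΦ, sub_dotProduct, smul_dotProduct, hPx, smul_eq_mul]
  refine ⟨fun i => Φ i ⬝ᵥ s.1, Q ⬝ᵥ s.1, fun i j => g * m i j + R * n i j, ?_, fun i j => ?_,
    fun i j k l => ?_, fun i j k => ?_, fun i j k l => ?_, ?_⟩
  · rw [hIs]
    refine le_antisymm (sup_le (Ideal.span_le.2 ?_) (Ideal.span_le.2 ?_)) (Ideal.span_le.2 ?_)
    · rintro _ ⟨i, rfl⟩
      exact Ideal.mem_span_range_iff_exists_fun.2 ⟨Φ i, rfl⟩
    · rintro _ rfl
      exact Ideal.mem_span_range_iff_exists_fun.2 ⟨Q, rfl⟩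
    · rintro _ ⟨i, rfl⟩
      rw [eq_add_of_sub_eq (hc' i).symm]
      exact Ideal.add_mem _ (Ideal.mem_sup_left (Ideal.subset_span ⟨i, rfl⟩))
        (Ideal.mem_sup_right (Ideal.mul_mem_left _ _ (Ideal.subset_span rfl)))
  · refine mul_left_cancel₀ hκ0 ?_
    rw [mul_neg, hmn, hmn]
    simp only [D]; ring
  · refine mul_left_cancel₀ (pow_ne_zero 2 hκ0) ?_
    have h6 := D_plu (x i) (x j) (x k) (x l) y
    rw [← hmn, ← hmn, ← hmn, ← hmn, ← hmn, ← hmn] at h6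
    linear_combination h6
  · refine mul_left_cancel₀ (mul_ne_zero hκ0 h0') ?_
    have h6 := D_cramer (x i) (x j) (x k) y (s.1 ∘ Sum.inl)
    rw [hz, ← hmn, ← hmn, ← hmn, hx] at h6
    simp only [hdot _ _ (hΦP _) s.2] at h6
    linear_combination h6
  · exact ⟨m i j * (g * m k l + R * n k l) + R * n i j * m k l + G * n i j * n k l, by
      linear_combination (-(n i j * n k l)) * hR⟩
  set J : Ideal A := Ideal.span {x | ∃ i j, x = g * m i j + R * n i j} with hJ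
  have hJJ : J * J ≤ Ideal.span {x | ∃ i j k l,
      x = (g * m i j + R * n i j) * (g * m k l + R * n k l)} := by
    rw [hJ, Ideal.span_mul_span']
    refine Ideal.span_mono ?_
    rintro _ ⟨_, ⟨i, j, rfl⟩, _, ⟨k, l, rfl⟩, rfl⟩
    exact ⟨i, j, k, l, rfl⟩
  have hJm : ∀ i j k (t : A), κ * t = D (P i ∘ Sum.inl) (P j ∘ Sum.inl) (P k ∘ Sum.inl) →
      t ∈ J := fun i j k t ht => by
    have h6 : ∀ i, P i ∘ Sum.inl - e0.1 i • y = x i := fun i => rfl
    rw [D_tri _ _ _ y (e0.1 i) (e0.1 j) (e0.1 k), h6, h6, h6, hz, ← hmn, ← hmn, ← hmn] at ht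
    have h7 : t = e0.1 k * (g * m i j + R * n i j) - e0.1 j * (g * m i k + R * n i k) +
        e0.1 i * (g * m j k + R * n j k) := mul_left_cancel₀ hκ0 (by linear_combination ht)
    have h8 : ∀ i j, g * m i j + R * n i j ∈ J := fun i j => Ideal.subset_span ⟨i, j, rfl⟩
    rw [h7]
    exact J.add_mem (J.sub_mem (J.mul_mem_left _ (h8 _ _)) (J.mul_mem_left _ (h8 _ _)))
      (J.mul_mem_left _ (h8 _ _))
  set t := e ^ 4 * T ^ 3 with ht
  have hA : D (N.adjugate 0) (N.adjugate 1) (N.adjugate 2) = (e * ε) ^ 4 := by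
    rw [D_rows, det_adjugate, hN, ← pow_mul]; simp
  have r0 : ∀ j, P (Sum.inr j) ∘ Sum.inl = be j := fun j => rfl
  have r1 : be 0 = (c0 * g) • N.adjugate 0 ∧ be 1 = (c0 * g) • N.adjugate 1 ∧
      be 2 = (c0 * g) • N.adjugate 2 ∧ be 3 = (c0 * R) • N.adjugate 2 := by
    refine ⟨?_, ?_, ?_, ?_⟩ <;> funext j <;>
      simp [hbe, io', vecMul, dotProduct, Fin.sum_univ_succ, mul_assoc]
  have Ds : ∀ (r₁ r₂ r₃ : A) (x y z : Fin 3 → A),
      D (r₁ • x) (r₂ • y) (r₃ • z) = r₁ * r₂ * r₃ * D x y z := fun r₁ r₂ r₃ x y z => by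
    simp only [D, _root_.Pi.smul_apply, smul_eq_mul]; ring
  have hk : κ * t = c0 ^ 3 * g ^ 2 * (e * ε) ^ 4 := by
    rw [hκ, ht, hc0]
    linear_combination h0 * (1 + 3 * e) ^ 3 * e ^ 4 * T ^ 3 * ε ^ 4 * (ε + g * h0) * hε
  have j1 : g * ε ^ 2 ∈ J := hJm (Sum.inl 0) (Sum.inl 1) (Sum.inl 2) _ (by
    rw [← hκ3]
    simp [D, hPd, one_apply]
    ring)
  have j2 : t * g ∈ J := hJm (Sum.inr 0) (Sum.inr 1) (Sum.inr 2) _ (by
    rw [r0, r0, r0, r1.1, r1.2.1, r1.2.2.1, Ds, hA]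
    linear_combination g * hk)
  have j3 : t * R ∈ J := hJm (Sum.inr 0) (Sum.inr 1) (Sum.inr 3) _ (by
    rw [r0, r0, r0, r1.1, r1.2.1, r1.2.2.2, Ds, hA]
    linear_combination R * hk)
  have c1 : IsCoprime ε e' := ⟨ε ^ 2 * (1 + 3 * e), 1, by linear_combination -h1e⟩
  rw [he'] at c1
  have c2 : IsCoprime ε t := (IsCoprime.pow_right_iff (by norm_num)).1 c1.of_mul_right_left
    |>.pow_right.mul_right c1.of_mul_right_right.pow_right
  have c3 : IsCoprime g t := by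
    rw [hε] at c2
    exact c2.of_mul_left_left
  obtain ⟨k1, k2, c4⟩ : IsCoprime (g * ε ^ 4) (t ^ 2) := (c3.mul_left c2.pow_left).pow_right
  have e1 : g = k1 * (g * ε ^ 2 * (g * ε ^ 2)) +
      k2 * (a * (t * g * (t * g)) + b * (t * R * (t * R))) := by
    linear_combination (-g) * c4 - k2 * t ^ 2 * g * hab + k2 * b * t ^ 2 * hR
  refine hJJ ?_
  rw [e1]
  exact Ideal.add_mem _ (Ideal.mul_mem_left _ _ (Ideal.mul_mem_mul j1 j1))
    (Ideal.mul_mem_left _ _ (Ideal.add_mem _ (Ideal.mul_mem_left _ _ (Ideal.mul_mem_mul j2 j2))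
      (Ideal.mul_mem_left _ _ (Ideal.mul_mem_mul j3 j3))))

end Bundle

theorem bundleThm : BundleStmt := by
  intro A _ _ _ u w ⟨r0, r1, r2⟩ hI
  obtain ⟨k, hk⟩ : ∃ k : A, 100 * k = 1 := ⟨algebraMap ℚ A (1 / 100), by
    rw [← map_ofNat (algebraMap ℚ A) 100, ← map_mul]; norm_num⟩
  set g := w 0 + u 0 with hg
  set f := w 0 - u 0 with hf
  set R := u 0 ^ 2 - 5 with hRd
  set V := w 0 ^ 2 + u 0 ^ 2 with hV
  have hR : g * (f * V) = R ^ 2 := by rw [hg, hf, hV, hRd]; linear_combination r0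
  obtain ⟨a, b, hab⟩ : IsCoprime g (f * V) := by
    have h1 : IsCoprime g (u 0) := ⟨4 * k * (f * V), 4 * k * (u 0 * (10 - u 0 ^ 2)), by
      linear_combination 4 * k * hR + hk⟩
    have h2 : IsCoprime g (-4 : A) := ⟨0, -25 * k, by linear_combination hk⟩
    have h3 := (h2.mul_right (h1.pow_right (n := 3))).add_mul_left_right
      (g ^ 2 - 4 * g * u 0 + 6 * u 0 ^ 2)
    convert h3 using 1
    rw [hf, hV, hg]; ring
  set U1 := 1 + 2 * u 1 ^ 3 with hU1
  set U2 := 1 + 2 * u 2 ^ 3 with hU2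
  set S := k * u 0 * g * V with hS
  set ε := S * U1 * U2 with hε
  set e := 1 - ε with he
  have e1 : ε * u 1 = w 1 ^ 4 * (S * U2) := by rw [hε, hU1, r1]; ring
  have e2 : ε * u 2 = w 2 ^ 4 * (S * U1) := by rw [hε, hU2, r2]; ring
  have e3 : ε * f = R ^ 2 * (k * u 0 * U1 * U2) := by rw [← hR, hε, hS]; ring
  obtain ⟨α1, α2, α3, α4, hα⟩ : ∃ α1 α2 α3 α4, e = α1 * u 1 + α2 * u 2 + α3 * f + α4 * R :=
    ⟨-2 * S * u 1 ^ 2, -2 * S * U1 * u 2 ^ 2, -k * u 0 * (6 * u 0 ^ 2 + 4 * u 0 * f + f ^ 2),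
      -4 * k * (u 0 ^ 2 + 5), by
        rw [he, hε, hU1, hU2, hS, hg, hV, hf, hRd]; linear_combination -hk⟩
  obtain ⟨p, q, r, hd⟩ : ∃ p q r, e * ε = R * p + w 1 * q + w 2 * r :=
    ⟨α3 * R * (k * u 0 * U1 * U2) + α4 * ε, α1 * w 1 ^ 3 * (S * U2), α2 * w 2 ^ 3 * (S * U1), by
      linear_combination ε * hα + α1 * e1 + α2 * e2 + α3 * e3⟩
  have m1 : u 1 ∈ I0 u w := Ideal.mem_sup_left (Ideal.subset_span (by simp))
  have m2 : w 1 ∈ I0 u w := Ideal.mem_sup_left (Ideal.subset_span (by simp))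
  have m3 : u 2 ∈ I0 u w := Ideal.mem_sup_left (Ideal.subset_span (by simp))
  have m4 : w 2 ∈ I0 u w := Ideal.mem_sup_left (Ideal.subset_span (by simp))
  have m5 : f ∈ I0 u w := Ideal.mem_sup_right (Ideal.subset_span rfl)
  have m6 : R ^ 2 ∈ I0 u w := by
    rw [← hR]; exact Ideal.mul_mem_left _ _ (Ideal.mul_mem_right _ _ m5)
  have hII : I0 u w = Ideal.span {R ^ 2, w 1, w 2, e ^ 2 * (6 - 8 * e + 3 * e ^ 2)} := by
    set I := Ideal.span {R ^ 2, w 1, w 2, e ^ 2 * (6 - 8 * e + 3 * e ^ 2)}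
    have n1 : R ^ 2 ∈ I := Ideal.subset_span (by simp)
    have n2 : w 1 ∈ I := Ideal.subset_span (by simp)
    have n3 : w 2 ∈ I := Ideal.subset_span (by simp)
    have n4 : e ^ 2 * (6 - 8 * e + 3 * e ^ 2) ∈ I := Ideal.subset_span (by simp)
    have n5 : ∀ x, ε * x ∈ I → x ∈ I := fun x hx => by
      have : x = x * (e ^ 2 * (6 - 8 * e + 3 * e ^ 2)) + ε ^ 2 * (1 + 3 * e) * (ε * x) := by
        rw [he]; ring
      rw [this]
      exact I.add_mem (I.mul_mem_left _ n4) (I.mul_mem_left _ hx)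
    refine le_antisymm (sup_le (Ideal.span_le.2 ?_) (Ideal.span_le.2 ?_)) (Ideal.span_le.2 ?_)
    · rintro x (rfl | rfl | rfl | rfl)
      · exact n5 _ (e1 ▸ I.mul_mem_right _ (I.pow_mem_of_mem n2 4 (by norm_num)))
      · exact n2
      · exact n5 _ (e2 ▸ I.mul_mem_right _ (I.pow_mem_of_mem n3 4 (by norm_num)))
      · exact n3
    · rintro x rfl
      exact n5 _ (e3 ▸ I.mul_mem_right _ n1)
    · rintro x (rfl | rfl | rfl | rfl)
      · exact m6
      · exact m2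
      · exact m4
      · refine Ideal.mul_mem_right _ _ ?_
        have : e ^ 2 = (e + α4 * R) * (α1 * u 1 + α2 * u 2 + α3 * f) + α4 ^ 2 * R ^ 2 := by
          linear_combination (e + α4 * R) * hα
        rw [this]
        exact Ideal.add_mem _ (Ideal.mul_mem_left _ _ (Ideal.add_mem _ (Ideal.add_mem _
          (Ideal.mul_mem_left _ _ m1) (Ideal.mul_mem_left _ _ m3)) (Ideal.mul_mem_left _ _ m5)))
          (Ideal.mul_mem_left _ _ m6)
  obtain ⟨E, i1, i2, h1, h2, h3, s, h4, h5⟩ := Bundle.main (g := g) (G := f * V) (R := R) (a := a)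
    (b := b) (e := e) (ε := ε) (h0 := k * u 0 * V * U1 * U2)
    !![R ^ 2, 2 * R * r - w 1, -2 * q * R - w 2; w 1, r ^ 2, p - q * r; w 2, -p - q * r, q ^ 2]
    hR hab (by rw [he]; ring) (by rw [hε, hS]; ring)
    (by rw [hd, Matrix.det_fin_three]; simp; ring) (I0 u w) (by rw [hII]; simp) hI
  refine ⟨E, i1, i2, h1, h2, h3, s, h4, fun e0 q hq => ?_⟩
  obtain ⟨c, f', β, d1, d2, d3, d4, d5, d6⟩ := h5 e0 q hq
  obtain ⟨σ, hσ⟩ : ∃ σ : Fin 7 → Fin 3 ⊕ Fin 4, Function.Surjective σ :=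
    ⟨fun i => (finSumFinEquiv (m := 3) (n := 4)).symm i,
      (finSumFinEquiv (m := 3) (n := 4)).symm.surjective⟩
  refine ⟨c ∘ σ, f', fun i j => β (σ i) (σ j), ?_, fun _ _ => d2 _ _, fun _ _ _ _ => d3 _ _ _ _,
    fun _ _ _ => d4 _ _ _, fun _ _ _ _ => d5 _ _ _ _, Ideal.span_mono ?_ d6⟩
  · rw [hσ.range_comp, d1]
  · rintro _ ⟨i, j, k, l, rfl⟩
    obtain ⟨i, rfl⟩ := hσ i
    obtain ⟨j, rfl⟩ := hσ j
    obtain ⟨k, rfl⟩ := hσ k
    obtain ⟨l, rfl⟩ := hσ l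
    exact ⟨i, j, k, l, rfl⟩

end Pool.Agent.P.MP_8b60db_ag
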