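import Mathlib

/-! Shared definitions and interface statements for the counterexample to MP_8b60db_ag. -/

namespace Pool.Agent.P.MP_8b60db_ag

open Polynomial Module

/-- The norm form of `a + b t + c t^2 + d t^3` when `t^4 = 2`. -/
def Nm {R : Type} [CommRing R] (a b c d : R) : R :=
  (a ^ 2 + 2 * c ^ 2 - 4 * b * d) ^ 2 - 2 * (2 * a * c - b ^ 2 - 2 * d ^ 2) ^ 2

/-- `v` is additive on nonzero elements, and values of the norm form have `v` divisible by 4. -/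
structure Good (R : Type) [CommRing R] (v : R → ℤ) : Prop where
  mul : ∀ a b, a ≠ 0 → b ≠ 0 → v (a * b) = v a + v b
  two : v 2 = 0
  five : Odd (v 5)
  nm : ∀ a b c d : R, ¬ (a = 0 ∧ b = 0 ∧ c = 0 ∧ d = 0) →
    Nm a b c d ≠ 0 ∧ 4 ∣ v (Nm a b c d)

/-- The three curve equations. -/
structure Rel {A : Type} [CommRing A] (u w : Fin 3 → A) : Prop where
  r0 : w 0 ^ 4 = 2 * u 0 ^ 4 - 10 * u 0 ^ 2 + 25
  r1 : w 1 ^ 4 = 2 * u 1 ^ 4 + u 1
  r2 : w 2 ^ 4 = 2 * u 2 ^ 4 + u 2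

/-- The ideal of the curve `C1 × p × p`. -/
def P0 {A : Type} [CommRing A] (u w : Fin 3 → A) : Ideal A :=
  Ideal.span {u 1, w 1, u 2, w 2}

/-- The ideal of the divisor of `w 0 - u 0` on that curve. -/
def I0 {A : Type} [CommRing A] (u w : Fin 3 → A) : Ideal A :=
  P0 u w ⊔ Ideal.span {w 0 - u 0}

/-- `A` is the `K`-algebra presented by `u, w` and the relations `Rel`. -/
structure IsA (K : Type) {A : Type} [Field K] [CommRing A] [Algebra K A] (u w : Fin 3 → A) :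
    Prop where
  rel : Rel u w
  gen : Algebra.adjoin K (Set.range u ∪ Set.range w) = ⊤
  lift : ∀ (S : Type) [CommRing S] (ψ : K →+* S) (u' w' : Fin 3 → S), Rel u' w' →
    ∃ φ : A →+* S, (∀ k, φ (algebraMap K A k) = ψ k) ∧ (∀ i, φ (u i) = u' i) ∧
      ∀ i, φ (w i) = w' i

/-- Derivatives of the right hand sides of `Rel`. -/
def hp {A : Type} [CommRing A] (u : Fin 3 → A) : Fin 3 → A :=
  ![8 * u 0 ^ 3 - 20 * u 0, 8 * u 1 ^ 3 + 1, 8 * u 2 ^ 3 + 1]

/-- The three Hamiltonian derivations. -/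
structure Ham {K A : Type} [Field K] [CommRing A] [Algebra K A] (u w : Fin 3 → A)
    (D : Fin 3 → Derivation K A A) : Prop where
  du : ∀ i j, D i (u j) = if i = j then 4 * w j ^ 3 else 0
  dw : ∀ i j, D i (w j) = if i = j then hp u j else 0

/-- `1, r, r^2 - 5, r (r^2 - 5)` are linearly independent modulo `I`. -/
def Ind (K : Type) {A : Type} [Field K] [CommRing A] [Algebra K A] (r : A) (I : Ideal A) : Prop :=
  ∀ k0 k1 k2 k3 : K, algebraMap K A k0 + algebraMap K A k1 * r + algebraMap K A k2 * (r ^ 2 - 5)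
    + algebraMap K A k3 * (r * (r ^ 2 - 5)) ∈ I → k0 = 0 ∧ k1 = 0 ∧ k2 = 0 ∧ k3 = 0

/-- What a splitting of the bundle produces. -/
structure Data {A : Type} [CommRing A] (u w : Fin 3 → A) {ι : Type} (a : ι → A) (f : A)
    (β : ι → ι → A) : Prop where
  span : Ideal.span (Set.range a) ⊔ Ideal.span {f} = I0 u w
  anti : ∀ i j, β i j = - β j i
  plu : ∀ i j k l, β i j * β k l - β i k * β j l + β j k * β i l = 0
  syz : ∀ i j k, β i j * a k - β i k * a j + β j k * a i = 0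
  dvd : ∀ i j k l, (w 0 + u 0) ∣ β i j * β k l
  top : w 0 + u 0 ∈ Ideal.span {x | ∃ i j k l, x = β i j * β k l}

/-- The generic zero curve and its structure. -/
structure Curve (K : Type) {B : Type} [Field K] [CommRing B] [Algebra K B] (u w : Fin 3 → B)
    (f : B) {σ : Type} (d : σ → Derivation K B B) (β c : σ → B) : Prop where
  rel : Rel u w
  gen : Algebra.adjoin K (Set.range u ∪ Set.range w) = ⊤
  sq : ∀ α, β α ^ 2 = (w 0 + u 0) * c α
  prop : ∀ α α' b, β α' * d α b = β α * d α' b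
  loc : ∀ m : Ideal B, m.IsMaximal → ∃ α, c α ∉ m ∧ ∃ p ∈ m, d α p ∉ m
  fib : Ideal.span {f} = I0 u w
  ind : Ind K (u 0) (I0 u w)

/-- Gram determinant of the form `(x, y) ↦ l (x y)` in the family `e`. -/
def gram {R C ι : Type} [CommRing R] [CommRing C] [Algebra R C] [Fintype ι] [DecidableEq ι]
    (l : C →ₗ[R] R) (e : ι → C) : R :=
  (Matrix.of fun i j => l (e i * e j)).det

/-! ### Interface statements -/

def GoodTcStmt : Prop :=
  ∀ (R : Type) [CommRing R] [IsDomain R] (v : R → ℤ), Good R v →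
    Good R[X] (fun p => v p.trailingCoeff)

def FieldStmt : Prop :=
  ∀ (σ : Type) [Fintype σ] [DecidableEq σ], ∃ (K : Type) (_ : Field K) (_ : CharZero K)
    (v : K → ℤ) (lam : σ → K) (δ : σ → K →+* DualNumber K), Good K v ∧
      (∀ α k, (δ α k).fst = k) ∧ ∀ α α', (δ α (lam α')).snd = if α = α' then 1 else 0

def NormStmt : Prop :=
  ∀ (R S : Type) [CommRing R] [CommRing S] [Algebra R S] [Module.Free R S] [Module.Finite R S],
    IsUnit (2 : S) → ∀ (t : R) (θ : S), algebraMap R S t ∣ θ ^ 4 - 2 → ∀ γ : S,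
      ∃ a b c d : R, t ∣ Algebra.norm R γ - Nm a b c d

def GramStmt : Prop :=
  ∀ (K : Type) [Field K] [CharZero K] (v : K → ℤ), Good K v →
    ∀ (C : Type) [CommRing C] [Algebra K C] (θ : C), θ ^ 4 = 2 →
      ∀ (l : C →ₗ[K] K) (ι : Type) [Fintype ι] [DecidableEq ι] (e : Basis ι K C),
        gram l e ≠ 0 → Even (v (gram l e))

def FiberStmt : Prop :=
  ∀ (K : Type) [Field K] [CharZero K] (v : K → ℤ), Good K v →
    ∀ (C1 C2 : Type) [CommRing C1] [CommRing C2] [Algebra K C1] [Algebra K C2]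
      (r : C1) (b : Basis (Fin 4) K C1), b 0 = 1 → b 1 = r → b 2 = r ^ 2 - 5 →
      b 3 = r * (r ^ 2 - 5) → (r ^ 2 - 5) ^ 2 = 0 → ∀ θ : C2, θ ^ 4 = 2 →
      ∀ (ι : Type) [Fintype ι] [DecidableEq ι] (e : Basis ι K (C1 × C2))
        (l : (C1 × C2) →ₗ[K] K) (ε : C1 × C2) (q p : C1), IsUnit q →
        ε.1 * q ^ 2 = 2 * r * p ^ 2 → ∀ c : K, c ≠ 0 → gram l e ≠ 0 →
        Algebra.norm K ε = c * gram l e ^ 2 → v c % 4 = 2

def InfStmt : Prop :=
  ∀ (K : Type) [Field K] [CharZero K] (v : K → ℤ), Good K v →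
    ∀ (Kt L : Type) [Field Kt] [Field L] [Algebra K[X] Kt] [IsFractionRing K[X] Kt]
      [Algebra Kt L] [FiniteDimensional Kt L] [Algebra K[X] L] [IsScalarTower K[X] Kt L],
      (∀ O : ValuationSubring L, (∀ k : K, algebraMap K[X] L (C k) ∈ O) →
        algebraMap K[X] L X ∉ O → ∃ y : L, O.valuation (y ^ 4 - 2) < 1) →
      ∀ (η : L) (p q : K[X]), p ≠ 0 → q ≠ 0 →
        Algebra.norm Kt η * algebraMap K[X] Kt q = algebraMap K[X] Kt p →
        4 ∣ v p.leadingCoeff - v q.leadingCoeff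

def DiffStmt : Prop :=
  ∀ (K : Type) [Field K] [CharZero K] (B : Type) [CommRing B] [IsDedekindDomain B] [Algebra K B]
    [Algebra K[X] B] [IsScalarTower K K[X] B] [Module.Finite K[X] B]
    [Module.IsTorsionFree K[X] B] (σ : Type) (d : σ → Derivation K B B) (c : σ → B),
    (∀ α α' b, c α' * d α b ^ 2 = c α * d α' b ^ 2) →
    (∀ m : Ideal B, m.IsMaximal → ∃ α, c α ∉ m ∧ ∃ p ∈ m, d α p ∉ m) →
    ∃ γ : B, Ideal.span {γ} = differentIdeal K[X] B ^ 2 ∧
      ∀ α, γ * c α = d α (algebraMap K[X] B X) ^ 2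

def FinStmt : Prop :=
  ∀ (K : Type) [Field K] [CharZero K] (B : Type) [CommRing B] [IsDedekindDomain B]
    [Algebra K[X] B] [Module.Finite K[X] B] [Module.IsTorsionFree K[X] B]
    (ι : Type) [Fintype ι] [DecidableEq ι] (e : Basis ι K[X] B) (γ : B),
    Ideal.span {γ} = differentIdeal K[X] B ^ 2 →
    ∃ c : K, c ≠ 0 ∧ Algebra.norm K[X] γ = C c * Algebra.discr K[X] e ^ 2 ∧
      ∃ (ε : B) (l : B →ₗ[K[X]] K[X]), ¬ X ∣ gram l e ∧
        Algebra.norm K[X] ε = C c * gram l e ^ 2 ∧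
        ∀ J c' : B, γ * c' = J ^ 2 → ∃ p : B, ε * c' = p ^ 2

def NoethStmt : Prop :=
  ∀ (K : Type) [Field K] [CharZero K] (B : Type) [CommRing B] [IsDedekindDomain B] [Algebra K B]
    [Algebra.FiniteType K B] (f : B), f ≠ 0 → ¬ IsUnit f →
    ∃ y : B, Function.Injective (aeval (R := K) (f * (y ^ 4 - 2)) : K[X] →ₐ[K] B) ∧
      (aeval (R := K) (f * (y ^ 4 - 2)) : K[X] →ₐ[K] B).Finite

def RingStmt : Prop :=
  ∀ (K : Type) [Field K] [CharZero K], ∃ (A : Type) (_ : CommRing A) (_ : IsDomain A)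
    (_ : Algebra K A) (u w : Fin 3 → A), IsA K u w ∧ Algebra.Smooth K A ∧ ringKrullDim A = 3 ∧
      (P0 u w).IsPrime ∧ ringKrullDim (A ⧸ P0 u w) = 1 ∧ w 0 - u 0 ∉ P0 u w

def BundleStmt : Prop :=
  ∀ (A : Type) [CommRing A] [IsDomain A] [Algebra ℚ A] (u w : Fin 3 → A), Rel u w →
    I0 u w ≠ ⊤ → ∃ (E : Type) (_ : AddCommGroup E) (_ : Module A E), Module.Finite A E ∧
      Module.Projective A E ∧ Module.finrank A E = 3 ∧ ∃ s : E,
        (∀ x : A, x ∈ I0 u w ↔ ∃ φ : Module.Dual A E, φ s = x) ∧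
        ∀ (e0 : E) (q : Module.Dual A E), q e0 = 1 →
          ∃ (a : Fin 7 → A) (f : A) (β : Fin 7 → Fin 7 → A), Data u w a f β

def CotStmt : Prop :=
  ∀ (K A : Type) [Field K] [CharZero K] [CommRing A] [Algebra K A] (u w : Fin 3 → A),
    Rel u w → Algebra.adjoin K (Set.range u ∪ Set.range w) = ⊤ →
    ∀ D : Fin 3 → Derivation K A A, Ham u w D → ∀ m : Ideal A, m.IsMaximal →
      (∀ a ∈ m, (∀ i, D i a ∈ m) → a ∈ m ^ 2) ∧
      ∀ i, ∃ p ∈ m, D i p ∉ m ∧ ∀ j, j ≠ i → D j p ∈ m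

def GeomStmt : Prop :=
  ∀ (K A : Type) [Field K] [CharZero K] [CommRing A] [IsDomain A] [Algebra K A],
    (∀ k : K, k ^ 2 ≠ 5) → ∀ u w : Fin 3 → A, Rel u w →
    Algebra.adjoin K (Set.range u ∪ Set.range w) = ⊤ →
    ∀ D : Fin 3 → Derivation K A A, Ham u w D → Ind K (u 0) (I0 u w) →
    ∀ (ι : Type) [Fintype ι] [DecidableEq ι] (a : ι → A) (f : A) (β : ι → ι → A),
      Data u w a f β → ∀ (lam : ι × ι → A) (pd : ι × ι → Derivation ℤ A A),
      (∀ α i, pd α (u i) = 0) → (∀ α i, pd α (w i) = 0) → (∀ α i, pd α (a i) = 0) →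
      (∀ α, pd α f = 0) → (∀ α i j, pd α (β i j) = 0) →
      (∀ α α', pd α (lam α') = if α = α' then 1 else 0) →
      ∃ (B : Type) (_ : CommRing B) (_ : IsDedekindDomain B) (_ : Algebra K B)
        (u' w' : Fin 3 → B) (f' : B) (d : ι × ι → Derivation K B B) (β' c' : ι × ι → B),
        Curve K u' w' f' d β' c'

def ArithStmt : Prop :=
  ∀ (K : Type) [Field K] [CharZero K] (v : K → ℤ), Good K v →
    ∀ (B : Type) [CommRing B] [IsDedekindDomain B] [Algebra K B] (u w : Fin 3 → B) (f : B)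
      (σ : Type) (d : σ → Derivation K B B) (β c : σ → B), ¬ Curve K u w f d β c

end Pool.Agent.P.MP_8b60db_ag
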