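import Pool.Agent.P.MP_8b60db_ag.Defs

/-! The tame different of a finite cover of the affine line, computed by derivations. -/

namespace Pool.Agent.P.MP_8b60db_ag

open Polynomial Module

attribute [local instance] FractionRing.liftAlgebra FractionRing.isScalarTower_liftAlgebra

namespace DiffAux

theorem deriv_mem_pow {K B : Type} [CommRing K] [CommRing B] [Algebra K B]
    (d : Derivation K B B) (m : Ideal B) (n : ℕ) : ∀ x ∈ m ^ (n + 1), d x ∈ m ^ n := by
  induction n with
  | zero => intro x _; simp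
  | succ n ih =>
    intro x hx
    rw [pow_succ] at hx
    refine Submodule.mul_induction_on hx ?_ ?_
    · intro a ha b hb
      rw [Derivation.leibniz, smul_eq_mul, smul_eq_mul]
      refine Ideal.add_mem _ (Ideal.mul_mem_right _ _ ha) ?_
      rw [pow_succ']
      exact Ideal.mul_mem_mul hb (ih a ha)
    · intro a b ha hb
      rw [map_add]
      exact Ideal.add_mem _ ha hb

theorem pow_notMem {B : Type} [CommRing B] [IsDedekindDomain B] (m : Ideal B) [hm : m.IsPrime]
    (hm0 : m ≠ ⊥) {p : B} (hp : p ∈ m) (hp2 : p ∉ m ^ 2) (n : ℕ) : p ^ n ∉ m ^ (n + 1) := by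
  have hpr : Prime m := Ideal.prime_of_isPrime hm0 hm
  have h1 : emultiplicity m (Ideal.span {p}) = (1 : ℕ) := by
    apply emultiplicity_eq_of_dvd_of_not_dvd
    · rw [pow_one, Ideal.dvd_span_singleton]; exact hp
    · rw [Ideal.dvd_span_singleton]; exact hp2
  have h2 : emultiplicity m (Ideal.span {p ^ n}) = (n : ℕ) := by
    rw [← Ideal.span_singleton_pow, emultiplicity_pow hpr, h1]; simp
  have := (emultiplicity_eq_coe.mp h2).2
  rwa [Ideal.dvd_span_singleton] at this

theorem deriv_exact {K B : Type} [CommRing K] [CommRing B] [IsDedekindDomain B] [Algebra K B]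
    (d : Derivation K B B) (m : Ideal B) [hm : m.IsPrime] {p y : B} (hp : p ∈ m)
    (hdp : d p ∉ m) (k : ℕ) (hk : ((k + 1 : ℕ) : B) ∉ m) (hy : y ∈ m ^ (k + 1))
    (hy' : y ∉ m ^ (k + 2)) : d y ∈ m ^ k ∧ d y ∉ m ^ (k + 1) := by
  refine ⟨deriv_mem_pow d m k y hy, fun h => ?_⟩
  have hm0 : m ≠ ⊥ := by
    rintro rfl
    rw [Ideal.mem_bot] at hp
    apply hdp
    simp [hp]
  have hp2 : p ∉ m ^ 2 := fun h2 => hdp (by simpa using deriv_mem_pow d m 1 p h2)
  have hI : Ideal.span {p ^ (k + 1)} ⊔ m ^ (k + 2) = m ^ (k + 1) := by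
    apply Ideal.eq_prime_pow_of_succ_lt_of_le hm0
    · refine lt_of_le_of_ne le_sup_right fun he => pow_notMem m hm0 hp hp2 (k + 1) ?_
      rw [he]
      exact Ideal.mem_sup_left (Ideal.mem_span_singleton_self _)
    · refine sup_le ?_ (Ideal.pow_le_pow_right (by omega))
      rw [Ideal.span_singleton_le_iff_mem]
      exact Ideal.pow_mem_pow hp _
  rw [← hI] at hy
  obtain ⟨z, hz, y', hy1, rfl⟩ := Submodule.mem_sup.mp hy
  obtain ⟨a, rfl⟩ := Ideal.mem_span_singleton'.mp hz
  have ha : a ∉ m := by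
    intro ha
    apply hy'
    refine Ideal.add_mem _ ?_ hy1
    rw [pow_succ' m (k + 1)]
    exact Ideal.mul_mem_mul ha (Ideal.pow_mem_pow hp _)
  have h3 : (a * ((k + 1 : ℕ) : B) * d p) * p ^ k ∈ m ^ (k + 1) := by
    have e1 : (a * ((k + 1 : ℕ) : B) * d p) * p ^ k =
        d (a * p ^ (k + 1) + y') - d y' - p ^ (k + 1) * d a := by
      rw [map_add, Derivation.leibniz, Derivation.leibniz_pow]
      simp only [smul_eq_mul, nsmul_eq_mul, Nat.add_sub_cancel]
      ring
    rw [e1]
    exact Ideal.sub_mem _ (Ideal.sub_mem _ h (deriv_mem_pow d m (k + 1) y' hy1))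
      (Ideal.mul_mem_right _ _ (Ideal.pow_mem_pow hp _))
  rcases Ideal.IsPrime.mul_mem_pow m h3 with h4 | h4
  · rcases hm.mem_or_mem h4 with h5 | h5
    · rcases hm.mem_or_mem h5 with h6 | h6
      · exact ha h6
      · exact hk h6
    · exact hdp h5
  · exact pow_notMem m hm0 hp hp2 k h4

theorem not_dvd_diff (A : Type) {B : Type} [CommRing A] [CommRing B] [Algebra A B]
    [IsDedekindDomain A] [IsDedekindDomain B] [IsTorsionFree A B] [Module.Finite A B]
    [Algebra.IsSeparable (FractionRing A) (FractionRing B)]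
    {p : Ideal A} [p.IsMaximal] [CharZero (A ⧸ p)] (P Q : Ideal B) (hP1 : P ≠ ⊤)
    (hPQ : IsCoprime P Q) (hP : P * Q = Ideal.map (algebraMap A B) p) :
    ¬ P ∣ differentIdeal A B := by
  let : Algebra (A ⧸ p) (B ⧸ Q) := Ideal.Quotient.algebraQuotientOfLEComap (by
      rw [← Ideal.map_le_iff_le_comap, ← hP]
      exact Ideal.mul_le_right)
  let : Algebra (A ⧸ p) (B ⧸ P) := Ideal.Quotient.algebraQuotientOfLEComap (by
      rw [← Ideal.map_le_iff_le_comap, ← hP]
      exact Ideal.mul_le_left)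
  have : IsScalarTower A (A ⧸ p) (B ⧸ Q) := .of_algebraMap_eq' rfl
  have : IsScalarTower A (A ⧸ p) (B ⧸ P) := .of_algebraMap_eq' rfl
  have : Module.Finite (A ⧸ p) (B ⧸ Q) :=
    Module.Finite.of_restrictScalars_finite A (A ⧸ p) (B ⧸ Q)
  have : Module.Finite (A ⧸ p) (B ⧸ P) :=
    Module.Finite.of_restrictScalars_finite A (A ⧸ p) (B ⧸ P)
  have : Nontrivial (B ⧸ P) := Ideal.Quotient.nontrivial_iff.mpr hP1
  let := Ideal.Quotient.field p
  let e : (B ⧸ p.map (algebraMap A B)) ≃ₐ[A ⧸ p] ((B ⧸ P) × B ⧸ Q) :=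
    { __ := (Ideal.quotEquivOfEq hP.symm).trans (Ideal.quotientMulEquivQuotientProd P Q hPQ),
      commutes' := Quotient.ind fun _ ↦ rfl }
  have hx : Algebra.trace (A ⧸ p) (B ⧸ P) 1 ≠ 0 := by
    have h1 := Algebra.trace_algebraMap (R := A ⧸ p) (S := B ⧸ P) 1
    rw [map_one] at h1
    rw [h1, nsmul_eq_mul, mul_one]
    exact Nat.cast_ne_zero.mpr Module.finrank_pos.ne'
  obtain ⟨y, hy⟩ := Ideal.Quotient.mk_surjective (e.symm (1, 0))
  refine not_dvd_differentIdeal_of_intTrace_not_mem A P Q hP y ?_ ?_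
  · have := congr((e $hy).2)
    simp at this
    simpa [e, Ideal.Quotient.eq_zero_iff_mem] using this
  · rw [← Ideal.Quotient.eq_zero_iff_mem, ← Algebra.trace_quotient_eq_of_isDedekindDomain,
      hy, Algebra.trace_eq_of_algEquiv, Algebra.trace_prod_apply]
    simpa using hx

theorem isSep (K B : Type) [Field K] [CharZero K] [CommRing B] [IsDedekindDomain B]
    [Algebra K[X] B] [Module.Finite K[X] B] [Module.IsTorsionFree K[X] B] :
    Algebra.IsSeparable (FractionRing K[X]) (FractionRing B) := by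
  infer_instance

theorem local_mult (K : Type) [Field K] [CharZero K] (B : Type) [CommRing B] [IsDedekindDomain B]
    [Algebra K B] [Algebra K[X] B] [IsScalarTower K K[X] B] [Module.Finite K[X] B]
    [Module.IsTorsionFree K[X] B] (d : Derivation K B B) (m : Ideal B) [hm : m.IsMaximal]
    {p : B} (hp : p ∈ m) (hdp : d p ∉ m) :
    ∃ k : ℕ, emultiplicity m (Ideal.span {d (algebraMap K[X] B X)}) = k ∧
      emultiplicity m (differentIdeal K[X] B) = k := by
  have := isSep K B
  have hm0 : m ≠ ⊥ := by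
    rintro rfl
    rw [Ideal.mem_bot] at hp
    apply hdp
    simp [hp]
  set q : Ideal K[X] := m.under K[X] with hq
  have hq0 : q ≠ ⊥ := mt Ideal.eq_bot_of_comap_eq_bot hm0
  have hqm : q.IsMaximal := Ideal.isMaximal_comap_of_isIntegral_of_isMaximal m
  obtain ⟨π, hπ⟩ : ∃ π : K[X], q = Ideal.span {π} :=
    ⟨_, (Ideal.span_singleton_generator q).symm⟩
  have hπ0 : π ≠ 0 := by
    rintro rfl
    exact hq0 (by simpa using hπ)
  have hirr : Irreducible π := by
    have : (Ideal.span {π}).IsPrime := hπ ▸ hqm.isPrime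
    exact ((Ideal.span_singleton_prime hπ0).mp this).irreducible
  have hq' := (Ideal.map_eq_bot_iff_of_injective
    (FaithfulSMul.algebraMap_injective K[X] B)).not.mpr hq0
  obtain ⟨Q, h₁, h₂⟩ := Ideal.eq_prime_pow_mul_coprime hq' m
  generalize Multiset.count m _ = e at h₂
  have hmap : Ideal.map (algebraMap K[X] B) q = Ideal.span {algebraMap K[X] B π} := by
    rw [hπ, Ideal.map_span, Set.image_singleton]
  have hQ : ¬ m ∣ Q := by
    intro h
    rw [Ideal.dvd_iff_le] at h
    rw [sup_eq_left.mpr h] at h₁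
    exact hm.ne_top h₁
  have hym : algebraMap K[X] B π ∈ m := by
    have : π ∈ q := hπ ▸ Ideal.mem_span_singleton_self π
    exact this
  obtain ⟨k, rfl⟩ : ∃ k, e = k + 1 := by
    rcases e with _ | k
    · exfalso
      apply hQ
      rw [pow_zero, one_mul] at h₂
      rw [← h₂, hmap, Ideal.dvd_span_singleton]
      exact hym
    · exact ⟨k, rfl⟩
  have hy1 : algebraMap K[X] B π ∈ m ^ (k + 1) := by
    rw [← Ideal.dvd_span_singleton, ← hmap, h₂]
    exact dvd_mul_right _ _
  have hy2 : algebraMap K[X] B π ∉ m ^ (k + 2) := by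
    rw [← Ideal.dvd_span_singleton, ← hmap, h₂, pow_succ m (k + 1),
      mul_dvd_mul_iff_left (pow_ne_zero _ hm0)]
    exact hQ
  have hk : ((k + 1 : ℕ) : B) ∉ m := by
    intro h
    apply hm.ne_top
    refine Ideal.eq_top_of_isUnit_mem _ h ?_
    rw [← map_natCast (algebraMap K B)]
    exact (IsUnit.mk0 _ (Nat.cast_ne_zero.mpr (Nat.succ_ne_zero k))).map _
  obtain ⟨h3, h4⟩ := deriv_exact d m hp hdp k hk hy1 hy2
  have hae : ∀ f : K[X], aeval (algebraMap K[X] B X) f = algebraMap K[X] B f := by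
    intro f
    rw [aeval_algebraMap_apply, aeval_X_left_apply]
  have hd : d (algebraMap K[X] B π) =
      algebraMap K[X] B (derivative π) * d (algebraMap K[X] B X) := by
    rw [← hae π, Derivation.comp_aeval_eq, hae, smul_eq_mul]
  have hder : algebraMap K[X] B (derivative π) ∉ m := by
    intro h
    obtain ⟨a, b, hab⟩ := hirr.separable
    apply hm.ne_top
    rw [Ideal.eq_top_iff_one, ← map_one (algebraMap K[X] B), ← hab, map_add, map_mul, map_mul]
    exact Ideal.add_mem _ (Ideal.mul_mem_left _ _ hym) (Ideal.mul_mem_left _ _ h)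
  refine ⟨k, ?_, ?_⟩
  · apply emultiplicity_eq_of_dvd_of_not_dvd
    · rw [Ideal.dvd_span_singleton]
      rw [hd] at h3
      exact (Ideal.IsPrime.mul_mem_pow m h3).resolve_left hder
    · rw [Ideal.dvd_span_singleton]
      intro h
      apply h4
      rw [hd]
      exact Ideal.mul_mem_left _ _ h
  · apply emultiplicity_eq_of_dvd_of_not_dvd
    · have := pow_sub_one_dvd_differentIdeal K[X] m (k + 1) hq0 (h₂ ▸ dvd_mul_right _ _)
      simpa using this
    · have : Nontrivial (K[X] ⧸ q) := Ideal.Quotient.nontrivial_iff.mpr hqm.ne_top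
      have : CharZero (K[X] ⧸ q) :=
        charZero_of_injective_algebraMap (algebraMap K (K[X] ⧸ q)).injective
      refine not_dvd_diff K[X] (p := q) (m ^ (k + 1)) Q ?_ ?_ h₂.symm
      · intro h
        apply hm.ne_top
        rw [eq_top_iff, ← h]
        exact Ideal.pow_le_self (Nat.succ_ne_zero k)
      · exact (Ideal.isCoprime_iff_sup_eq.mpr h₁).pow_left

end DiffAux

open DiffAux in
theorem diffThm : DiffStmt := by
  intro K _ _ B _ _ _ _ _ _ _ σ d c hprop hloc
  have := isSep K B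
  have htop : Ideal.span (Set.range c) = ⊤ := by
    by_contra h
    obtain ⟨m, hm, hle⟩ := Ideal.exists_le_maximal _ h
    obtain ⟨α, hα, -⟩ := hloc m hm
    exact hα (hle (Ideal.subset_span ⟨α, rfl⟩))
  have h1 : (1 : B) ∈ Ideal.span (Set.range c) := htop ▸ Submodule.mem_top
  obtain ⟨b, hb⟩ := (Finsupp.mem_span_range_iff_exists_finsupp).mp h1
  set T := algebraMap K[X] B X with hT
  set γ : B := b.sum fun a x => x * d a T ^ 2 with hγ
  have hγc : ∀ α, γ * c α = d α T ^ 2 := by
    intro α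
    rw [hγ, Finsupp.sum_mul, ← one_mul (d α T ^ 2), ← hb, Finsupp.sum_mul]
    refine Finsupp.sum_congr fun a _ => ?_
    rw [smul_eq_mul, mul_assoc, mul_comm (d a T ^ 2), hprop a α T, mul_assoc]
  refine ⟨γ, ?_, hγc⟩
  have key : ∀ m : Ideal B, m.IsMaximal → ∃ k : ℕ,
      emultiplicity m (Ideal.span {γ}) = k ∧ emultiplicity m (differentIdeal K[X] B ^ 2) = k := by
    intro m hm
    obtain ⟨α, hα, p, hp, hdp⟩ := hloc m hm
    obtain ⟨k, h2, h3⟩ := local_mult K B (d α) m hp hdp
    have hm0 : m ≠ ⊥ := by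
      rintro rfl
      rw [Ideal.mem_bot] at hp
      apply hdp
      simp [hp]
    have hpr : Prime m := Ideal.prime_of_isPrime hm0 hm.isPrime
    refine ⟨2 * k, ?_, ?_⟩
    · have h4 : emultiplicity m (Ideal.span {c α}) = 0 := by
        rw [emultiplicity_eq_zero, Ideal.dvd_span_singleton]
        exact hα
      have h5 : emultiplicity m (Ideal.span {γ} * Ideal.span {c α}) = (2 * k : ℕ) := by
        rw [Ideal.span_singleton_mul_span_singleton, hγc, ← Ideal.span_singleton_pow,
          emultiplicity_pow hpr, h2]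
        simp
      rwa [emultiplicity_mul hpr, h4, add_zero] at h5
    · rw [emultiplicity_pow hpr, h3]
      simp
  have hD : differentIdeal K[X] B ^ 2 ≠ 0 := pow_ne_zero _ differentIdeal_ne_bot
  have hγ0 : Ideal.span {γ} ≠ 0 := by
    intro h
    obtain ⟨m, hm⟩ := Ideal.exists_maximal B
    obtain ⟨k, h2, -⟩ := key m hm
    rw [h, emultiplicity_zero] at h2
    exact ENat.top_ne_natCast k h2
  have key' : ∀ m : Ideal B, Prime m →
      emultiplicity m (Ideal.span {γ}) = emultiplicity m (differentIdeal K[X] B ^ 2) := by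
    intro m hm
    obtain ⟨k, h2, h3⟩ := key m ((Ideal.isPrime_of_prime hm).isMaximal hm.ne_zero)
    rw [h2, h3]
  apply associated_iff_eq.mp
  apply associated_of_dvd_dvd
  · exact (UniqueFactorizationMonoid.dvd_iff_emultiplicity_le hγ0).mpr fun m hm => (key' m hm).le
  · exact (UniqueFactorizationMonoid.dvd_iff_emultiplicity_le hD).mpr fun m hm => (key' m hm).ge

end Pool.Agent.P.MP_8b60db_ag
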