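import Pool.Agent.P.MP_8b60db_ag.Defs

/-! Norm and Gram computation on the fibre algebra. -/

namespace Pool.Agent.P.MP_8b60db_ag

open Module

namespace FiberAux

variable {K : Type} [Field K]

lemma v_sq {v : K → ℤ} (hv : Good K v) {a : K} (ha : a ≠ 0) : v (a ^ 2) = 2 * v a := by
  rw [sq, hv.mul a a ha ha]; ring

lemma norm_pair {C1 C2 : Type} [CommRing C1] [CommRing C2] [Algebra K C1] [Algebra K C2]
    [Module.Finite K C1] [Module.Finite K C2] (x : C1 × C2) :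
    Algebra.norm K x = Algebra.norm K x.1 * Algebra.norm K x.2 := by
  rw [Algebra.norm_apply, Algebra.norm_apply, Algebra.norm_apply, ← LinearMap.det_prodMap]
  congr 1

lemma gram_change {C ι : Type} [CommRing C] [Algebra K C] [Fintype ι] [DecidableEq ι]
    (l : C →ₗ[K] K) (e e' : Basis ι K C) : gram l e = e'.det e ^ 2 * gram l e' := by
  have h := LinearMap.BilinForm.toMatrix_mul_basis_toMatrix (b := e') e
    ((LinearMap.mul K C).compr₂ l)
  have h1 : ∀ f : Basis ι K C, gram l f =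
      (LinearMap.BilinForm.toMatrix f ((LinearMap.mul K C).compr₂ l)).det := fun f => by
    unfold gram
    congr 1
    ext i j
    simp
  rw [h1, h1, ← h, Matrix.det_mul, Matrix.det_mul, Matrix.det_transpose, Basis.det_apply]
  ring

lemma gram_reindex {C ι κ : Type} [CommRing C] [Algebra K C] [Fintype ι] [DecidableEq ι]
    [Fintype κ] [DecidableEq κ] (l : C →ₗ[K] K) (e : Basis ι K C) (σ : ι ≃ κ) :
    gram l (e.reindex σ) = gram l e := by
  unfold gram
  rw [← Matrix.det_submatrix_equiv_self σ]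
  congr 1
  ext i j
  simp

lemma gram_prod {C1 C2 ι κ : Type} [CommRing C1] [CommRing C2] [Algebra K C1] [Algebra K C2]
    [Fintype ι] [DecidableEq ι] [Fintype κ] [DecidableEq κ] (l : (C1 × C2) →ₗ[K] K)
    (b : Basis ι K C1) (e : Basis κ K C2) :
    gram l (b.prod e) =
      gram (l ∘ₗ LinearMap.inl K C1 C2) b * gram (l ∘ₗ LinearMap.inr K C1 C2) e := by
  unfold gram
  rw [← Matrix.det_fromBlocks_zero₂₁ _ 0]
  congr 1
  have z : l (0, 0) = 0 := map_zero l
  ext (i | i) (j | j) <;> simp [Basis.prod_apply, z]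

lemma det4 (a b c d e f : K) :
    (!![a, b, c, d; b, e, d, f; c, d, 0, 0; d, f, 0, 0] : Matrix (Fin 4) (Fin 4) K).det =
      (c * f - d ^ 2) ^ 2 := by
  simp [Matrix.det_succ_row_zero, Fin.sum_univ_succ, Fin.succAbove]
  ring

lemma det4' (a b c d e : K) :
    (!![a, 5 * b, 0, 0; b, a, 0, 0; c, e, a, 5 * b; d, c, b, a] : Matrix (Fin 4) (Fin 4) K).det =
      (a ^ 2 - 5 * b ^ 2) ^ 2 := by
  simp [Matrix.det_succ_row_zero, Fin.sum_univ_succ, Fin.succAbove]
  ring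

section C1

variable {C : Type} [CommRing C] [Algebra K C] {r : C} {b : Basis (Fin 4) K C} (h0 : b 0 = 1)
  (h1 : b 1 = r) (h2 : b 2 = r ^ 2 - 5) (h3 : b 3 = r * (r ^ 2 - 5)) (hR : (r ^ 2 - 5) ^ 2 = 0)

include h0 h1 h2 h3 hR

lemma gram_sq (l : C →ₗ[K] K) : ∃ s, gram l b = s ^ 2 := by
  refine ⟨_, Eq.trans ?_ (det4 (l (b 0)) (l (b 1)) (l (b 2)) (l (b 3)) (l (b 1 * b 1))
    (l (b 1 * b 3)))⟩
  have a0 : ∀ x, b 0 * x = x := fun x => by rw [h0, one_mul]
  have a0' : ∀ x, x * b 0 = x := fun x => by rw [h0, mul_one]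
  have a12 : b 1 * b 2 = b 3 := by rw [h1, h2, h3]
  have a21 : b 2 * b 1 = b 3 := by rw [mul_comm, a12]
  have a31 : b 3 * b 1 = b 1 * b 3 := mul_comm _ _
  have a22 : b 2 * b 2 = 0 := by rw [h2]; linear_combination hR
  have a23 : b 2 * b 3 = 0 := by rw [h2, h3]; linear_combination r * hR
  have a32 : b 3 * b 2 = 0 := by rw [mul_comm, a23]
  have a33 : b 3 * b 3 = 0 := by rw [h3]; linear_combination r ^ 2 * hR
  unfold gram
  congr 1
  ext i j
  fin_cases i <;> fin_cases j <;> simp [a0, a0', a12, a21, a31, a22, a23, a32, a33]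

lemma norm_eq (k : Fin 4 → K) :
    Algebra.norm K (∑ i, k i • b i) = (k 0 ^ 2 - 5 * k 1 ^ 2) ^ 2 := by
  rw [Algebra.norm_eq_matrix_det b, ← det4' (k 0) (k 1) (k 2) (k 3) (k 1 + 5 * k 3)]
  congr 1
  ext i j
  rw [Algebra.leftMulMatrix_eq_repr_mul]
  have key : (∑ i, k i • b i) * b j = ∑ i, (!![k 0, 5 * k 1, 0, 0; k 1, k 0, 0, 0;
      k 2, k 1 + 5 * k 3, k 0, 5 * k 1; k 3, k 2, k 1, k 0] : Matrix (Fin 4) (Fin 4) K) i j •
        b i := by
    fin_cases j <;>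
      simp [Fin.sum_univ_four, h0, h1, h2, h3, Algebra.smul_def, map_ofNat]
    · linear_combination (algebraMap K C (k 3)) * hR
    · linear_combination (algebraMap K C (k 2) + algebraMap K C (k 3) * r) * hR
    · linear_combination (algebraMap K C (k 1) + algebraMap K C (k 2) * r +
        algebraMap K C (k 3) * r ^ 2) * hR
  rw [key, Basis.repr_sum_self]

lemma norm_sq (x : C) : ∃ s, Algebra.norm K x = s ^ 2 := by
  refine ⟨_, Eq.trans ?_ (norm_eq h0 h1 h2 h3 hR (b.repr x))⟩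
  rw [b.sum_repr]

lemma norm_two_r : Algebra.norm K (2 * r) = (2 * 2 * 5) ^ 2 := by
  have := norm_eq h0 h1 h2 h3 hR ![0, 2, 0, 0]
  simp only [Fin.sum_univ_four, h1, Algebra.smul_def] at this
  simp only [Matrix.cons_val_zero, Matrix.cons_val_one, Matrix.cons_val, map_zero, zero_mul,
    zero_add, add_zero, map_ofNat] at this
  rw [this]
  norm_num

end C1

end FiberAux

open FiberAux in
theorem fiberThm (hN : NormStmt) (hG : GramStmt) : FiberStmt := by
  intro K _ _ v hv C1 C2 _ _ _ _ r b h0 h1 h2 h3 hR θ hθ ι _ _ e l ε q p hq hε c hc hg hn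
  have : Module.Finite K (C1 × C2) := Module.Finite.of_basis e
  have : Module.Finite K C1 := Module.Finite.of_basis b
  have : Module.Finite K C2 :=
    Module.Finite.of_surjective (LinearMap.snd K C1 C2) Prod.snd_surjective
  set e2 := Module.finBasis K C2
  have hgr := gram_change l e ((b.prod e2).reindex ((b.prod e2).indexEquiv e))
  rw [gram_reindex, gram_prod] at hgr
  obtain ⟨s, hs⟩ := gram_sq h0 h1 h2 h3 hR (l ∘ₗ LinearMap.inl K C1 C2)
  rw [hs] at hgr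
  generalize ((b.prod e2).reindex ((b.prod e2).indexEquiv e)).det e = χ at hgr
  have hg' := hg
  rw [hgr] at hg'
  have hχ : χ ≠ 0 := fun h => hg' (by simp [h])
  have hs0 : s ≠ 0 := fun h => hg' (by simp [h])
  have hg2 : gram (l ∘ₗ LinearMap.inr K C1 C2) e2 ≠ 0 := fun h => hg' (by simp [h])
  obtain ⟨m, hm⟩ := hG K v hv C2 θ hθ _ _ e2 hg2
  have v1 : v (gram l e) = 2 * v χ + (2 * v s + (m + m)) := by
    rw [hgr, hv.mul _ _ (pow_ne_zero 2 hχ) (mul_ne_zero (pow_ne_zero 2 hs0) hg2),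
      hv.mul _ _ (pow_ne_zero 2 hs0) hg2, v_sq hv hχ, v_sq hv hs0, hm]
  have hne : Algebra.norm K ε ≠ 0 := by rw [hn]; exact mul_ne_zero hc (pow_ne_zero 2 hg)
  have v2 : v (Algebra.norm K ε) = v c + 2 * v (gram l e) := by
    rw [hn, hv.mul _ _ hc (pow_ne_zero 2 hg), v_sq hv hg]
  rw [norm_pair] at hne v2
  have n1 : Algebra.norm K ε.1 ≠ 0 := left_ne_zero_of_mul hne
  have n2 : Algebra.norm K ε.2 ≠ 0 := right_ne_zero_of_mul hne
  rw [hv.mul _ _ n1 n2] at v2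
  have v3 : 4 ∣ v (Algebra.norm K ε.2) := by
    have u2 : IsUnit (2 : C2) := by
      have := (IsUnit.mk0 (2 : K) two_ne_zero).map (algebraMap K C2)
      rwa [map_ofNat] at this
    obtain ⟨a1, a2, a3, a4, ha⟩ := hN K C2 u2 0 θ (by rw [hθ, sub_self]; exact dvd_zero _) ε.2
    rw [zero_dvd_iff, sub_eq_zero] at ha
    rw [ha] at n2 ⊢
    refine (hv.nm a1 a2 a3 a4 ?_).2
    rintro ⟨rfl, rfl, rfl, rfl⟩
    exact n2 (by simp [Nm])
  obtain ⟨sq', hsq⟩ := norm_sq h0 h1 h2 h3 hR q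
  obtain ⟨sp, hsp⟩ := norm_sq h0 h1 h2 h3 hR p
  have hq0 : sq' ≠ 0 := fun h => (hq.map (Algebra.norm K)).ne_zero (by rw [hsq, h]; simp)
  have hh := congrArg (Algebra.norm K) hε
  rw [map_mul, map_mul _ (2 * r), map_pow, map_pow, hsq, hsp, norm_two_r h0 h1 h2 h3 hR] at hh
  have hp0 : sp ≠ 0 := fun h =>
    mul_ne_zero n1 (pow_ne_zero 2 (pow_ne_zero 2 hq0)) (by rw [hh, h]; simp)
  have t2 : (2 : K) ≠ 0 := two_ne_zero
  have t5 : (5 : K) ≠ 0 := by norm_num
  have t20 : (2 * 2 * 5 : K) ≠ 0 := by norm_num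
  have v4 := congrArg v hh
  rw [hv.mul _ _ n1 (pow_ne_zero 2 (pow_ne_zero 2 hq0)),
    hv.mul _ _ (pow_ne_zero 2 t20) (pow_ne_zero 2 (pow_ne_zero 2 hp0)),
    v_sq hv (pow_ne_zero 2 hq0), v_sq hv hq0, v_sq hv (pow_ne_zero 2 hp0), v_sq hv hp0,
    v_sq hv t20, hv.mul _ _ (mul_ne_zero t2 t2) t5, hv.mul _ _ t2 t2, hv.two] at v4
  obtain ⟨j, hj⟩ := hv.five
  omega

end Pool.Agent.P.MP_8b60db_ag
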