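import Pool.Agent.P.MP_8b60db_ag.Defs

/-! The norm of a generator of the square of the different. -/

namespace Pool.Agent.P.MP_8b60db_ag

open Polynomial Module
open scoped nonZeroDivisors

namespace FinPl

attribute [local instance] FractionRing.liftAlgebra FractionRing.isScalarTower_liftAlgebra

variable {A B : Type} [CommRing A] [IsDomain A] [IsPrincipalIdealRing A] [CharZero A]
  [CommRing B] [IsDedekindDomain B] [Algebra A B] [Module.Finite A B] [Module.IsTorsionFree A B]

theorem sep : Algebra.IsSeparable (FractionRing A) (FractionRing B) := by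
  have : FiniteDimensional (FractionRing A) (FractionRing B) := .of_isLocalization A B A⁰
  infer_instance

theorem diff_ne : differentIdeal A B ≠ ⊥ := by
  have := sep (A := A) (B := B)
  exact differentIdeal_ne_bot

/-- the inverse different, without fractions -/
theorem dual_iff (z : B) {N : A} (hN : N ≠ 0) :
    (∀ b, N ∣ Algebra.trace A B (z * b)) ↔
      ∀ d ∈ differentIdeal A B, algebraMap A B N ∣ z * d := by
  let K := FractionRing A
  let L := FractionRing B
  have := sep (A := A) (B := B)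
  have : FiniteDimensional K L := .of_isLocalization A B A⁰
  have hNK : algebraMap A K N ≠ 0 := by simpa using hN
  have hNB : algebraMap A B N ≠ 0 := by simpa using hN
  have hNL : algebraMap B L (algebraMap A B N) ≠ 0 := by simpa using hN
  let x : L := (algebraMap A K N)⁻¹ • algebraMap B L z
  have hx : x = algebraMap B L z / algebraMap B L (algebraMap A B N) := by
    simp only [x, Algebra.smul_def, map_inv₀, ← IsScalarTower.algebraMap_apply]
    rw [div_eq_inv_mul]
  have hD : FractionalIdeal.dual A K (1 : FractionalIdeal B⁰ L) =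
      ((differentIdeal A B : FractionalIdeal B⁰ L))⁻¹ := by
    rw [coeIdeal_differentIdeal A K L B, inv_inv]
  have h1 : x ∈ FractionalIdeal.dual A K (1 : FractionalIdeal B⁰ L) ↔
      ∀ b, N ∣ Algebra.trace A B (z * b) := by
    rw [FractionalIdeal.mem_dual (@one_ne_zero (FractionalIdeal B⁰ L) _ _ _)]
    have key : ∀ b : B, Algebra.traceForm K L x (algebraMap B L b) ∈ (algebraMap A K).range ↔
        N ∣ Algebra.trace A B (z * b) := by
      intro b
      rw [Algebra.traceForm_apply, smul_mul_assoc, map_smul, ← map_mul,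
        Algebra.trace_localization A A⁰, smul_eq_mul]
      constructor
      · rintro ⟨r, hr⟩
        refine ⟨r, IsFractionRing.injective A K ?_⟩
        rw [map_mul (algebraMap A K) N r, hr, mul_inv_cancel_left₀ hNK]
      · rintro ⟨r, hr⟩
        exact ⟨r, by rw [hr, map_mul, inv_mul_cancel_left₀ hNK]⟩
    constructor
    · intro h b
      exact (key b).1 (h _ ((FractionalIdeal.mem_one_iff _).2 ⟨b, rfl⟩))
    · intro h a ha
      obtain ⟨b, rfl⟩ := (FractionalIdeal.mem_one_iff _).1 ha
      exact (key b).2 (h b)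
  rw [← h1, hD, FractionalIdeal.mem_inv_iff (by simpa using diff_ne)]
  have key : ∀ d : B, x * algebraMap B L d ∈ (1 : FractionalIdeal B⁰ L) ↔
      algebraMap A B N ∣ z * d := by
    intro d
    rw [FractionalIdeal.mem_one_iff, hx]
    constructor
    · rintro ⟨s, hs⟩
      refine ⟨s, IsFractionRing.injective B L ?_⟩
      rw [map_mul, map_mul, hs, div_mul_eq_mul_div, mul_div_cancel₀ _ hNL]
    · rintro ⟨s, hs⟩
      refine ⟨s, ?_⟩
      rw [div_mul_eq_mul_div, ← map_mul, hs, map_mul, mul_div_cancel_left₀ _ hNL]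
  constructor
  · intro h d hd
    exact (key d).1 (h _ ((FractionalIdeal.mem_coeIdeal _).2 ⟨d, hd, rfl⟩))
  · intro h y hy
    obtain ⟨d, hd, rfl⟩ := (FractionalIdeal.mem_coeIdeal _).1 hy
    exact (key d).2 (h d hd)

variable {ι : Type} [Fintype ι] [DecidableEq ι]

omit [IsDomain A] [IsPrincipalIdealRing A] [CharZero A] [IsDedekindDomain B] [Module.Finite A B]
  [Module.IsTorsionFree A B] in
theorem det_trace (e : Basis ι A B) (z : B) :
    (Matrix.of fun i j => Algebra.trace A B (z * (e i * e j))).det =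
      Algebra.norm A z * Algebra.discr A e := by
  rw [Algebra.norm_eq_matrix_det e, Algebra.discr_def, ← Matrix.det_transpose (Algebra.leftMulMatrix e z),
    ← Matrix.det_mul]
  congr 1
  ext i j
  rw [Matrix.of_apply, Matrix.mul_apply, ← mul_assoc]
  conv_lhs => rw [← e.sum_repr (z * e i)]
  simp only [Finset.sum_mul, map_sum, smul_mul_assoc, map_smul, smul_eq_mul,
    Matrix.transpose_apply, Algebra.leftMulMatrix_eq_repr_mul, Algebra.traceMatrix_apply,
    Algebra.traceForm_apply]

omit [IsDomain A] [IsPrincipalIdealRing A] [CharZero A] [IsDedekindDomain B] [Module.Finite A B]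
  [Module.IsTorsionFree A B] in
theorem norm_mod (e : Basis ι A B) (π : A) (t : B) :
    π ∣ Algebra.norm A (1 - algebraMap A B π * t) - 1 := by
  rw [← Ideal.mem_span_singleton, ← Ideal.Quotient.eq, Algebra.norm_eq_matrix_det e,
    RingHom.map_det, map_sub, map_one, ← Algebra.smul_def, map_smul, map_one]
  have : (Ideal.Quotient.mk (Ideal.span {π})).mapMatrix (π • Algebra.leftMulMatrix e t) = 0 := by
    ext i j
    simp
  rw [map_sub, map_one, this, sub_zero, Matrix.det_one]

omit [IsDomain A] [IsPrincipalIdealRing A] [CharZero A] [IsDedekindDomain B] [Module.Finite A B]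
  [Module.IsTorsionFree A B] [Fintype ι] [DecidableEq ι] in
theorem dvd_repr (e : Basis ι A B) {π : A} {b : B} (h : algebraMap A B π ∣ b) (i : ι) :
    π ∣ e.repr b i := by
  obtain ⟨s, rfl⟩ := h
  rw [← Algebra.smul_def, map_smul]
  exact ⟨e.repr s i, rfl⟩

omit [IsDomain A] [IsPrincipalIdealRing A] [CharZero A] [IsDedekindDomain B] [Module.Finite A B]
  [Module.IsTorsionFree A B] in
theorem not_dvd_gram (e : Basis ι A B) {π : A} (hπ : Prime π) (l : B →ₗ[A] A)
    (h : ∀ b, (∀ x, π ∣ l (x * b)) → algebraMap A B π ∣ b) : ¬ π ∣ gram l e := by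
  intro hd
  have : (Ideal.span {π}).IsPrime := (Ideal.span_singleton_prime hπ.ne_zero).2 hπ
  let q := Ideal.Quotient.mk (Ideal.span {π})
  have hq : ∀ a, q a = 0 ↔ π ∣ a := fun a => by
    rw [Ideal.Quotient.eq_zero_iff_mem, Ideal.mem_span_singleton]
  rw [← hq, gram, RingHom.map_det, ← Matrix.exists_mulVec_eq_zero_iff] at hd
  obtain ⟨v, hv, hv'⟩ := hd
  choose w hw using fun i => Ideal.Quotient.mk_surjective (v i)
  have h1 : ∀ i, π ∣ l (e i * ∑ j, w j • e j) := by
    intro i
    have := congrFun hv' i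
    rw [← hq, Finset.mul_sum, map_sum, map_sum]
    simp only [Matrix.mulVec, dotProduct, RingHom.mapMatrix_apply, Matrix.map_apply,
      Matrix.of_apply, Pi.zero_apply] at this
    rw [← this]
    refine Finset.sum_congr rfl fun j _ => ?_
    rw [mul_smul_comm, map_smul, smul_eq_mul, map_mul, ← hw j, mul_comm]
  have h2 := h (∑ j, w j • e j) fun x => by
    rw [← e.sum_repr x, Finset.sum_mul, map_sum]
    refine Finset.dvd_sum fun i _ => ?_
    rw [smul_mul_assoc, map_smul, smul_eq_mul]
    exact (h1 i).mul_left _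
  refine hv (funext fun i => ?_)
  have := dvd_repr e h2 i
  rw [e.repr_sum_self] at this
  rw [← hw i]
  exact (hq _).2 this

theorem local_step (e : Basis ι A B) {γ : B} (hγ : Ideal.span {γ} = differentIdeal A B ^ 2)
    {π : A} (hπ : Prime π) :
    ∃ (ε : B) (l : B →ₗ[A] A), ¬ π ∣ gram l e ∧ ¬ π ∣ Algebra.norm A ε ∧
      Algebra.norm A ε * Algebra.discr A e ^ 2 = Algebra.norm A γ * gram l e ^ 2 ∧
      ∀ J c' : B, γ * c' = J ^ 2 → ∃ p : B, ε * c' = p ^ 2 := by
  set D := differentIdeal A B with hD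
  have hD0 : D ≠ 0 := diff_ne
  have hγ0 : γ ≠ 0 := by
    rintro rfl
    rw [Set.singleton_zero, Ideal.span_zero] at hγ
    exact pow_ne_zero 2 hD0 hγ.symm
  set P := algebraMap A B π with hP
  have hP0 : P ≠ 0 := by simpa [hP] using hπ.ne_zero
  obtain ⟨δ, hδ⟩ := IsDedekindDomain.exists_sup_span_eq (I := D * Ideal.span {P}) (J := D)
    Ideal.mul_le_left (mul_ne_zero hD0 (by simpa using hP0))
  obtain ⟨I, hI⟩ : D ∣ Ideal.span {δ} := Ideal.dvd_iff_le.2 (hδ ▸ le_sup_right)
  have htop : Ideal.span {P} ⊔ I = ⊤ := by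
    rw [hI, ← Ideal.mul_sup] at hδ
    exact mul_left_cancel₀ hD0 (by rw [hδ, Ideal.mul_top])
  obtain ⟨y, hy, a, ha, hya⟩ := Submodule.mem_sup.1 (htop ▸ Submodule.mem_top : (1 : B) ∈ _)
  obtain ⟨t, rfl⟩ := Ideal.mem_span_singleton.1 hy
  have hat : a = 1 - P * t := by linear_combination hya
  have hNa : ¬ π ∣ Algebra.norm A a := fun h => by
    have h1 := norm_mod e π t
    rw [← hP, ← hat] at h1
    exact hπ.not_dvd_one (by simpa using dvd_sub h h1)
  have ha0 : a ≠ 0 := by
    rintro rfl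
    exact hNa (by rw [Algebra.norm_zero]; exact dvd_zero _)
  have had : ∀ d ∈ D, δ ∣ a * d := fun d hd => by
    rw [← Ideal.mem_span_singleton, hI, mul_comm a d]
    exact Ideal.mul_mem_mul hd ha
  have hδ0 : δ ≠ 0 := by
    rintro rfl
    obtain ⟨d, hd, hd0⟩ := Submodule.exists_mem_ne_zero_of_ne_bot hD0
    exact mul_ne_zero ha0 hd0 (zero_dvd_iff.1 (had d hd))
  have hδD : δ ∈ D := hδ ▸ Ideal.mem_sup_right (Ideal.mem_span_singleton_self δ)
  obtain ⟨N, hN, δ', hδ'⟩ := (Algebra.IsAlgebraic.isAlgebraic (R := A) δ).exists_nonzero_dvd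
    (mem_nonZeroDivisors_of_ne_zero hδ0)
  have hNB : algebraMap A B N ≠ 0 := by simpa using hN
  have htr := (dual_iff (a * δ') hN).2 fun d hd => by
    obtain ⟨s, hs⟩ := had d hd
    exact ⟨s, by rw [hδ']; linear_combination δ' * hs⟩
  choose c hc using fun i => htr (e i)
  let l : B →ₗ[A] A := e.constr A c
  have hl : ∀ b, N * l b = Algebra.trace A B (a * δ' * b) := by
    have : N • l = Algebra.trace A B ∘ₗ LinearMap.mulLeft A (a * δ') :=
      e.ext fun i => by simp [l, ← hc i, mul_assoc]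
    intro b
    exact LinearMap.congr_fun this b
  obtain ⟨ε, hε⟩ : δ ^ 2 ∣ γ * a ^ 2 := by
    rw [← Ideal.mem_span_singleton, ← Ideal.span_singleton_pow, hI, mul_pow, ← hγ]
    exact Ideal.mul_mem_mul (Ideal.mem_span_singleton_self γ) (Ideal.pow_mem_pow ha 2)
  obtain ⟨w, hw⟩ : γ ∣ δ ^ 2 := by
    rw [← Ideal.mem_span_singleton, hγ]
    exact Ideal.pow_mem_pow hδD 2
  have hεw : ε * w = a ^ 2 := mul_left_cancel₀ hγ0 (by linear_combination -hε - ε * hw)
  have hG : Algebra.norm A δ * gram l e = Algebra.norm A a * Algebra.discr A e := by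
    have h1 := det_trace e (a * δ')
    have h2 : (Matrix.of fun i j => Algebra.trace A B (a * δ' * (e i * e j))) =
        N • Matrix.of fun i j => l (e i * e j) := by
      ext i j; simp [hl]
    rw [h2, Matrix.det_smul, map_mul] at h1
    have h3 := Algebra.norm_algebraMap_of_basis e N
    rw [hδ', map_mul] at h3
    refine mul_left_cancel₀ (pow_ne_zero (Fintype.card ι) hN) ?_
    unfold gram
    linear_combination Algebra.norm A δ * h1 + Algebra.norm A a * Algebra.discr A e * h3
  refine ⟨ε, l, not_dvd_gram e hπ l fun b hb => ?_, fun h => ?_, ?_, fun J c' hJ => ?_⟩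
  · have h1 := (dual_iff (a * δ' * b) (mul_ne_zero hN hπ.ne_zero)).1 (fun x => by
      rw [mul_assoc _ b x, ← hl, mul_comm b x]
      exact mul_dvd_mul_left N (hb x)) δ hδD
    obtain ⟨s, hs⟩ := h1
    rw [map_mul, ← hP] at hs
    have h2 : a * b = P * s := mul_left_cancel₀ hNB (by rw [hδ'] at hs ⊢; linear_combination hs)
    exact ⟨s + t * b, by rw [hat] at h2; linear_combination h2⟩
  · have h1 : π ∣ Algebra.norm A a ^ 2 := by
      rw [← map_pow, ← hεw, map_mul]
      exact h.mul_right _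
    exact hNa (hπ.dvd_of_dvd_pow h1)
  · have h1 := congrArg (Algebra.norm A) hε
    rw [map_mul, map_mul, map_pow, map_pow] at h1
    have h0 : Algebra.norm A a ≠ 0 := fun h => hNa (h ▸ dvd_zero π)
    refine mul_left_cancel₀ (pow_ne_zero 2 h0) ?_
    linear_combination (-(gram l e) ^ 2) * h1 -
      Algebra.norm A ε * (Algebra.norm A δ * gram l e + Algebra.norm A a * Algebra.discr A e) * hG
  · obtain ⟨p, hp⟩ : δ ∣ a * J := by
      rw [← IsIntegrallyClosed.pow_dvd_pow_iff two_ne_zero]
      exact ⟨ε * c', by linear_combination c' * hε - a ^ 2 * hJ⟩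
    refine ⟨p, mul_left_cancel₀ (pow_ne_zero 2 hδ0) ?_⟩
    linear_combination (a * J + δ * p) * hp + a ^ 2 * hJ - c' * hε

omit [CharZero A] in
theorem dvd_of_local {x y : A} (hx : x ≠ 0)
    (h : ∀ π : A, Prime π → ∃ s t, ¬ π ∣ s ∧ s * y = t * x) : x ∣ y := by
  refine (UniqueFactorizationMonoid.dvd_iff_emultiplicity_le hx).2 fun π hπ => ?_
  obtain ⟨s, t, hs, e⟩ := h π hπ
  have h1 := emultiplicity_mul hπ (a := s) (b := y)
  rw [emultiplicity_eq_zero.2 hs, zero_add, e] at h1
  rw [← h1]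
  exact emultiplicity_le_emultiplicity_of_dvd_right (dvd_mul_left _ _)

end FinPl

theorem finThm : FinStmt := by
  intro K _ _ B _ _ _ _ _ ι _ _ e γ hγ
  obtain ⟨ε, l, h1, h2, h3, h4⟩ := FinPl.local_step e hγ (prime_X (R := K))
  have hγ0 : γ ≠ 0 := by
    rintro rfl
    rw [Set.singleton_zero, Ideal.span_zero] at hγ
    exact pow_ne_zero 2 (FinPl.diff_ne (A := K[X]) (B := B)) hγ.symm
  have hx : Algebra.norm K[X] γ ≠ 0 := Algebra.norm_ne_zero_iff.2 hγ0
  have hy : Algebra.discr K[X] e ^ 2 ≠ 0 := fun h => by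
    rw [h, mul_zero] at h3
    have hG : gram l e ≠ 0 := fun h0 => h1 (h0 ▸ dvd_zero _)
    exact mul_ne_zero hx (pow_ne_zero 2 hG) h3.symm
  have hass : Associated (Algebra.discr K[X] e ^ 2) (Algebra.norm K[X] γ) := by
    refine associated_of_dvd_dvd (FinPl.dvd_of_local hy fun π hπ => ?_)
      (FinPl.dvd_of_local hx fun π hπ => ?_)
    · obtain ⟨ε, l, h1, -, h3, -⟩ := FinPl.local_step e hγ hπ
      exact ⟨gram l e ^ 2, Algebra.norm K[X] ε, fun h => h1 (hπ.dvd_of_dvd_pow h),
        by rw [h3, mul_comm]⟩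
    · obtain ⟨ε, l, -, h2, h3, -⟩ := FinPl.local_step e hγ hπ
      exact ⟨Algebra.norm K[X] ε, gram l e ^ 2, h2, by rw [h3, mul_comm]⟩
  obtain ⟨u, hu⟩ := hass
  obtain ⟨c, hc, hcu⟩ := Polynomial.isUnit_iff.1 u.isUnit
  have hγc : Algebra.norm K[X] γ = C c * Algebra.discr K[X] e ^ 2 := by rw [← hu, hcu, mul_comm]
  refine ⟨c, hc.ne_zero, hγc, ε, l, h1, mul_right_cancel₀ hy ?_, h4⟩
  rw [h3, hγc]
  ring

end Pool.Agent.P.MP_8b60db_ag
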