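import Pool.Agent.P.MP_8b60db_ag.GeomAux

/-! The generic zero curve of the rank two part. -/

namespace Pool.Agent.P.MP_8b60db_ag
namespace Geom

/-- A three by three determinant. -/
def dt {R : Type} [CommRing R] (a b c : Fin 3 → R) : R :=
  (b 1 * c 2 - b 2 * c 1) * a 0 + (b 2 * c 0 - b 0 * c 2) * a 1 + (b 0 * c 1 - b 1 * c 0) * a 2

variable {K A : Type} [Field K] [CommRing A] [Algebra K A]

/-- The Jacobian derivation `a ↦ J(a, s, t)`. -/
noncomputable def Jd (D : Fin 3 → Derivation K A A) (s t : A) : Derivation K A A :=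
  (D 1 s * D 2 t - D 2 s * D 1 t) • D 0 + (D 2 s * D 0 t - D 0 s * D 2 t) • D 1 +
    (D 0 s * D 1 t - D 1 s * D 0 t) • D 2

theorem Jd_apply (D : Fin 3 → Derivation K A A) (s t a : A) :
    Jd D s t a = dt (fun l => D l a) (fun l => D l s) (fun l => D l t) := by
  simp [Jd, dt]

/-- The situation after the generic perturbation. -/
structure Sit (u w : Fin 3 → A) (D : Fin 3 → Derivation K A A) {ι : Type} (S : ι → A) (f : A)
    (β : ι → ι → A) (c : ι → ι → ι → A) (pd : ι × ι → Derivation ℤ A A) : Prop where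
  h5 : ∀ k : K, k ^ 2 ≠ 5
  rel : Rel u w
  gen : Algebra.adjoin K (Set.range u ∪ Set.range w) = ⊤
  ham : Ham u w D
  cot : ∀ m : Ideal A, m.IsMaximal → (∀ a ∈ m, (∀ i, D i a ∈ m) → a ∈ m ^ 2) ∧
      ∀ i, ∃ p ∈ m, D i p ∉ m ∧ ∀ j, j ≠ i → D j p ∈ m
  span : Ideal.span (Set.range S) ⊔ Ideal.span {f} = I0 u w
  anti : ∀ i j, β i j = - β j i
  diag : ∀ i, β i i = 0
  plu : ∀ i j k l, β i j * β k l - β i k * β j l + β j k * β i l = 0
  syz : ∀ i j k, β i j * S k - β i k * S j + β j k * S i = 0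
  sq : ∀ i j, β i j ^ 2 = (w 0 + u 0) * c i j i
  unit : ∀ m : Ideal A, m.IsMaximal → ∃ i j, c i j i ∉ m
  comb : ∀ i j k, c i j i * S k = c i j k * S i + c j i k * S j
  p1 : ∀ i j, pd (i, j) (S i) = f * c i j i
  p2 : ∀ i j, pd (i, j) (S j) = 0
  p3 : ∀ i j, pd (j, i) (S j) = f * c i j i
  pu : ∀ α i, pd α (u i) = 0
  pw : ∀ α i, pd α (w i) = 0

/-- The ideal of the point `z`. -/
def Z0 (u w : Fin 3 → A) : Ideal A := I0 u w ⊔ Ideal.span {u 0 ^ 2 - 5}

section basic

variable (u w : Fin 3 → A)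

theorem u1_mem : u 1 ∈ I0 u w := Ideal.mem_sup_left (Ideal.subset_span (by simp))
theorem w1_mem : w 1 ∈ I0 u w := Ideal.mem_sup_left (Ideal.subset_span (by simp))
theorem u2_mem : u 2 ∈ I0 u w := Ideal.mem_sup_left (Ideal.subset_span (by simp))
theorem w2_mem : w 2 ∈ I0 u w := Ideal.mem_sup_left (Ideal.subset_span (by simp))
theorem f1_mem : w 0 - u 0 ∈ I0 u w := Ideal.mem_sup_right (Ideal.subset_span (by simp))
theorem R_mem : u 0 ^ 2 - 5 ∈ Z0 u w := Ideal.mem_sup_right (Ideal.subset_span (by simp))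

variable {u w}

theorem R_sq_mem (h : Rel u w) : (u 0 ^ 2 - 5) ^ 2 ∈ I0 u w := by
  have : (u 0 ^ 2 - 5) ^ 2 = ((w 0 + u 0) * (w 0 ^ 2 + u 0 ^ 2)) * (w 0 - u 0) := by
    linear_combination (-1 : A) * h.r0
  rw [this]
  exact Ideal.mul_mem_left _ _ (f1_mem u w)

theorem Z0_le {m : Ideal A} [hm : m.IsPrime] (h : Rel u w) (hI : I0 u w ≤ m) : Z0 u w ≤ m := by
  refine sup_le hI ?_
  rw [Ideal.span_le, Set.singleton_subset_iff]
  exact hm.mem_of_pow_mem 2 (hI (R_sq_mem h))

theorem lin_mod_Z0 (hgen : Algebra.adjoin K (Set.range u ∪ Set.range w) = ⊤) (x : A) :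
    ∃ k0 k1 : K, x - (algebraMap K A k0 + algebraMap K A k1 * u 0) ∈ Z0 u w := by
  have hx : x ∈ Algebra.adjoin K (Set.range u ∪ Set.range w) := by rw [hgen]; trivial
  have hI : I0 u w ≤ Z0 u w := le_sup_left
  induction hx using Algebra.adjoin_induction with
  | mem x hx =>
    rcases hx with ⟨i, rfl⟩ | ⟨i, rfl⟩ <;> fin_cases i
    · exact ⟨0, 1, by simp⟩
    · exact ⟨0, 0, by simpa using hI (u1_mem u w)⟩
    · exact ⟨0, 0, by simpa using hI (u2_mem u w)⟩
    · exact ⟨0, 1, by simpa using hI (f1_mem u w)⟩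
    · exact ⟨0, 0, by simpa using hI (w1_mem u w)⟩
    · exact ⟨0, 0, by simpa using hI (w2_mem u w)⟩
  | algebraMap k => exact ⟨k, 0, by simp⟩
  | add x y _ _ hx hy =>
    obtain ⟨a, b, h⟩ := hx
    obtain ⟨a', b', h'⟩ := hy
    refine ⟨a + a', b + b', ?_⟩
    convert Ideal.add_mem _ h h' using 1
    simp only [map_add]
    ring
  | mul x y _ _ hx hy =>
    obtain ⟨a, b, h⟩ := hx
    obtain ⟨a', b', h'⟩ := hy
    refine ⟨a * a' + 5 * b * b', a * b' + a' * b, ?_⟩
    convert Ideal.add_mem _ (Ideal.add_mem _ (Ideal.mul_mem_left _ y h)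
      (Ideal.mul_mem_left _ (algebraMap K A a + algebraMap K A b * u 0) h'))
      (Ideal.mul_mem_left _ (algebraMap K A b * algebraMap K A b') (R_mem u w)) using 1
    simp only [map_add, map_mul, map_ofNat]
    ring

theorem const_notMem {m : Ideal A} (hm : m ≠ ⊤) {k : K} (hk : k ≠ 0) : algebraMap K A k ∉ m :=
  fun h => hm (Ideal.eq_top_of_isUnit_mem _ h ((IsUnit.mk0 k hk).map _))

theorem le_Z0 (h5 : ∀ k : K, k ^ 2 ≠ 5)
    (hgen : Algebra.adjoin K (Set.range u ∪ Set.range w) = ⊤) {m : Ideal A} (hm : m ≠ ⊤)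
    (hZ : Z0 u w ≤ m) : m ≤ Z0 u w := by
  intro x hx
  obtain ⟨a, b, h⟩ := lin_mod_Z0 hgen x
  have h1 : algebraMap K A a + algebraMap K A b * u 0 ∈ m := by
    simpa using m.sub_mem hx (hZ h)
  have h2 : algebraMap K A (a ^ 2 - 5 * b ^ 2) ∈ m := by
    convert m.add_mem (m.mul_mem_left (algebraMap K A a - algebraMap K A b * u 0) h1)
      (m.mul_mem_left (algebraMap K A b ^ 2) (hZ (R_mem u w))) using 1
    simp only [map_sub, map_mul, map_pow, map_ofNat]
    ring
  have h3 : a ^ 2 - 5 * b ^ 2 = 0 := by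
    by_contra h3
    exact const_notMem hm h3 h2
  have hb : b = 0 := by
    by_contra hb
    apply h5 (a / b)
    field_simp
    linear_combination h3
  have ha : a = 0 := by simpa [hb] using h3
  simpa [ha, hb] using h

theorem unit_mod_I0 (h : Rel u w) {s s' a : A} (hs : s' * s - 1 ∈ Z0 u w) (ha : s * a ∈ I0 u w) :
    a ∈ I0 u w := by
  obtain ⟨i, hi, y, hy, e⟩ := Submodule.mem_sup.mp hs
  obtain ⟨r, rfl⟩ := Ideal.mem_span_singleton'.mp hy
  have : a = (1 - r * (u 0 ^ 2 - 5)) * s' * (s * a) - ((1 - r * (u 0 ^ 2 - 5)) * a) * i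
      + (r ^ 2 * a) * (u 0 ^ 2 - 5) ^ 2 := by
    linear_combination ((1 - r * (u 0 ^ 2 - 5)) * a) * e
  rw [this]
  exact Ideal.add_mem _ (Ideal.sub_mem _ (Ideal.mul_mem_left _ _ ha) (Ideal.mul_mem_left _ _ hi))
    (Ideal.mul_mem_left _ _ (R_sq_mem h))

end basic

variable {u w : Fin 3 → A} {D : Fin 3 → Derivation K A A} {ι : Type} {S : ι → A} {f : A}
  {β : ι → ι → A} {c : ι → ι → ι → A} {pd : ι × ι → Derivation ℤ A A}

theorem pd_Z0 (H : Sit u w D S f β c pd) (α : ι × ι) : ∀ x ∈ Z0 u w, pd α x ∈ Z0 u w := by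
  have e : Z0 u w = Ideal.span {u 1, w 1, u 2, w 2, w 0 - u 0, u 0 ^ 2 - 5} := by
    simp only [Z0, I0, P0, Ideal.span_insert, sup_assoc]
  rw [e]
  refine der_span _ le_rfl ?_
  intro x hx
  have h5 : pd α 5 = 0 := by
    have := (pd α).map_natCast 5
    simpa using this
  simp only [Set.mem_insert_iff, Set.mem_singleton_iff] at hx
  rcases hx with rfl | rfl | rfl | rfl | rfl | rfl <;> simp [H.pu, H.pw, h5]

/-- The two local equations have independent differentials. -/
theorem indep (H : Sit u w D S f β c pd) {m : Ideal A} [hm : m.IsMaximal]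
    (hS : ∀ k, S k ∈ m) {i j : ι} (hc : c i j i ∉ m) :
    ¬ (D 1 (S i) * D 2 (S j) - D 2 (S i) * D 1 (S j) ∈ m ∧
      D 2 (S i) * D 0 (S j) - D 0 (S i) * D 2 (S j) ∈ m ∧
      D 0 (S i) * D 1 (S j) - D 1 (S i) * D 0 (S j) ∈ m) := by
  rintro ⟨h0, h1, h2⟩
  have hmp := hm.isPrime
  have hone : (1 : A) ∉ m := fun h => hm.ne_top ((Ideal.eq_top_iff_one _).mpr h)
  have hall : ∀ k l, D k (S i) * D l (S j) - D l (S i) * D k (S j) ∈ m := by
    intro k l
    fin_cases k <;> fin_cases l
    · simp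
    · exact h2
    · simpa using m.neg_mem h1
    · simpa using m.neg_mem h2
    · simp
    · exact h0
    · exact h1
    · simpa using m.neg_mem h0
    · simp
  obtain ⟨a, b, hab, hl⟩ : ∃ a b, (a ∉ m ∨ b ∉ m) ∧ ∀ l, a * D l (S i) + b * D l (S j) ∈ m := by
    by_cases h : ∀ l, D l (S i) ∈ m
    · exact ⟨1, 0, Or.inl hone, fun l => by simpa using h l⟩
    · push Not at h
      obtain ⟨k, hk⟩ := h
      refine ⟨- D k (S j), D k (S i), Or.inr hk, fun l => ?_⟩
      convert hall k l using 1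
      ring
  have hx : a * S i + b * S j ∈ m ^ 2 := by
    refine (H.cot m hm).1 _ (m.add_mem (m.mul_mem_left _ (hS i)) (m.mul_mem_left _ (hS j))) ?_
    intro l
    rw [map_add, der_mul, der_mul]
    convert m.add_mem (hl l) (m.add_mem (m.mul_mem_right (D l a) (hS i))
      (m.mul_mem_right (D l b) (hS j))) using 1
    ring
  have e1 : pd (i, j) (a * S i + b * S j) =
      a * c i j i * f + (pd (i, j) a * S i + pd (i, j) b * S j) := by
    rw [map_add, der_mul, der_mul, H.p1, H.p2]; ring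
  have e2 : pd (j, i) (a * S i + b * S j) =
      b * c i j i * f + (pd (j, i) a * S i + pd (j, i) b * S j) := by
    rw [map_add, der_mul, der_mul, H.p3, H.p2]; ring
  have hSS : ∀ x y, x * S i + y * S j ∈ m := fun x y =>
    m.add_mem (m.mul_mem_left _ (hS i)) (m.mul_mem_left _ (hS j))
  by_cases hf : f ∈ m
  · have hI : I0 u w ≤ m := by
      rw [← H.span]
      refine sup_le ?_ ?_
      · rw [Ideal.span_le]
        rintro _ ⟨k, rfl⟩
        exact hS k
      · rwa [Ideal.span_le, Set.singleton_subset_iff]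
    have hZ : Z0 u w ≤ m := Z0_le H.rel hI
    have hZ' : m ≤ Z0 u w := le_Z0 H.h5 H.gen hm.ne_top hZ
    have hpd : ∀ α, ∀ x ∈ m ^ 2, pd α x ∈ m ^ 2 := fun α =>
      der_sq' _ m fun x hx => hZ (pd_Z0 H α x (hZ' hx))
    set N : Ideal A := Ideal.span {S i, S j} ⊔ m ^ 2 with hN
    have hSN : ∀ x y, x * S i + y * S j ∈ N := fun x y =>
      Ideal.mem_sup_left (Ideal.mem_span_pair.mpr ⟨x, y, rfl⟩)
    obtain ⟨τ, hτ, hτf⟩ : ∃ τ ∉ m, τ * f ∈ N := by
      rcases hab with ha | hb
      · refine ⟨a * c i j i, fun h => (hmp.mem_or_mem h).elim ha hc, ?_⟩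
        have := Ideal.sub_mem N (Ideal.mem_sup_right (hpd (i, j) _ hx))
          (hSN (pd (i, j) a) (pd (i, j) b))
        rwa [e1, add_sub_cancel_right] at this
      · refine ⟨b * c i j i, fun h => (hmp.mem_or_mem h).elim hb hc, ?_⟩
        have := Ideal.sub_mem N (Ideal.mem_sup_right (hpd (j, i) _ hx))
          (hSN (pd (j, i) a) (pd (j, i) b))
        rwa [e2, add_sub_cancel_right] at this
    have hIN : ∀ x ∈ I0 u w, c i j i * τ * x ∈ N := by
      intro x hx
      rw [← H.span] at hx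
      obtain ⟨y, hy, z, hz, rfl⟩ := Submodule.mem_sup.mp hx
      obtain ⟨r, rfl⟩ := Ideal.mem_span_singleton'.mp hz
      have hy' : c i j i * y ∈ N := by
        clear hx
        induction hy using Submodule.span_induction with
        | mem y hy =>
          obtain ⟨k, rfl⟩ := hy
          rw [H.comb]
          exact hSN _ _
        | zero => simp
        | add x y _ _ hx hy => rw [mul_add]; exact N.add_mem hx hy
        | smul r x _ hx =>
          rw [smul_eq_mul, mul_left_comm]
          exact N.mul_mem_left _ hx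
      convert N.add_mem (N.mul_mem_left τ hy') (N.mul_mem_left (c i j i * r) hτf) using 1
      ring
    have hV : ∀ x ∈ I0 u w, ∃ p q, ∀ l,
        c i j i * τ * D l x - (p * D l (S i) + q * D l (S j)) ∈ m := by
      intro x hx
      obtain ⟨y, hy, n, hn, e⟩ := Submodule.mem_sup.mp (hIN x hx)
      obtain ⟨p, q, rfl⟩ := Ideal.mem_span_pair.mp hy
      refine ⟨p, q, fun l => ?_⟩
      have e' := congrArg (D l) e
      rw [map_add, map_add, der_mul, der_mul, der_mul] at e'
      convert m.sub_mem (m.add_mem (hSS (D l p) (D l q)) (der_sq (D l) m n hn))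
        (m.mul_mem_right (D l (c i j i * τ)) (hI hx)) using 1
      linear_combination -e'
    obtain ⟨p, q, hp⟩ := hV _ (w1_mem u w)
    obtain ⟨p', q', hp'⟩ := hV _ (w2_mem u w)
    have a1 := hp 1
    have a2 := hp 2
    have b1 := hp' 1
    have b2 := hp' 2
    rw [H.ham.dw] at a1 a2 b1 b2
    simp only [Fin.isValue, ↓reduceIte, Fin.reduceEq] at a1 a2 b1 b2
    have hu1 := hI (u1_mem u w)
    have hu2 := hI (u2_mem u w)
    have hfin : (c i j i * τ) ^ 2 ∈ m := by
      rw [← Ideal.Quotient.eq_zero_iff_mem] at a1 a2 b1 b2 hu1 hu2 h0 ⊢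
      simp only [Pool.Agent.P.MP_8b60db_ag.hp, Fin.isValue, Matrix.cons_val_one,
        Matrix.cons_val_zero, Matrix.cons_val, map_sub, map_mul, map_add, map_pow, map_ofNat,
        map_one, hu1, hu2, map_zero] at a1 a2 b1 b2 h0 ⊢
      set X := Ideal.Quotient.mk m (c i j i) * Ideal.Quotient.mk m τ
      linear_combination X * a1 + (Ideal.Quotient.mk m p * Ideal.Quotient.mk m (D 1 (S i)) +
        Ideal.Quotient.mk m q * Ideal.Quotient.mk m (D 1 (S j))) * b2
        - (Ideal.Quotient.mk m p' * Ideal.Quotient.mk m (D 1 (S i)) +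
        Ideal.Quotient.mk m q' * Ideal.Quotient.mk m (D 1 (S j))) * a2
        + (Ideal.Quotient.mk m p * Ideal.Quotient.mk m q' -
          Ideal.Quotient.mk m q * Ideal.Quotient.mk m p') * h0 + 0 * b1
    exact (hmp.mem_or_mem (hmp.mem_of_pow_mem 2 hfin)).elim hc hτ
  · have g1 : a * c i j i * f ∈ m := by
      have := m.sub_mem (der_sq (pd (i, j)) m _ hx) (hSS (pd (i, j) a) (pd (i, j) b))
      rwa [e1, add_sub_cancel_right] at this
    have g2 : b * c i j i * f ∈ m := by
      have := m.sub_mem (der_sq (pd (j, i)) m _ hx) (hSS (pd (j, i) a) (pd (j, i) b))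
      rwa [e2, add_sub_cancel_right] at this
    rcases hab with ha | hb
    · exact ha ((hmp.mem_or_mem ((hmp.mem_or_mem g1).resolve_right hf)).resolve_right hc)
    · exact hb ((hmp.mem_or_mem ((hmp.mem_or_mem g2).resolve_right hf)).resolve_right hc)

/-- Local structure at a maximal ideal containing the equations. -/
theorem local_gen [IsNoetherianRing A] (H : Sit u w D S f β c pd) {m : Ideal A}
    [hm : m.IsMaximal] (hS : ∀ k, S k ∈ m) {i j : ι} (hc : c i j i ∉ m) :
    ∃ p ∈ m, Jd D (S i) (S j) p ∉ m ∧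
      ∃ t ∉ m, ∀ a ∈ m, t * a ∈ Ideal.span {p} ⊔ Ideal.span (Set.range S) := by
  have hmp := hm.isPrime
  obtain ⟨p, hp, hJ⟩ : ∃ p ∈ m, Jd D (S i) (S j) p ∉ m := by
    have h := indep H hS hc
    by_contra hcon
    push Not at hcon
    apply h
    refine ⟨?_, ?_, ?_⟩
    · obtain ⟨p, hp, h0, h1⟩ := (H.cot m hm).2 0
      have := hcon p hp
      rw [Jd_apply, dt] at this
      have := m.sub_mem (m.sub_mem this (m.mul_mem_left
        (D 0 (S i) * D 1 (S j) - D 1 (S i) * D 0 (S j)) (h1 2 (by decide))))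
        (m.mul_mem_left (D 2 (S i) * D 0 (S j) - D 0 (S i) * D 2 (S j)) (h1 1 (by decide)))
      rw [add_sub_cancel_right, add_sub_cancel_right] at this
      exact (hmp.mem_or_mem this).resolve_right h0
    · obtain ⟨p, hp, h0, h1⟩ := (H.cot m hm).2 1
      have := hcon p hp
      rw [Jd_apply, dt] at this
      have := m.sub_mem (m.sub_mem this (m.mul_mem_left
        (D 0 (S i) * D 1 (S j) - D 1 (S i) * D 0 (S j)) (h1 2 (by decide))))
        (m.mul_mem_left (D 1 (S i) * D 2 (S j) - D 2 (S i) * D 1 (S j)) (h1 0 (by decide)))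
      rw [add_sub_cancel_right, add_sub_cancel_left] at this
      exact (hmp.mem_or_mem this).resolve_right h0
    · obtain ⟨p, hp, h0, h1⟩ := (H.cot m hm).2 2
      have := hcon p hp
      rw [Jd_apply, dt] at this
      have := m.sub_mem this (m.add_mem
        (m.mul_mem_left (D 1 (S i) * D 2 (S j) - D 2 (S i) * D 1 (S j)) (h1 0 (by decide)))
        (m.mul_mem_left (D 2 (S i) * D 0 (S j) - D 0 (S i) * D 2 (S j)) (h1 1 (by decide))))
      rw [add_sub_cancel_left] at this
      exact (hmp.mem_or_mem this).resolve_right h0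
  refine ⟨p, hp, hJ, ?_⟩
  set N : Ideal A := Ideal.span {p} ⊔ Ideal.span (Set.range S) with hN
  have hpN : p ∈ N := Ideal.mem_sup_left (Ideal.subset_span rfl)
  have hSN : ∀ k, S k ∈ N := fun k => Ideal.mem_sup_right (Ideal.subset_span ⟨k, rfl⟩)
  have hle : m ≤ N ⊔ m • m := by
    intro a ha
    set J0 := Jd D (S i) (S j) p
    set J1 := Jd D (S i) (S j) a
    set J2 := Jd D a (S j) p
    set J3 := Jd D (S i) a p
    have h1 : J0 * a - (J1 * p + J2 * S i + J3 * S j) ∈ m ^ 2 := by
      refine (H.cot m hm).1 _ (m.sub_mem (m.mul_mem_left _ ha) (m.add_mem (m.add_mem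
        (m.mul_mem_left _ hp) (m.mul_mem_left _ (hS i))) (m.mul_mem_left _ (hS j)))) ?_
      intro l
      have e : J0 * D l a - (J1 * D l p + J2 * D l (S i) + J3 * D l (S j)) = 0 := by
        simp only [J0, J1, J2, J3, Jd_apply, dt]
        fin_cases l <;> simp only [Fin.zero_eta, Fin.mk_one, Fin.reduceFinMk] <;> ring
      rw [map_sub, map_add, map_add, der_mul, der_mul, der_mul, der_mul]
      convert m.sub_mem (m.mul_mem_right (D l J0) ha) (m.add_mem (m.add_mem
        (m.mul_mem_right (D l J1) hp) (m.mul_mem_right (D l J2) (hS i)))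
        (m.mul_mem_right (D l J3) (hS j))) using 1
      linear_combination e
    obtain ⟨y, n, hn, e⟩ := hm.exists_inv hJ
    have e2 : a = y * (J1 * p + J2 * S i + J3 * S j) +
        (y * (J0 * a - (J1 * p + J2 * S i + J3 * S j)) + n * a) := by
      linear_combination (-a) * e
    rw [e2]
    refine Submodule.add_mem_sup (N.mul_mem_left _ (N.add_mem (N.add_mem (N.mul_mem_left _ hpN)
      (N.mul_mem_left _ (hSN i))) (N.mul_mem_left _ (hSN j)))) ?_
    rw [smul_eq_mul]
    exact Ideal.add_mem _ (Ideal.mul_mem_left _ _ (by rwa [← pow_two])) (Ideal.mul_mem_mul hn ha)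
  obtain ⟨r, hr, hr'⟩ := Submodule.exists_sub_one_mem_and_smul_le_of_fg_of_le_sup
    (IsNoetherian.noetherian m) le_rfl hle
  refine ⟨r, fun h => ?_, fun a ha => hr' (Submodule.smul_mem_pointwise_smul a r m ha)⟩
  have := m.sub_mem h hr
  rw [sub_sub_cancel] at this
  exact hm.ne_top ((Ideal.eq_top_iff_one _).mpr this)

theorem Jd_S (H : Sit u w D S f β c pd) (i0 j0 i j k : ι) :
    c i0 j0 i0 ^ 3 * Jd D (S i) (S j) (S k) ∈ Ideal.span (Set.range S) := by
  set I := Ideal.span (Set.range S)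
  have hS : ∀ k, Ideal.Quotient.mk I (S k) = 0 := fun k =>
    Ideal.Quotient.eq_zero_iff_mem.mpr (Ideal.subset_span ⟨k, rfl⟩)
  have h : ∀ k l, Ideal.Quotient.mk I (c i0 j0 i0) * Ideal.Quotient.mk I (D l (S k)) =
      Ideal.Quotient.mk I (c i0 j0 k) * Ideal.Quotient.mk I (D l (S i0)) +
      Ideal.Quotient.mk I (c j0 i0 k) * Ideal.Quotient.mk I (D l (S j0)) := by
    intro k l
    have e := congrArg (fun x => Ideal.Quotient.mk I (D l x)) (H.comb i0 j0 k)
    simpa only [map_add, der_mul, map_mul, hS, zero_mul, add_zero] using e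
  rw [← Ideal.Quotient.eq_zero_iff_mem, Jd_apply, dt]
  simp only [map_add, map_mul, map_sub, map_pow]
  set x := Ideal.Quotient.mk I (c i0 j0 i0)
  set y := fun k l => Ideal.Quotient.mk I (D l (S k)) with hy
  have h' : ∀ k l, x * y k l = Ideal.Quotient.mk I (c i0 j0 k) * y i0 l +
      Ideal.Quotient.mk I (c j0 i0 k) * y j0 l := h
  change x ^ 3 * ((y i 1 * y j 2 - y i 2 * y j 1) * y k 0 + (y i 2 * y j 0 - y i 0 * y j 2) * y k 1
    + (y i 0 * y j 1 - y i 1 * y j 0) * y k 2) = 0
  calc _ = ((x * y i 1) * (x * y j 2) - (x * y i 2) * (x * y j 1)) * (x * y k 0) +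
      ((x * y i 2) * (x * y j 0) - (x * y i 0) * (x * y j 2)) * (x * y k 1)
      + ((x * y i 0) * (x * y j 1) - (x * y i 1) * (x * y j 0)) * (x * y k 2) := by ring
    _ = 0 := by simp only [h']; ring

theorem Jd_syz (H : Sit u w D S f β c pd) (i j k l : ι) (b : A) :
    β i j * Jd D (S k) (S l) b - β i k * Jd D (S j) (S l) b + β j k * Jd D (S i) (S l) b ∈
      Ideal.span (Set.range S) := by
  set I := Ideal.span (Set.range S)
  have hS : ∀ k, Ideal.Quotient.mk I (S k) = 0 := fun k =>
    Ideal.Quotient.eq_zero_iff_mem.mpr (Ideal.subset_span ⟨k, rfl⟩)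
  have h : ∀ n, Ideal.Quotient.mk I (β i j) * Ideal.Quotient.mk I (D n (S k)) -
      Ideal.Quotient.mk I (β i k) * Ideal.Quotient.mk I (D n (S j)) +
      Ideal.Quotient.mk I (β j k) * Ideal.Quotient.mk I (D n (S i)) = 0 := by
    intro n
    have e := congrArg (fun x => Ideal.Quotient.mk I (D n x)) (H.syz i j k)
    simpa only [map_add, map_sub, der_mul, map_mul, hS, zero_mul, add_zero, map_zero] using e
  rw [← Ideal.Quotient.eq_zero_iff_mem, Jd_apply, Jd_apply, Jd_apply, dt, dt, dt]
  simp only [map_add, map_mul, map_sub]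
  set q := Ideal.Quotient.mk I
  linear_combination (q (D 1 (S l)) * q (D 2 b) - q (D 2 (S l)) * q (D 1 b)) * h 0
    + (q (D 2 (S l)) * q (D 0 b) - q (D 0 (S l)) * q (D 2 b)) * h 1
    + (q (D 0 (S l)) * q (D 1 b) - q (D 1 (S l)) * q (D 0 b)) * h 2

theorem prop_of {B : Type} [CommRing B] [IsDomain B] (β J : ι → ι → B)
    (antiJ : ∀ i j, J i j = - J j i) (diagJ : ∀ i, J i i = 0)
    (plu : ∀ i j k l, β i j * β k l - β i k * β j l + β j k * β i l = 0)
    (h : ∀ i j k l, β i j * J k l - β i k * J j l + β j k * J i l = 0) (i j k l : ι) :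
    β k l * J i j = β i j * J k l := by
  have key : ∀ i j k l, β i j * (β i j * J k l - β k l * J i j) = 0 := by
    intro i j k l
    have e1 := h i j l j
    have e2 := h i j l i
    rw [antiJ l j, diagJ] at e1
    rw [antiJ l i, antiJ j i, diagJ] at e2
    linear_combination β i j * h i j k l - β i k * e1 + β j k * e2 - J i j * plu i j k l
  rcases mul_eq_zero.mp (key i j k l) with h1 | h1
  · rcases mul_eq_zero.mp (key k l i j) with h2 | h2
    · rw [h1, h2, zero_mul, zero_mul]
    · linear_combination h2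
  · linear_combination -h1

theorem curve_of [CharZero K] (H : Sit u w D S f β c pd) (hind : Ind K (u 0) (I0 u w)) :
    ∃ (B : Type) (_ : CommRing B) (_ : IsDedekindDomain B) (_ : Algebra K B)
      (u' w' : Fin 3 → B) (f' : B) (d : ι × ι → Derivation K B B) (β' c' : ι × ι → B),
      Curve K u' w' f' d β' c' := by
  classical
  have hft : Algebra.FiniteType K A := by
    refine ⟨⟨((Set.finite_range u).union (Set.finite_range w)).toFinset, ?_⟩⟩
    rw [Set.Finite.coe_toFinset, H.gen]
  have : IsNoetherianRing A := Algebra.FiniteType.isNoetherianRing K A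
  have hI0 : I0 u w ≠ ⊤ := by
    intro h
    have := (hind 1 0 0 0 (by rw [h]; trivial)).1
    exact one_ne_zero this
  obtain ⟨z, hz, hIz⟩ := Ideal.exists_le_maximal _ hI0
  have hzp := hz.isPrime
  set I := Ideal.span (Set.range S) with hI
  have hII : I ≤ I0 u w := by rw [← H.span]; exact le_sup_left
  have hSI : ∀ k, S k ∈ I := fun k => Ideal.subset_span ⟨k, rfl⟩
  obtain ⟨i0, j0, hc0⟩ := H.unit z hz
  obtain ⟨p0, hp0, hJ0, t0, ht0, hT0⟩ := local_gen H (fun k => hIz (hII (hSI k))) hc0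
  have hdI : ∀ i j, ∀ x ∈ I, Jd D (S i) (S j) x ∈ sat I z := by
    intro i j
    refine der_span _ le_sat ?_
    rintro _ ⟨k, rfl⟩
    exact ⟨_, fun h => hc0 (hzp.mem_of_pow_mem 3 h), Jd_S H i0 j0 i j k⟩
  have hnat : ∀ n : ℕ, ((n + 1 : ℕ) : A) ∉ z := by
    intro n
    have := const_notMem (K := K) hz.ne_top (k := ((n + 1 : ℕ) : K))
      (Nat.cast_ne_zero.mpr n.succ_ne_zero)
    rwa [map_natCast] at this
  have hprime : (sat I z).IsPrime :=
    sat_prime hp0 ht0 hT0 (pow_notMem_sat _ (hII.trans hIz) (hdI i0 j0) hnat hJ0)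
  set P := sat I z with hP
  have hPI : P ≤ I0 u w := by
    rintro a ⟨s, hs, ha⟩
    obtain ⟨y, n, hn, e⟩ := hz.exists_inv hs
    refine unit_mod_I0 H.rel (s := s) (s' := y) ?_ (hII ha)
    have : y * s - 1 = -n := by linear_combination e
    rw [this]
    exact neg_mem (le_Z0 H.h5 H.gen hz.ne_top (Z0_le H.rel hIz) hn)
  set q := Ideal.Quotient.mkₐ K P with hq
  have hqs : Function.Surjective q := Ideal.Quotient.mkₐ_surjective K P
  have hq0 : ∀ x, q x = 0 ↔ x ∈ P := fun x => Ideal.Quotient.eq_zero_iff_mem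
  have hd : ∀ i j x, q x = 0 → q (Jd D (S i) (S j) x) = 0 := fun i j x hx =>
    (hq0 _).mpr (der_sat _ (hdI i j) x ((hq0 x).mp hx))
  have hmax : ∀ m : Ideal (A ⧸ P), m.IsMaximal → (m.comap q).IsMaximal := fun m hm =>
    Ideal.comap_isMaximal_of_surjective q hqs
  have hSm : ∀ (m : Ideal (A ⧸ P)) k, S k ∈ m.comap q := fun m k => by
    rw [Ideal.mem_comap, (hq0 _).mpr (le_sat (hSI k))]
    exact m.zero_mem
  have hI0map : (I0 u w).map q = I0 (fun i => q (u i)) (fun i => q (w i)) := by
    simp only [I0, P0, Ideal.map_sup, Ideal.map_span, Set.image_insert_eq, Set.image_singleton,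
      map_sub]
  have hImap : I.map q = ⊥ := by
    rw [Ideal.map_eq_bot_iff_le_ker]
    intro x hx
    exact (hq0 x).mpr (le_sat hx)
  have hded : IsDedekindDomain (A ⧸ P) := by
    refine dedekind_of _ fun m hm => ?_
    have := hmax m hm
    obtain ⟨i, j, hc⟩ := H.unit _ this
    obtain ⟨p, hp, -, t, ht, hT⟩ := local_gen H (hSm m) hc
    refine ⟨q p, hp, q t, ht, fun a ha => ?_⟩
    obtain ⟨a, rfl⟩ := hqs a
    have := Ideal.mem_map_of_mem q (hT a ha)
    rwa [Ideal.map_sup, hImap, sup_bot_eq, Ideal.map_span, Set.image_singleton, map_mul] at this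
  refine ⟨A ⧸ P, inferInstance, hded, inferInstance, fun i => q (u i), fun i => q (w i), q f,
    fun α => Derivation.liftOfSurjective hqs (hd α.1 α.2), fun α => q (β α.1 α.2),
    fun α => q (c α.1 α.2 α.1), ⟨?_, ?_, ?_⟩, ?_, ?_, ?_, ?_, ?_, ?_⟩
  · simpa only [map_pow, map_add, map_sub, map_mul, map_ofNat] using congrArg q H.rel.r0
  · simpa only [map_pow, map_add, map_mul, map_ofNat] using congrArg q H.rel.r1
  · simpa only [map_pow, map_add, map_mul, map_ofNat] using congrArg q H.rel.r2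
  · have e : (Set.range fun i => q (u i)) ∪ (Set.range fun i => q (w i)) =
        q '' (Set.range u ∪ Set.range w) := by
      rw [Set.image_union, ← Set.range_comp, ← Set.range_comp]; rfl
    rw [e, ← AlgHom.map_adjoin, H.gen, Algebra.map_top, AlgHom.range_eq_top]
    exact hqs
  · intro α
    simpa only [map_pow, map_add, map_mul] using congrArg q (H.sq α.1 α.2)
  · intro α α' b
    obtain ⟨b, rfl⟩ := hqs b
    rw [Derivation.liftOfSurjective_apply, Derivation.liftOfSurjective_apply]
    refine prop_of (fun i j => q (β i j)) (fun i j => q (Jd D (S i) (S j) b)) ?_ ?_ ?_ ?_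
      _ _ _ _
    · intro i j
      rw [← map_neg, Jd_apply, Jd_apply, dt, dt]
      congr 1
      ring
    · intro i
      rw [Jd_apply, dt]
      simp only [map_add, map_mul, map_sub]
      ring
    · intro i j k l
      simpa only [map_add, map_sub, map_mul, map_zero] using congrArg q (H.plu i j k l)
    · intro i j k l
      simpa only [map_add, map_sub, map_mul] using (hq0 _).mpr (le_sat (Jd_syz H i j k l b))
  · intro m hm
    have := hmax m hm
    obtain ⟨i, j, hc⟩ := H.unit _ this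
    obtain ⟨p, hp, hJ, -⟩ := local_gen H (hSm m) hc
    refine ⟨(i, j), hc, q p, hp, ?_⟩
    rw [Derivation.liftOfSurjective_apply]
    exact hJ
  · rw [← hI0map, ← H.span, Ideal.map_sup, hImap, bot_sup_eq, Ideal.map_span, Set.image_singleton]
  · intro k0 k1 k2 k3 hk
    refine hind k0 k1 k2 k3 ?_
    rw [← hI0map] at hk
    have e : (I0 u w).map q = (I0 u w).map (Ideal.Quotient.mk P) := rfl
    have : (((I0 u w).map (Ideal.Quotient.mk P)).comap (Ideal.Quotient.mk P)) = I0 u w := by
      rw [Ideal.comap_map_of_surjective _ Ideal.Quotient.mk_surjective, ← RingHom.ker_eq_comap_bot,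
        Ideal.mk_ker, sup_eq_left.mpr hPI]
    rw [← this, Ideal.mem_comap, ← e]
    convert hk using 1
    change q _ = _
    simp only [map_add, map_mul, map_sub, map_pow, map_ofNat, AlgHom.commutes]

end Geom

open Geom in
theorem geomThm (hC : CotStmt) : GeomStmt := by
  intro K A _ _ _ _ _ h5 u w hrel hgen D hD hind ι _ _ a f β H lam pd hu hw ha hf hβ hlam
  have hg : w 0 + u 0 ≠ 0 := by
    intro h
    have := (hind 0 2 0 0 (by
      have e : algebraMap K A 0 + algebraMap K A 2 * u 0 + algebraMap K A 0 * (u 0 ^ 2 - 5)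
          + algebraMap K A 0 * (u 0 * (u 0 ^ 2 - 5)) = -(w 0 - u 0) := by
        simp only [map_zero, map_ofNat]
        linear_combination h
      rw [e]
      exact neg_mem (f1_mem u w))).2.1
    exact two_ne_zero this
  have hchar : CharZero A := charZero_of_injective_algebraMap (algebraMap K A).injective
  choose c4 hc4 using H.dvd
  set c : ι → ι → ι → A := fun i j k => c4 i j k j with hc
  have hcc : ∀ i j k, β i j * β k j = (w 0 + u 0) * c i j k := fun i j k => hc4 i j k j
  have hdiag : ∀ i, β i i = 0 := fun i => by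
    have := H.anti i i
    have h2 : (2 : A) * β i i = 0 := by linear_combination this
    exact (mul_eq_zero.mp h2).resolve_left two_ne_zero
  have hpc : ∀ α i j k, pd α (c i j k) = 0 := by
    intro α i j k
    have := congrArg (pd α) (hcc i j k)
    rw [der_mul, der_mul, hβ, hβ, map_add, hu, hw] at this
    simpa [hg] using this
  set S : ι → A := fun k => a k + f * ∑ α : ι × ι, lam α * c α.1 α.2 k with hS
  have hpS : ∀ α k, pd α (S k) = f * c α.1 α.2 k := by
    intro α k
    simp only [hS, map_add, der_mul, map_sum, ha, hf, hpc, hlam]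
    simp
  have hc0 : ∀ i j, c i j j = 0 := fun i j => by
    have := hcc i j j
    rw [hdiag, mul_zero] at this
    exact (mul_eq_zero.mp this.symm).resolve_left hg
  have hcs : ∀ i j, c j i j = c i j i := fun i j => by
    apply mul_left_cancel₀ hg
    rw [← hcc, ← hcc, H.anti j i]
    ring
  have hsyz : ∀ i j k, β i j * S k - β i k * S j + β j k * S i = 0 := by
    intro i j k
    have h1 : ∀ α : ι × ι, β i j * c α.1 α.2 k - β i k * c α.1 α.2 j + β j k * c α.1 α.2 i = 0 := by
      intro α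
      apply mul_left_cancel₀ hg
      linear_combination β α.1 α.2 * H.plu i j k α.2 - β i j * hcc α.1 α.2 k
        + β i k * hcc α.1 α.2 j - β j k * hcc α.1 α.2 i
    have h2 : ∑ α : ι × ι, lam α *
        (β i j * c α.1 α.2 k - β i k * c α.1 α.2 j + β j k * c α.1 α.2 i) = 0 := by
      simp [h1]
    simp only [mul_add, mul_sub, Finset.sum_add_distrib, Finset.sum_sub_distrib,
      mul_left_comm (lam _), ← Finset.mul_sum] at h2
    simp only [hS]
    linear_combination H.syz i j k + f * h2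
  refine curve_of (S := S) (f := f) (β := β) (c := c) (pd := pd) (D := D)
    ⟨h5, hrel, hgen, hD, hC K A u w hrel hgen D hD, ?_, H.anti, hdiag, H.plu, hsyz, ?_, ?_, ?_,
      fun i j => hpS (i, j) i, fun i j => by rw [hpS, hc0, mul_zero],
      fun i j => by rw [hpS, hcs], hu, hw⟩ hind
  · rw [← H.span]
    have hf1 : ∀ I : Ideal A, f ∈ I ⊔ Ideal.span {f} := fun I =>
      Ideal.mem_sup_right (Ideal.subset_span rfl)
    apply le_antisymm
    · refine sup_le ?_ le_sup_right
      rw [Ideal.span_le]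
      rintro _ ⟨k, rfl⟩
      exact Ideal.add_mem _ (Ideal.mem_sup_left (Ideal.subset_span ⟨k, rfl⟩))
        (Ideal.mul_mem_right _ _ (hf1 _))
    · refine sup_le ?_ le_sup_right
      rw [Ideal.span_le]
      rintro _ ⟨k, rfl⟩
      have e : a k = S k - f * ∑ α : ι × ι, lam α * c α.1 α.2 k := by simp [hS]
      rw [e]
      exact Ideal.sub_mem _ (Ideal.mem_sup_left (Ideal.subset_span ⟨k, rfl⟩))
        (Ideal.mul_mem_right _ _ (hf1 _))
  · intro i j
    rw [← hcc, pow_two]
  · intro m hm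
    by_contra hcon
    push Not at hcon
    have h1 : ∀ x ∈ Ideal.span {x | ∃ i j k l, x = β i j * β k l},
        ∃ y ∈ m, x = (w 0 + u 0) * y := by
      intro x hx
      induction hx using Submodule.span_induction with
      | mem x hx =>
        obtain ⟨i, j, k, l, rfl⟩ := hx
        refine ⟨c4 i j k l, hm.isPrime.mem_of_pow_mem 2 ?_, hc4 i j k l⟩
        have e : c4 i j k l ^ 2 = c i j i * c k l k := by
          apply mul_left_cancel₀ (pow_ne_zero 2 hg)
          have e1 := hc4 i j k l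
          have e2 := hcc i j i
          have e3 := hcc k l k
          calc _ = ((w 0 + u 0) * c4 i j k l) ^ 2 := by ring
            _ = ((w 0 + u 0) * c i j i) * ((w 0 + u 0) * c k l k) := by
              rw [← e1, ← e2, ← e3]; ring
            _ = _ := by ring
        rw [e]
        exact m.mul_mem_right _ (hcon i j)
      | zero => exact ⟨0, m.zero_mem, by simp⟩
      | add x y _ _ hx hy =>
        obtain ⟨x', hx', rfl⟩ := hx
        obtain ⟨y', hy', rfl⟩ := hy
        exact ⟨x' + y', m.add_mem hx' hy', by ring⟩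
      | smul r x _ hx =>
        obtain ⟨x', hx', rfl⟩ := hx
        exact ⟨r * x', m.mul_mem_left _ hx', by rw [smul_eq_mul]; ring⟩
    obtain ⟨y, hy, e⟩ := h1 _ H.top
    have : y = 1 := by
      apply mul_left_cancel₀ hg
      rw [← e, mul_one]
    exact hm.ne_top ((Ideal.eq_top_iff_one _).mpr (this ▸ hy))
  · intro i j k
    apply mul_left_cancel₀ hg
    have e1 := hsyz i j k
    have e2 := hcc i j i
    have e3 := hcc i j k
    have e4 := hcc j i k
    rw [H.anti k j] at e3
    rw [H.anti j i, H.anti k i] at e4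
    linear_combination β i j * e1 - S k * e2 + S i * e3 + S j * e4

end Pool.Agent.P.MP_8b60db_ag
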