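import Pool.Agent.P.MP_8b60db_ag.Defs

/-! Abstract commutative algebra used in the geometric part. -/

namespace Pool.Agent.P.MP_8b60db_ag.Geom

/-- A Noetherian domain whose maximal ideals are locally principal is Dedekind. -/
theorem dedekind_of (B : Type) [CommRing B] [IsDomain B] [IsNoetherianRing B]
    (h : ∀ m : Ideal B, m.IsMaximal → ∃ p ∈ m, ∃ t ∉ m, ∀ a ∈ m, t * a ∈ Ideal.span {p}) :
    IsDedekindDomain B := by
  have hpid : ∀ (P : Ideal B) [P.IsMaximal], IsPrincipalIdealRing (Localization.AtPrime P) := by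
    intro P hP
    obtain ⟨p, hp, t, ht, H⟩ := h P hP
    have : IsNoetherianRing (Localization.AtPrime P) :=
      IsLocalization.isNoetherianRing P.primeCompl _ inferInstance
    refine ((tfae_of_isNoetherianRing_of_isLocalRing_of_isDomain (Localization.AtPrime P)).out
      4 0).mp ?_
    refine ⟨⟨algebraMap B _ p, ?_⟩⟩
    rw [← Localization.AtPrime.map_eq_maximalIdeal]
    apply le_antisymm
    · rw [Ideal.map_le_iff_le_comap]
      intro a ha
      obtain ⟨r, hr⟩ := Ideal.mem_span_singleton'.mp (H a ha)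
      have hu : IsUnit (algebraMap B (Localization.AtPrime P) t) :=
        IsLocalization.map_units (Localization.AtPrime P) (⟨t, ht⟩ : P.primeCompl)
      obtain ⟨v, hv⟩ := hu.exists_left_inv
      rw [Ideal.mem_comap]
      change _ ∈ Ideal.span _
      refine Ideal.mem_span_singleton'.mpr ⟨v * algebraMap B _ r, ?_⟩
      rw [mul_assoc, ← map_mul, hr, map_mul, ← mul_assoc, hv, one_mul]
    · change Ideal.span _ ≤ _
      rw [Ideal.span_le, Set.singleton_subset_iff]
      exact Ideal.mem_map_of_mem _ hp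
  have : IsIntegrallyClosed B :=
    IsIntegrallyClosed.of_localization_maximal fun P _ _ => by
      have := hpid P
      infer_instance
  have : Ring.KrullDimLE 1 B :=
    Ring.krullDimLE_of_isLocalization_maximal (fun P _ => Localization.AtPrime P) fun P _ => by
      have := hpid P
      infer_instance
  rw [Ring.krullDimLE_one_iff_of_noZeroDivisors] at this
  exact { maximalOfPrime := this _ }

variable {A : Type} [CommRing A]

/-- The saturation of `I` at the prime `z`. -/
def sat (I z : Ideal A) [hz : z.IsPrime] : Ideal A where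
  carrier := {a | ∃ s ∉ z, s * a ∈ I}
  zero_mem' := ⟨1, fun h => hz.ne_top ((Ideal.eq_top_iff_one _).mpr h), by simp⟩
  add_mem' := by
    rintro a b ⟨s, hs, ha⟩ ⟨t, ht, hb⟩
    refine ⟨s * t, fun h => (hz.mem_or_mem h).elim hs ht, ?_⟩
    have : s * t * (a + b) = t * (s * a) + s * (t * b) := by ring
    rw [this]
    exact I.add_mem (I.mul_mem_left _ ha) (I.mul_mem_left _ hb)
  smul_mem' := by
    rintro c a ⟨s, hs, ha⟩
    refine ⟨s, hs, ?_⟩
    have : s * (c • a) = c * (s * a) := by rw [smul_eq_mul]; ring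
    rw [this]
    exact I.mul_mem_left _ ha

theorem mem_sat {I z : Ideal A} [z.IsPrime] {a : A} : a ∈ sat I z ↔ ∃ s ∉ z, s * a ∈ I := Iff.rfl

theorem le_sat {I z : Ideal A} [hz : z.IsPrime] : I ≤ sat I z := fun a ha =>
  ⟨1, fun h => hz.ne_top ((Ideal.eq_top_iff_one _).mpr h), by simpa⟩

theorem sat_le {I z : Ideal A} [hz : z.IsPrime] (h : I ≤ z) : sat I z ≤ z := by
  rintro a ⟨s, hs, ha⟩
  exact (hz.mem_or_mem (h ha)).resolve_left hs

theorem sat_cancel {I z : Ideal A} [hz : z.IsPrime] {s a : A} (hs : s ∉ z)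
    (h : s * a ∈ sat I z) : a ∈ sat I z := by
  obtain ⟨t, ht, h⟩ := h
  exact ⟨t * s, fun h => (hz.mem_or_mem h).elim ht hs, by rwa [mul_assoc]⟩

theorem sat_prime [IsNoetherianRing A] {I z : Ideal A} [hz : z.IsMaximal]
    {p t : A} (hp : p ∈ z) (ht : t ∉ z) (H : ∀ a ∈ z, t * a ∈ Ideal.span {p} ⊔ I)
    (hn : ∀ n, p ^ n ∉ sat I z) : (sat I z).IsPrime := by
  have hzp := hz.isPrime
  have key : ∀ a, a ∉ sat I z → ∃ k s y, s ∉ z ∧ y ∉ z ∧ s * a - y * p ^ k ∈ I := by
    intro a ha
    by_contra hc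
    push Not at hc
    have h1 : ∀ k, ∃ s ∉ z, ∃ y, s * a - y * p ^ k ∈ I := by
      intro k
      induction k with
      | zero => exact ⟨1, fun h => hzp.ne_top ((Ideal.eq_top_iff_one _).mpr h), a, by simp⟩
      | succ k ih =>
        obtain ⟨s, hs, y, hy⟩ := ih
        have hyz : y ∈ z := by
          by_contra hyz
          exact hc k s y hs hyz hy
        obtain ⟨b, hb, i, hi, e⟩ := Submodule.mem_sup.mp (H y hyz)
        obtain ⟨r, rfl⟩ := Ideal.mem_span_singleton'.mp hb
        refine ⟨t * s, fun h => (hzp.mem_or_mem h).elim ht hs, r, ?_⟩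
        have : t * s * a - r * p ^ (k + 1) = t * (s * a - y * p ^ k) + p ^ k * i := by
          linear_combination (-p ^ k) * e
        rw [this]
        exact I.add_mem (I.mul_mem_left _ hy) (I.mul_mem_left _ hi)
    have h2 : Ideal.Quotient.mk I a ∈ (⨅ i : ℕ, z ^ i • ⊤ : Submodule A (A ⧸ I)) := by
      rw [Submodule.mem_iInf]
      intro k
      obtain ⟨s, hs, y, hy⟩ := h1 k
      obtain ⟨s', i, hi, e⟩ := Ideal.IsMaximal.exists_inv_pow z hs k
      have h3 : a - (s' * y * p ^ k + i * a) ∈ I := by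
        have : a - (s' * y * p ^ k + i * a) = s' * (s * a - y * p ^ k) := by
          linear_combination (-a) * e
        rw [this]
        exact I.mul_mem_left _ hy
      have h4 : s' * y * p ^ k + i * a ∈ z ^ k :=
        Ideal.add_mem _ (Ideal.mul_mem_left _ _ (Ideal.pow_mem_pow hp k))
          (Ideal.mul_mem_right _ _ hi)
      have h5 : Ideal.Quotient.mk I a = (s' * y * p ^ k + i * a) • (1 : A ⧸ I) := by
        rw [Algebra.smul_def, mul_one]
        exact Ideal.Quotient.eq.mpr h3
      rw [h5]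
      exact Submodule.smul_mem_smul h4 trivial
    obtain ⟨r, hr⟩ := (Ideal.mem_iInf_smul_pow_eq_bot_iff z _).mp h2
    apply ha
    refine ⟨1 - r, fun h => ?_, ?_⟩
    · have := z.add_mem h r.2
      simp only [sub_add_cancel] at this
      exact hzp.ne_top ((Ideal.eq_top_iff_one _).mpr this)
    · rw [← Ideal.Quotient.eq_zero_iff_mem, map_mul, map_sub, map_one, sub_mul, one_mul,
        sub_eq_zero]
      rw [Algebra.smul_def] at hr
      exact hr.symm
  refine ⟨fun h => hn 0 (by rw [h]; trivial), ?_⟩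
  intro a b hab
  by_contra hc
  push Not at hc
  obtain ⟨k, s, y, hs, hy, e⟩ := key a hc.1
  obtain ⟨l, s', y', hs', hy', e'⟩ := key b hc.2
  apply hn (k + l)
  refine sat_cancel (s := y * y') (fun h => (hzp.mem_or_mem h).elim hy hy') ?_
  have : y * y' * p ^ (k + l) = s * s' * (a * b) - (s' * b) * (s * a - y * p ^ k)
      - (y * p ^ k) * (s' * b - y' * p ^ l) := by ring
  rw [this]
  exact Ideal.sub_mem _ (Ideal.sub_mem _ (Ideal.mul_mem_left _ _ hab)
    (le_sat (I.mul_mem_left _ e))) (le_sat (I.mul_mem_left _ e'))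

section deriv

variable {R : Type} [CommRing R] [Algebra R A]

theorem der_mul (d : Derivation R A A) (a b : A) : d (a * b) = a * d b + b * d a := by
  simp

theorem der_span (d : Derivation R A A) {s : Set A} {J : Ideal A} (hs : Ideal.span s ≤ J)
    (h : ∀ x ∈ s, d x ∈ J) : ∀ x ∈ Ideal.span s, d x ∈ J := by
  intro x hx
  induction hx using Submodule.span_induction with
  | mem x hx => exact h x hx
  | zero => simp
  | add x y _ _ hx hy => rw [map_add]; exact J.add_mem hx hy
  | smul a x hx ih =>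
    rw [smul_eq_mul, der_mul]
    exact J.add_mem (J.mul_mem_left _ ih) (J.mul_mem_right _ (hs hx))

theorem der_sq (d : Derivation R A A) (m : Ideal A) : ∀ x ∈ m ^ 2, d x ∈ m := by
  intro x hx
  rw [pow_two] at hx
  refine Submodule.mul_induction_on hx ?_ ?_
  · intro a ha b hb
    rw [der_mul]
    exact m.add_mem (m.mul_mem_right _ ha) (m.mul_mem_right _ hb)
  · intro x y hx hy
    rw [map_add]
    exact m.add_mem hx hy

theorem der_sq' (d : Derivation R A A) (m : Ideal A) (h : ∀ x ∈ m, d x ∈ m) :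
    ∀ x ∈ m ^ 2, d x ∈ m ^ 2 := by
  intro x hx
  rw [pow_two] at hx ⊢
  refine Submodule.mul_induction_on hx ?_ ?_
  · intro a ha b hb
    rw [der_mul]
    exact Ideal.add_mem _ (Ideal.mul_mem_mul ha (h b hb)) (Ideal.mul_mem_mul hb (h a ha))
  · intro x y hx hy
    rw [map_add]
    exact Ideal.add_mem _ hx hy

theorem der_sat (d : Derivation R A A) {I z : Ideal A} [z.IsPrime]
    (h : ∀ x ∈ I, d x ∈ sat I z) : ∀ x ∈ sat I z, d x ∈ sat I z := by
  intro x hx
  obtain ⟨s, hs, e⟩ := id hx
  have := h _ e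
  rw [der_mul] at this
  refine sat_cancel hs ?_
  simpa using Ideal.sub_mem _ this (Ideal.mul_mem_right (d s) _ hx)

theorem pow_notMem_sat (d : Derivation R A A) {I z : Ideal A} [hz : z.IsPrime] (hI : I ≤ z)
    (h : ∀ x ∈ I, d x ∈ sat I z) (hc : ∀ n : ℕ, ((n + 1 : ℕ) : A) ∉ z) {p : A}
    (hd : d p ∉ z) : ∀ n, p ^ n ∉ sat I z := by
  intro n
  induction n with
  | zero =>
    intro h1
    exact hz.ne_top ((Ideal.eq_top_iff_one _).mpr (by simpa using sat_le hI h1))
  | succ n ih =>
    intro h1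
    apply ih
    have h2 := der_sat d h _ h1
    rw [Derivation.leibniz_pow, Nat.add_sub_cancel, smul_eq_mul, nsmul_eq_mul] at h2
    refine sat_cancel (s := ((n + 1 : ℕ) : A) * d p)
      (fun h => (hz.mem_or_mem h).elim (hc n) hd) ?_
    convert h2 using 1
    ring

end deriv

end Pool.Agent.P.MP_8b60db_ag.Geom
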