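import Pool.Agent.P.MP_8b60db_ag.Defs

/-! The 5-adic norm form on polynomial rings and rational function fields. -/

namespace Pool.Agent.P.MP_8b60db_ag

open Polynomial

namespace GoodAux

variable {R S : Type} [CommRing R] [CommRing S]

lemma Nm_mul (t a b c d : R) : Nm (t * a) (t * b) (t * c) (t * d) = t ^ 4 * Nm a b c d := by
  unfold Nm
  ring

lemma Nm_map (f : R →+* S) (a b c d : R) : f (Nm a b c d) = Nm (f a) (f b) (f c) (f d) := by
  simp [Nm, map_ofNat]

lemma exists_prim (π : R) (μ : R → ℕ) (h1 : ∀ x, μ x ≤ μ (π * x))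
    (h2 : ∀ x, x ≠ 0 → μ x < μ (π * x)) (n : ℕ) : ∀ a b c d : R, μ a + μ b + μ c + μ d < n →
      ¬ (a = 0 ∧ b = 0 ∧ c = 0 ∧ d = 0) → ∃ (k : ℕ) (a' b' c' d' : R),
        Nm a b c d = π ^ (4 * k) * Nm a' b' c' d' ∧ ¬ (π ∣ a' ∧ π ∣ b' ∧ π ∣ c' ∧ π ∣ d') := by
  induction n with
  | zero => intro a b c d h; omega
  | succ n ih =>
    intro a b c d h h0
    by_cases h3 : π ∣ a ∧ π ∣ b ∧ π ∣ c ∧ π ∣ d
    swap
    · exact ⟨0, a, b, c, d, by simp, h3⟩
    obtain ⟨⟨a, rfl⟩, ⟨b, rfl⟩, ⟨c, rfl⟩, ⟨d, rfl⟩⟩ := h3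
    have h4 : ¬ (a = 0 ∧ b = 0 ∧ c = 0 ∧ d = 0) := by
      rintro ⟨rfl, rfl, rfl, rfl⟩
      simp at h0
    obtain ⟨k, a', b', c', d', h5, h6⟩ := ih a b c d (by
      have := h1 a
      have := h1 b
      have := h1 c
      have := h1 d
      rcases not_and_or.mp h4 with h | h
      · have := h2 a h
        omega
      rcases not_and_or.mp h with h | h
      · have := h2 b h
        omega
      rcases not_and_or.mp h with h | h
      · have := h2 c h
        omega
      · have := h2 d h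
        omega) h4
    exact ⟨k + 1, a', b', c', d', by rw [Nm_mul, h5]; ring, h6⟩

lemma good_equiv {v : R → ℤ} (h : Good R v) (e : S ≃+* R) : Good S (fun x => v (e x)) := by
  refine ⟨fun a b ha hb => ?_, ?_, ?_, fun a b c d h0 => ?_⟩
  · rw [map_mul, h.mul _ _ (by simpa using ha) (by simpa using hb)]
  · rw [map_ofNat, h.two]
  · rw [map_ofNat]
    exact h.five
  · have h1 := h.nm (e a) (e b) (e c) (e d) (by simpa using h0)
    have h2 : e (Nm a b c d) = Nm (e a) (e b) (e c) (e d) := Nm_map (e : S →+* R) a b c d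
    rw [← h2] at h1
    exact ⟨by simpa using h1.1, h1.2⟩

lemma nm_five : ∀ a b c d : ZMod 5, Nm a b c d = 0 → a = 0 ∧ b = 0 ∧ c = 0 ∧ d = 0 := by
  unfold Nm
  decide +kernel

lemma good_int : Good ℤ (fun n => padicValInt 5 n) := by
  have : Fact (Nat.Prime 5) := ⟨by norm_num⟩
  refine ⟨fun a b ha hb => ?_, ?_, ?_, fun a b c d h0 => ?_⟩
  · rw [padicValInt.mul ha hb, Nat.cast_add]
  · rw [padicValInt.eq_zero_of_not_dvd (by norm_num), Nat.cast_zero]
  · have := padicValInt.self (p := 5) (by norm_num)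
    rw [Nat.cast_ofNat] at this
    rw [this]
    exact odd_one
  obtain ⟨k, a', b', c', d', h1, h2⟩ := exists_prim (5 : ℤ) Int.natAbs
    (fun x => by omega) (fun x hx => by omega) _ a b c d (Nat.lt_succ_self _) h0
  have h3 : ¬ ((5 : ℕ) : ℤ) ∣ Nm a' b' c' d' := fun h => h2 (by
    have h4 := (ZMod.intCast_zmod_eq_zero_iff_dvd _ 5).mpr h
    rw [← eq_intCast (Int.castRingHom (ZMod 5)), Nm_map] at h4
    simpa only [eq_intCast, ZMod.intCast_zmod_eq_zero_iff_dvd, Nat.cast_ofNat]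
      using nm_five _ _ _ _ h4)
  have h4 : Nm a' b' c' d' ≠ 0 := fun h => h3 (h ▸ dvd_zero _)
  rw [h1]
  refine ⟨mul_ne_zero (by positivity) h4, k, ?_⟩
  rw [padicValInt.mul (by positivity) h4, padicValInt.eq_zero_of_not_dvd h3]
  simp [padicValInt, Int.natAbs_pow]

lemma good_poly [IsDomain R] {v : R → ℤ} (h : Good R v) :
    Good R[X] (fun p => v p.trailingCoeff) := by
  have hC : ∀ a : R, (C a).trailingCoeff = a := fun a => by
    rw [trailingCoeff, natTrailingDegree_C, coeff_C_zero]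
  refine ⟨fun a b ha hb => ?_, ?_, ?_, fun a b c d h0 => ?_⟩
  · rw [trailingCoeff_mul, h.mul _ _ (by simpa using ha) (by simpa using hb)]
  · rw [← map_ofNat C, hC, h.two]
  · rw [← map_ofNat C, hC]
    exact h.five
  obtain ⟨k, a', b', c', d', h1, h2⟩ := exists_prim (X : R[X]) natDegree
    (fun x => by
      by_cases hx : x = 0
      · simp [hx]
      · rw [natDegree_X_mul hx]
        omega)
    (fun x hx => by rw [natDegree_X_mul hx]; omega) _ a b c d (Nat.lt_succ_self _) h0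
  simp only [X_dvd_iff] at h2
  obtain ⟨h3, h4⟩ := h.nm _ _ _ _ h2
  have h5 : (Nm a' b' c' d').coeff 0 = _ := Nm_map constantCoeff a' b' c' d'
  simp only [constantCoeff_apply] at h5
  rw [← h5] at h3 h4
  rw [h1]
  refine ⟨mul_ne_zero (pow_ne_zero _ X_ne_zero) fun h6 => h3 (by rw [h6, coeff_zero]), ?_⟩
  rw [trailingCoeff_mul, trailingCoeff_eq_coeff_zero h3, trailingCoeff, natTrailingDegree_X_pow,
    coeff_X_pow_self, one_mul]
  exact h4

lemma good_mv (n : ℕ) : ∃ v, Good (MvPolynomial (Fin n) ℤ) v := by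
  induction n with
  | zero => exact ⟨_, good_equiv good_int (MvPolynomial.isEmptyRingEquiv ℤ (Fin 0))⟩
  | succ n ih =>
    obtain ⟨v, h⟩ := ih
    exact ⟨_, good_equiv (good_poly h) (MvPolynomial.finSuccEquiv ℤ n).toRingEquiv⟩

lemma good_frac [IsDomain R] [CharZero R] {v : R → ℤ} (h : Good R v) (K : Type) [Field K]
    [Algebra R K] [IsFractionRing R K] : ∃ w, Good K w := by
  have hinj := IsFractionRing.injective R K
  have hne : ∀ a : R, a ≠ 0 → algebraMap R K a ≠ 0 := fun a ha h0 =>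
    ha (hinj (h0.trans (map_zero _).symm))
  choose p q hq hpq using fun x : K => IsFractionRing.div_surjective (A := R) x
  have hq' := fun x => nonZeroDivisors.ne_zero (hq x)
  have hp : ∀ x, x ≠ 0 → p x ≠ 0 := fun x hx h0 => hx (by rw [← hpq x, h0, map_zero, zero_div])
  have hx : ∀ x, x * algebraMap R K (q x) = algebraMap R K (p x) := fun x => by
    rw [← eq_div_iff (hne _ (hq' x)), hpq]
  have key : ∀ (x : K) (a b : R), a ≠ 0 → b ≠ 0 → x * algebraMap R K b = algebraMap R K a →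
      v (p x) - v (q x) = v a - v b := fun x a b ha hb e => by
    have h0 : x ≠ 0 := fun h0 => hne a ha (by rw [← e, h0, zero_mul])
    have h1 : p x * b = a * q x := hinj (by rw [map_mul, map_mul, ← hx, ← e]; ring)
    have h2 := h.mul _ _ (hp x h0) hb
    rw [h1, h.mul _ _ ha (hq' x)] at h2
    omega
  have h1 : v 1 = 0 := by simpa using h.mul 1 1 one_ne_zero one_ne_zero
  refine ⟨fun x => v (p x) - v (q x), fun a b ha hb => ?_, ?_, ?_, fun a b c d h0 => ?_⟩
  · rw [key (a * b) (p a * p b) (q a * q b) (mul_ne_zero (hp a ha) (hp b hb))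
      (mul_ne_zero (hq' a) (hq' b)) (by rw [map_mul, map_mul, ← hx, ← hx]; ring),
      h.mul _ _ (hp a ha) (hp b hb), h.mul _ _ (hq' a) (hq' b)]
    ring
  · rw [key 2 2 1 two_ne_zero one_ne_zero (by simp [map_ofNat]), h.two, h1, sub_zero]
  · rw [key 5 5 1 (by norm_num) one_ne_zero (by simp [map_ofNat]), h1, sub_zero]
    exact h.five
  obtain ⟨⟨t, ht⟩, h2⟩ := IsLocalization.exist_integer_multiples_of_finite (nonZeroDivisors R)
    ![a, b, c, d]
  have ht' := nonZeroDivisors.ne_zero ht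
  obtain ⟨a', ha⟩ := h2 0
  obtain ⟨b', hb⟩ := h2 1
  obtain ⟨c', hc⟩ := h2 2
  obtain ⟨d', hd⟩ := h2 3
  simp only [Algebra.smul_def, Matrix.cons_val] at ha hb hc hd
  obtain ⟨h3, h4⟩ := h.nm a' b' c' d' (by
    rintro ⟨rfl, rfl, rfl, rfl⟩
    have := hne t ht'
    simp_all)
  have h5 : Nm a b c d * algebraMap R K (t * t * (t * t)) = algebraMap R K (Nm a' b' c' d') := by
    rw [Nm_map, ha, hb, hc, hd, Nm_mul, map_mul, map_mul]
    ring
  have h6 := mul_ne_zero ht' ht'
  refine ⟨fun h7 => hne _ h3 (by rw [← h5, h7, zero_mul]), ?_⟩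
  rw [key _ _ _ h3 (mul_ne_zero h6 h6) h5, h.mul _ _ h6 h6, h.mul _ _ ht' ht']
  omega

end GoodAux

theorem goodTc : GoodTcStmt := fun _ _ _ _ h => GoodAux.good_poly h

theorem fieldEx : FieldStmt := by
  intro σ _ _
  obtain ⟨v, h⟩ := GoodAux.good_mv (Fintype.card σ)
  let K := FractionRing (MvPolynomial σ ℤ)
  obtain ⟨w, hw⟩ := GoodAux.good_frac (GoodAux.good_equiv h
    (MvPolynomial.renameEquiv ℤ (Fintype.equivFin σ)).toRingEquiv) K
  let g : σ → MvPolynomial σ ℤ →+* DualNumber K := fun α =>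
    MvPolynomial.eval₂Hom (Int.castRingHom _) fun β =>
      (algebraMap (MvPolynomial σ ℤ) K (MvPolynomial.X β), if α = β then 1 else 0)
  have hg : ∀ α x, (g α x).fst = algebraMap (MvPolynomial σ ℤ) K x := fun α =>
    RingHom.congr_fun (f := (TrivSqZeroExt.fstHom K K K).toRingHom.comp (g α))
      (MvPolynomial.ringHom_ext (fun r => by simp) fun β => by simp [g])
  have hu : ∀ α (y : nonZeroDivisors (MvPolynomial σ ℤ)), IsUnit (g α y) := fun α y => by
    rw [TrivSqZeroExt.isUnit_iff_isUnit_fst, hg]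
    exact IsLocalization.map_units K y
  refine ⟨K, inferInstance, inferInstance, w,
    fun β => algebraMap (MvPolynomial σ ℤ) K (MvPolynomial.X β),
    fun α => IsLocalization.lift (hu α), hw, fun α => ?_, fun α β => ?_⟩
  · refine RingHom.congr_fun
      (f := (TrivSqZeroExt.fstHom K K K).toRingHom.comp (IsLocalization.lift (hu α)))
      (g := RingHom.id K) (IsLocalization.ringHom_ext (nonZeroDivisors (MvPolynomial σ ℤ)) ?_)
    refine RingHom.ext fun x => ?_
    simpa using hg α x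
  · simp [g]

end Pool.Agent.P.MP_8b60db_ag
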