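import Pool.Agent.P.MP_8b60db_ag.Defs

/-! Norms at infinity. -/

set_option linter.style.haveILetI false

namespace Pool.Agent.P.MP_8b60db_ag

open Polynomial Module
open scoped nonZeroDivisors

namespace Inf

theorem newton {S : Type} [CommRing S] (h2 : IsUnit (2 : S)) (θ : S) :
    ∃ θ' : S, (θ ^ 4 - 2) ^ 2 ∣ θ' ^ 4 - 2 := by
  obtain ⟨h, hh⟩ := h2.exists_right_inv
  refine ⟨θ * (1 - (θ ^ 4 - 2) * h ^ 3), -4 * h ^ 3 + θ ^ 4 *
    (6 * h ^ 6 - 4 * (θ ^ 4 - 2) * h ^ 9 + (θ ^ 4 - 2) ^ 2 * h ^ 12), ?_⟩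
  linear_combination (-(θ ^ 4 - 2) * (4 * h ^ 2 + 2 * h + 1)) * hh

theorem newton_pow {S : Type} [CommRing S] (h2 : IsUnit (2 : S)) (θ : S) (j : ℕ) :
    ∃ θ' : S, (θ ^ 4 - 2) ^ (j + 1) ∣ θ' ^ 4 - 2 := by
  induction j with
  | zero => exact ⟨θ, by simp⟩
  | succ j ih =>
    obtain ⟨θ1, h1⟩ := ih
    obtain ⟨θ2, h3⟩ := newton h2 θ1
    refine ⟨θ2, Dvd.dvd.trans ?_ h3⟩
    refine Dvd.dvd.trans ?_ (pow_dvd_pow_of_dvd h1 2)
    rw [← pow_mul]
    exact pow_dvd_pow _ (by omega)

open IsDedekindDomain in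
theorem glue {S : Type} [CommRing S] [IsDedekindDomain S] (h2 : IsUnit (2 : S)) (x : S)
    (hx : x ≠ 0)
    (H : ∀ P : HeightOneSpectrum S, x ∈ P.asIdeal → ∃ y : S, y ^ 4 - 2 ∈ P.asIdeal) (M : ℕ) :
    ∃ θ : S, x ^ M ∣ θ ^ 4 - 2 := by
  classical
  have hI : Ideal.span {x} ≠ 0 := by simpa using hx
  have hfin := Ideal.finite_factors hI
  have hmem : ∀ P : HeightOneSpectrum S, P ∈ hfin.toFinset ↔ x ∈ P.asIdeal := fun P => by
    simp
  choose y hy using fun P : hfin.toFinset => H P.1 ((hmem _).mp P.2)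
  obtain ⟨θ, hθ⟩ := IsDedekindDomain.exists_forall_sub_mem_ideal (s := hfin.toFinset)
    (fun P => P.asIdeal) (fun _ => 1) (fun P _ => P.prime)
    (fun P _ Q _ hPQ h => hPQ (HeightOneSpectrum.ext h)) y
  have hrad : θ ^ 4 - 2 ∈ (Ideal.span {x}).radical := by
    rw [Ideal.radical_eq_sInf, Submodule.mem_sInf]
    rintro J ⟨hJ, hJp⟩
    have hxJ : x ∈ J := hJ (Ideal.mem_span_singleton_self x)
    have hJ0 : J ≠ ⊥ := by
      rintro rfl
      exact hx (by simpa using hxJ)
    have hP : (⟨J, hJp, hJ0⟩ : HeightOneSpectrum S) ∈ hfin.toFinset := (hmem _).mpr hxJ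
    have h1 := hθ _ hP
    have h3 := hy ⟨_, hP⟩
    rw [pow_one] at h1
    set z := y ⟨_, hP⟩
    have h4 : θ ^ 4 - 2 = (θ - z) * (θ ^ 3 + θ ^ 2 * z + θ * z ^ 2 + z ^ 3) + (z ^ 4 - 2) := by
      ring
    rw [h4]
    exact J.add_mem (Ideal.mul_mem_right _ _ h1) h3
  obtain ⟨k, hk⟩ := hrad
  rw [Ideal.mem_span_singleton] at hk
  obtain ⟨θ', h'⟩ := newton_pow h2 θ (k * M)
  refine ⟨θ', Dvd.dvd.trans ?_ h'⟩
  refine (pow_dvd_pow_of_dvd hk M).trans ?_
  rw [← pow_mul]
  exact pow_dvd_pow _ (by omega)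

open IsDedekindDomain in
theorem approx {S L : Type} [CommRing S] [IsDedekindDomain S] [Field L] [Algebra S L]
    [IsFractionRing S L] (P : HeightOneSpectrum S) (y : L)
    (hy : P.valuation L (y ^ 4 - 2) < 1) : ∃ z : S, z ^ 4 - 2 ∈ P.asIdeal := by
  have h2 : P.valuation L 2 ≤ 1 := by
    have : P.valuation L (algebraMap S L 2) ≤ 1 := P.valuation_le_one (K := L) (2 : S)
    rwa [map_ofNat] at this
  have h1 : P.valuation L y ≤ 1 := by
    have h3 : P.valuation L (y ^ 4) ≤ 1 := by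
      have : y ^ 4 = (y ^ 4 - 2) + 2 := by ring
      rw [this]
      exact Valuation.map_add_le _ hy.le h2
    rw [map_pow] at h3
    exact (pow_le_one_iff (by norm_num)).mp h3
  obtain ⟨z, hz⟩ := P.exists_valuation_sub_lt_of_integer h1 1
  refine ⟨z, (P.valuation_lt_one_iff_mem (K := L) _).mp ?_⟩
  have hz1 : P.valuation L (algebraMap S L z) ≤ 1 := P.valuation_le_one z
  change P.valuation L (algebraMap S L (z ^ 4 - 2)) < 1
  rw [map_sub, map_pow, map_ofNat]
  set w := algebraMap S L z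
  have h4 : w ^ 4 - 2 = (w - y) * (w ^ 3 + w ^ 2 * y + w * y ^ 2 + y ^ 3) + (y ^ 4 - 2) := by
    ring
  rw [h4]
  refine Valuation.map_add_lt _ ?_ hy
  have h5 : P.valuation L (w ^ 3 + w ^ 2 * y + w * y ^ 2 + y ^ 3) ≤ 1 := by
    refine Valuation.map_add_le _ (Valuation.map_add_le _ (Valuation.map_add_le _ ?_ ?_) ?_) ?_
    · rw [map_pow]; exact pow_le_one' hz1 _
    · rw [map_mul, map_pow]; exact mul_le_one' (pow_le_one' hz1 _) h1
    · rw [map_mul, map_pow]; exact mul_le_one' hz1 (pow_le_one' h1 _)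
    · rw [map_pow]; exact pow_le_one' h1 _
  rw [map_mul]
  exact mul_lt_one_of_lt_of_le (by simpa using hz) h5

theorem trail {K : Type} [Field K] {p q : K[X]} (hp : p ≠ 0)
    (h : X ^ (p.natTrailingDegree + 1) ∣ p - q) :
    q ≠ 0 ∧ q.trailingCoeff = p.trailingCoeff := by
  have hc : ∀ d, d ≤ p.natTrailingDegree → q.coeff d = p.coeff d := fun d hd => by
    have := X_pow_dvd_iff.mp h d (by omega)
    rw [coeff_sub] at this
    exact (sub_eq_zero.mp this).symm
  have h1 : q.coeff p.natTrailingDegree ≠ 0 := by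
    rw [hc _ le_rfl]
    exact trailingCoeff_nonzero_iff_nonzero.mpr hp
  have hq : q ≠ 0 := by
    rintro rfl
    simp at h1
  have h2 : q.natTrailingDegree = p.natTrailingDegree := by
    apply le_antisymm (natTrailingDegree_le_of_ne_zero h1)
    refine le_natTrailingDegree hq fun m hm => ?_
    rw [hc m hm.le]
    exact coeff_eq_zero_of_lt_natTrailingDegree hm
  refine ⟨hq, ?_⟩
  rw [trailingCoeff, trailingCoeff, h2, hc _ le_rfl]

theorem infS (hT : GoodTcStmt) (hN : NormStmt) (K : Type) [Field K] [CharZero K] (v : K → ℤ)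
    (hv : Good K v) (Kt L : Type) [Field Kt] [Field L] [Algebra K[X] Kt] [IsFractionRing K[X] Kt]
    [Algebra Kt L] [FiniteDimensional Kt L] [Algebra K[X] L] [IsScalarTower K[X] Kt L]
    (H : ∀ O : ValuationSubring L, (∀ k : K, algebraMap K[X] L (C k) ∈ O) →
      O.valuation (algebraMap K[X] L X) < 1 → ∃ y : L, O.valuation (y ^ 4 - 2) < 1)
    (η : L) (p q : K[X]) (hp : p ≠ 0) (hq : q ≠ 0)
    (h : Algebra.norm Kt η * algebraMap K[X] Kt q = algebraMap K[X] Kt p) :
    4 ∣ v p.trailingCoeff - v q.trailingCoeff := by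
  have hG := hT K v hv
  have hinj := IsFractionRing.injective K[X] Kt
  haveI : CharZero Kt := charZero_of_injective_algebraMap hinj
  have hinjL : Function.Injective (algebraMap K[X] L) := by
    rw [IsScalarTower.algebraMap_eq K[X] Kt L]
    exact (algebraMap Kt L).injective.comp hinj
  haveI : Module.IsTorsionFree K[X] L := Module.isTorsionFree_iff_algebraMap_injective.mpr hinjL
  let S := integralClosure K[X] L
  haveI : IsDedekindDomain S := IsIntegralClosure.isDedekindDomain K[X] Kt L S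
  haveI : IsFractionRing S L := IsIntegralClosure.isFractionRing_of_finite_extension K[X] Kt L S
  haveI : Module.Finite K[X] S := IsIntegralClosure.finite K[X] Kt L S
  haveI : Module.Free K[X] S := IsIntegralClosure.module_free K[X] Kt L S
  haveI := IsIntegralClosure.isLocalization K[X] Kt L S
  have hS : ∀ r : K[X], algebraMap S L (algebraMap K[X] S r) = algebraMap K[X] L r := fun r =>
    (IsScalarTower.algebraMap_apply K[X] S L r).symm
  have h2 : IsUnit (2 : S) := by
    have : IsUnit (C (2 : K)) := isUnit_C.mpr (IsUnit.mk0 _ two_ne_zero)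
    have h3 := this.map (algebraMap K[X] S)
    rwa [map_ofNat C, map_ofNat] at h3
  have hx : algebraMap K[X] S X ≠ 0 := fun h0 => by
    have := hS X
    rw [h0, map_zero] at this
    exact X_ne_zero (hinjL (by rw [← this, map_zero]))
  have hθ := glue h2 (algebraMap K[X] S X) hx (fun P hP => by
    have he := (P.valuation L).isEquiv_valuation_valuationSubring
    obtain ⟨y, hy⟩ := H (P.valuation L).valuationSubring
      (fun k => by
        rw [Valuation.mem_valuationSubring_iff, ← hS]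
        exact P.valuation_le_one _)
      (by
        rw [← he.lt_one_iff_lt_one, ← hS]
        exact (P.valuation_lt_one_iff_mem (K := L) _).mpr hP)
    exact approx P y (he.lt_one_iff_lt_one.mpr hy))
  have key : ∀ b : S, b ≠ 0 →
      Algebra.norm K[X] b ≠ 0 ∧ 4 ∣ v (Algebra.norm K[X] b).trailingCoeff := by
    intro b hb
    have hn : Algebra.norm K[X] b ≠ 0 := Algebra.norm_ne_zero_iff.mpr hb
    obtain ⟨θ, hθ'⟩ := hθ ((Algebra.norm K[X] b).natTrailingDegree + 1)
    obtain ⟨a1, a2, a3, a4, ha⟩ := hN K[X] S h2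
      (X ^ ((Algebra.norm K[X] b).natTrailingDegree + 1)) θ (by rwa [map_pow]) b
    obtain ⟨h3, h4⟩ := trail hn ha
    refine ⟨hn, ?_⟩
    rw [← h4]
    refine (hG.nm a1 a2 a3 a4 ?_).2
    rintro ⟨rfl, rfl, rfl, rfl⟩
    exact h3 (by simp [Nm])
  obtain ⟨b, q0, hq0, rfl⟩ := IsFractionRing.div_surjective (A := S) η
  have hq0' : q0 ≠ 0 := nonZeroDivisors.ne_zero hq0
  have hq0L : algebraMap S L q0 ≠ 0 := by
    simpa using hq0'
  have hb : b ≠ 0 := by
    rintro rfl
    rw [map_zero, zero_div, Algebra.norm_zero, zero_mul] at h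
    exact hp (hinj (by rw [← h, map_zero]))
  have h5 : Algebra.norm Kt (algebraMap S L b / algebraMap S L q0) *
      Algebra.norm Kt (algebraMap S L q0) = Algebra.norm Kt (algebraMap S L b) := by
    rw [← map_mul, div_mul_cancel₀ _ hq0L]
  rw [Algebra.norm_localization K[X] K[X]⁰, Algebra.norm_localization K[X] K[X]⁰] at h5
  have h6 : Algebra.norm K[X] b * q = p * Algebra.norm K[X] q0 := by
    apply hinj
    rw [map_mul, map_mul, ← h5, ← h]
    ring
  obtain ⟨n1, d1⟩ := key b hb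
  obtain ⟨n2, d2⟩ := key q0 hq0'
  have e1 := hG.mul _ _ n1 hq
  have e2 := hG.mul _ _ hp n2
  rw [h6] at e1
  omega

theorem infR (hT : GoodTcStmt) (hN : NormStmt) (K : Type) [Field K] [CharZero K] (v : K → ℤ)
    (hv : Good K v) (Kt L : Type) [Field Kt] [Field L] [Algebra Kt L] [FiniteDimensional Kt L]
    (φ : K[X] →+* Kt) (hi : Function.Injective φ) (hs : ∀ z : Kt, ∃ x y, z = φ x / φ y)
    (H : ∀ O : ValuationSubring L, (∀ k : K, algebraMap Kt L (φ (C k)) ∈ O) →
      O.valuation (algebraMap Kt L (φ X)) < 1 → ∃ y : L, O.valuation (y ^ 4 - 2) < 1)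
    (η : L) (p q : K[X]) (hp : p ≠ 0) (hq : q ≠ 0) (h : Algebra.norm Kt η * φ q = φ p) :
    4 ∣ v p.trailingCoeff - v q.trailingCoeff := by
  letI : Algebra K[X] Kt := φ.toAlgebra
  letI : Algebra K[X] L := ((algebraMap Kt L).comp φ).toAlgebra
  haveI : IsScalarTower K[X] Kt L := IsScalarTower.of_algebraMap_eq fun _ => rfl
  haveI : FaithfulSMul K[X] Kt := (faithfulSMul_iff_algebraMap_injective _ _).mpr hi
  haveI : IsFractionRing K[X] Kt := IsFractionRing.of_field _ _ hs
  exact infS hT hN K v hv Kt L H η p q hp hq h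

end Inf

theorem infThm (hT : GoodTcStmt) (hN : NormStmt) : InfStmt := by
  intro K _ _ v hv Kt L _ _ _ _ _ _ _ _ H η p q hp hq h
  have hinj := IsFractionRing.injective K[X] Kt
  set T : Kt := algebraMap K[X] Kt X with hTdef
  have hT0 : T ≠ 0 := fun h0 => X_ne_zero (hinj (by rw [← hTdef, h0, map_zero]))
  let i : K →+* Kt := (algebraMap K[X] Kt).comp C
  let φ : K[X] →+* Kt := eval₂RingHom i T⁻¹
  have hal : ∀ f : K[X], eval₂ i T f = algebraMap K[X] Kt f := fun f => by
    have : eval₂RingHom i T = algebraMap K[X] Kt := by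
      apply Polynomial.ringHom_ext
      · intro a; simp [i]
      · simp [hTdef]
    rw [← this]; rfl
  have h1 : ∀ f : K[X], φ f.reverse * T ^ f.natDegree = algebraMap K[X] Kt f := fun f => by
    letI := invertibleOfNonzero hT0
    have := eval₂_reverse_mul_pow i T f
    rw [invOf_eq_inv, hal] at this
    exact this
  have h2 : ∀ f : K[X], algebraMap K[X] Kt f.reverse * T⁻¹ ^ f.natDegree = φ f := fun f => by
    letI := invertibleOfNonzero (inv_ne_zero hT0)
    have := eval₂_reverse_mul_pow i T⁻¹ f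
    rw [invOf_eq_inv, inv_inv, hal] at this
    exact this
  have hX : φ X = T⁻¹ := by simp [φ]
  have hi : Function.Injective φ := by
    rw [injective_iff_map_eq_zero]
    intro f hf
    have := h2 f
    rw [hf, mul_eq_zero] at this
    rcases this with h3 | h3
    · exact reverse_eq_zero.mp (hinj (by rw [h3, map_zero]))
    · exact absurd h3 (pow_ne_zero _ (inv_ne_zero hT0))
  have hs : ∀ z : Kt, ∃ x y, z = φ x / φ y := fun z => by
    obtain ⟨a, b, hb, rfl⟩ := IsFractionRing.div_surjective (A := K[X]) z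
    refine ⟨a.reverse * X ^ b.natDegree, b.reverse * X ^ a.natDegree, ?_⟩
    rw [← h1 a, ← h1 b, map_mul, map_mul, map_pow, map_pow, hX, inv_pow, inv_pow]
    by_cases hb0 : φ b.reverse = 0
    · simp [hb0]
    · field_simp
  have := Inf.infR hT hN K v hv Kt L φ hi hs (fun O hO hlt => by
      refine H O (fun k => ?_) fun hmem => ?_
      · have := hO k
        rw [IsScalarTower.algebraMap_apply K[X] Kt L]
        simpa [φ, i] using this
      · rw [IsScalarTower.algebraMap_apply K[X] Kt L, ← hTdef, ← O.valuation_le_one_iff] at hmem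
        have h3 := mul_lt_one_of_lt_of_le hlt hmem
        rw [← map_mul, ← map_mul, hX, inv_mul_cancel₀ hT0, map_one, map_one] at h3
        exact lt_irrefl _ h3)
    η (p.reverse * X ^ q.natDegree) (q.reverse * X ^ p.natDegree)
    (mul_ne_zero (mt reverse_eq_zero.mp hp) (pow_ne_zero _ X_ne_zero))
    (mul_ne_zero (mt reverse_eq_zero.mp hq) (pow_ne_zero _ X_ne_zero))
    (by
      rw [← h1 p, ← h1 q] at h
      rw [map_mul, map_mul, map_pow, map_pow, hX, inv_pow, inv_pow]
      field_simp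
      linear_combination h)
  have h3 : ∀ n : ℕ, (X ^ n : K[X]).trailingCoeff = 1 := fun n => by
    rw [trailingCoeff, natTrailingDegree_X_pow, coeff_X_pow_self]
  rwa [trailingCoeff_mul, trailingCoeff_mul, h3, h3, mul_one, mul_one, reverse_trailingCoeff,
    reverse_trailingCoeff] at this

end Pool.Agent.P.MP_8b60db_ag
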