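import Pool.Agent.P.MP_8b60db_ag.Defs

/-! A Noether normalisation trick and a cotangent space lemma. -/

namespace Pool.Agent.P.MP_8b60db_ag

open Polynomial

namespace Noeth

variable {K : Type} [Field K] {B : Type} [CommRing B] [Algebra K B]

theorem inj_of_finite [IsDomain B] (hB : ¬ IsField B) (φ : K[X] →ₐ[K] B) (hφ : φ.Finite) :
    Function.Injective φ := by
  rw [RingHom.injective_iff_ker_eq_bot]
  by_contra h
  have hp : (RingHom.ker φ).IsPrime := RingHom.ker_isPrime φ
  exact hB (Ring.isField_iff_maximal_bot.2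
    (Ideal.isMaximal_of_isIntegral_of_isMaximal_comap' (φ : K[X] →+* B) hφ.to_isIntegral ⊥
      (IsPrime.to_maximal_ideal h)))

theorem exists_finite [IsDedekindDomain B] [Algebra.FiniteType K B] :
    ∃ G : K[X] →ₐ[K] B, G.Finite := by
  obtain ⟨s, g, hg, hf⟩ := exists_finite_inj_algHom_of_fg K B
  rcases s with _ | s
  · refine ⟨aeval 0, AlgHom.Finite.of_comp_finite
      (f := MvPolynomial.aeval (σ := Fin 0) fun _ => (0 : K[X])) ?_⟩
    convert hf
    exact MvPolynomial.algHom_ext fun i => i.elim0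
  · let π : MvPolynomial (Fin (s + 1)) K →ₐ[K] K[X] :=
      MvPolynomial.aeval fun i => if i = 0 then X else 0
    let ι : K[X] →ₐ[K] MvPolynomial (Fin (s + 1)) K := aeval (MvPolynomial.X 0)
    have h1 : ∀ p, π (ι p) = p := fun p => by
      have : π.comp ι = AlgHom.id K K[X] := by
        ext1
        simp [π, ι]
      exact DFunLike.congr_fun this p
    have hp : (RingHom.ker π).IsPrime := RingHom.ker_isPrime π
    have hm : ¬ (RingHom.ker π).IsMaximal := fun h =>
      Polynomial.not_isField K ((RingHom.quotientKerEquivOfSurjective (f := π.toRingHom)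
        fun p => ⟨ι p, h1 p⟩).symm.toMulEquiv.isField
          ((Ideal.Quotient.maximal_ideal_iff_isField_quotient _).1 h))
    let _ := g.toRingHom.toAlgebra
    have : Module.Finite (MvPolynomial (Fin (s + 1)) K) B := hf
    have hk : RingHom.ker (algebraMap (MvPolynomial (Fin (s + 1)) K) B) = ⊥ :=
      (RingHom.injective_iff_ker_eq_bot _).1 hg
    obtain ⟨Q, hQ, hQ'⟩ := Ideal.exists_ideal_over_prime_of_isIntegral_of_isDomain (S := B)
      (RingHom.ker π) (hk ▸ bot_le)
    have hQ0 : Q = ⊥ := by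
      by_contra h
      have := hQ.isMaximal h
      exact hm (hQ' ▸ Ideal.isMaximal_comap_of_isIntegral_of_isMaximal Q)
    have hπ : Function.Injective π := by
      rw [RingHom.injective_iff_ker_eq_bot, ← hQ', hQ0]
      exact hk
    exact ⟨g.comp ι, hf.comp (AlgHom.Finite.of_surjective ι fun p => ⟨π p, hπ (h1 _)⟩)⟩

theorem exists_monic [IsDomain B] (G : K[X] →ₐ[K] B) (hG : G.Finite) {f : B} (hf : f ≠ 0) :
    ∃ q : K[X][X], q.Monic ∧ q.coeff 0 ≠ 0 ∧ eval₂ (G : K[X] →+* B) f q = 0 := by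
  obtain ⟨p, hp, hp'⟩ := hG.to_isIntegral f
  obtain ⟨q, h1, h2⟩ := exists_eq_pow_rootMultiplicity_mul_and_not_dvd p hp.ne_zero 0
  simp only [map_zero, sub_zero] at h1 h2
  refine ⟨q, (monic_X_pow _).of_mul_monic_left (h1 ▸ hp), fun h => h2 (X_dvd_iff.2 h), ?_⟩
  rw [h1, eval₂_mul, eval₂_X_pow] at hp'
  exact (mul_eq_zero.1 hp').resolve_left (pow_ne_zero _ hf)

/-- exchange of the variables in a relation whose constant term has the largest degree -/
theorem integral_of_rel (G : K[X] →ₐ[K] B) (T : B) (r : K[X][X]) (h0 : r.coeff 0 ≠ 0)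
    (hd : ∀ i < r.natDegree, (r.coeff (i + 1)).degree < (r.coeff 0).degree)
    (hr : eval₂ (G : K[X] →+* B) T r = 0) :
    ((aeval T : K[X] →ₐ[K] B) : K[X] →+* B).IsIntegralElem (G X) := by
  have ev : ∀ a : K[X], eval₂ ((aeval T : K[X] →ₐ[K] B) : K[X] →+* B) (G X) (a.map C) = G a := by
    intro a
    rw [eval₂_map]
    induction a using Polynomial.induction_on' with
    | add a b ha hb => rw [eval₂_add, ha, hb, map_add]
    | monomial n c =>
      rw [eval₂_monomial, ← C_mul_X_pow_eq_monomial, map_mul, map_pow]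
      congr 1
      exact ((aeval T : K[X] →ₐ[K] B).commutes c).trans (G.commutes c).symm
  let R : K[X][X] := ∑ i ∈ Finset.range r.natDegree, C (X ^ (i + 1)) * (r.coeff (i + 1)).map C
  have hR : R.degree < ((r.coeff 0).map (C : K →+* K[X])).degree := by
    rw [degree_map]
    refine (degree_sum_le _ _).trans_lt ((Finset.sup_lt_iff (bot_lt_iff_ne_bot.2
      fun h => h0 (degree_eq_bot.1 h))).2 fun i hi => ?_)
    refine lt_of_le_of_lt ?_ (hd i (Finset.mem_range.1 hi))
    rw [← smul_eq_C_mul]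
    exact (degree_smul_le _ _).trans degree_map_le
  have hl : (R + (r.coeff 0).map C).leadingCoeff = C (r.coeff 0).leadingCoeff := by
    rw [leadingCoeff_add_of_degree_lt hR, leadingCoeff_map]
  refine ⟨C (C (r.coeff 0).leadingCoeff⁻¹) * (R + (r.coeff 0).map C),
    monic_C_mul_of_mul_leadingCoeff_eq_one ?_, ?_⟩
  · rw [hl, ← C_mul, inv_mul_cancel₀ (leadingCoeff_ne_zero.2 h0), C_1]
  · rw [eval₂_eq_sum_range, Finset.sum_range_succ'] at hr
    rw [eval₂_mul, eval₂_add, eval₂_finsetSum, ev]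
    refine mul_eq_zero_of_right _ (Eq.trans ?_ hr)
    congr 1
    · refine Finset.sum_congr rfl fun i _ => ?_
      rw [eval₂_mul, eval₂_C, ev, mul_comm]
      simp
    · simp

theorem finite_of_integral [Algebra.FiniteType K B] (G φ : K[X] →ₐ[K] B) (hG : G.Finite)
    (hx : (φ : K[X] →+* B).IsIntegralElem (G X)) : φ.Finite := by
  let _ := φ.toRingHom.toAlgebra
  have : IsScalarTower K K[X] B := IsScalarTower.of_algebraMap_eq fun k => (φ.commutes k).symm
  have : Algebra.FiniteType K[X] B := Algebra.FiniteType.of_restrictScalars_finiteType K K[X] B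
  have hm : ∀ a : K[X], (G : K[X] →+* B) a ∈ (integralClosure K[X] B).toSubring := by
    intro a
    change G a ∈ integralClosure K[X] B
    induction a using Polynomial.induction_on' with
    | add a b ha hb => rw [map_add]; exact add_mem ha hb
    | monomial n c =>
      rw [← C_mul_X_pow_eq_monomial, map_mul, map_pow]
      refine mul_mem ?_ (pow_mem hx _)
      rw [← algebraMap_eq, G.commutes, IsScalarTower.algebraMap_apply K K[X] B]
      exact algebraMap_mem _ _
  have : Algebra.IsIntegral K[X] B := ⟨fun b => by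
    obtain ⟨p, hp, hp'⟩ := hG.to_isIntegral b
    refine isIntegral_trans (A := integralClosure K[X] B) b
      ⟨p.map ((G : K[X] →+* B).codRestrict _ hm), hp.map _, ?_⟩
    rw [eval₂_map]
    exact hp'⟩
  exact Algebra.IsIntegral.finite

end Noeth

open Noeth in
theorem noethThm : NoethStmt := by
  intro K _ _ B _ _ _ _ f hf hu
  have hB : ¬ IsField B := fun h => by
    obtain ⟨b, hb⟩ := h.mul_inv_cancel hf
    exact hu (IsUnit.of_mul_eq_one b hb)
  obtain ⟨G, hG⟩ := exists_finite (K := K) (B := B)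
  obtain ⟨q, -, q0, hq⟩ := exists_monic G hG hf
  obtain ⟨M, hM⟩ : ∃ M : ℕ, ∀ i ≤ q.natDegree, (q.coeff i).natDegree < M := by
    obtain ⟨M, hM⟩ := ((Set.finite_Iic q.natDegree).image fun i => (q.coeff i).natDegree).bddAbove
    exact ⟨M + 1, fun i hi => Nat.lt_succ_of_le (hM ⟨i, hi, rfl⟩)⟩
  have M0 : 0 < 4 * M := by have := hM 0 (Nat.zero_le _); omega
  have hu1 : (X ^ (4 * M) - C 2 : K[X]).Monic := monic_X_pow_sub_C _ M0.ne'
  have hu2 : (X ^ (4 * M) - C 2 : K[X]).natDegree = 4 * M := natDegree_X_pow_sub_C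
  have hT : (G : K[X] →+* B) (X ^ (4 * M) - C 2) * f = f * ((G X ^ M) ^ 4 - 2) := by
    rw [mul_comm, ← pow_mul, mul_comm M]
    congr 1
    simp [map_ofNat]
  have hr := scaleRoots_eval₂_eq_zero (G : K[X] →+* B) (s := X ^ (4 * M) - C 2) hq
  rw [hT] at hr
  have h0 : (q.scaleRoots (X ^ (4 * M) - C 2)).coeff 0 ≠ 0 := by
    rw [coeff_scaleRoots]
    exact mul_ne_zero q0 (pow_ne_zero _ hu1.ne_zero)
  have hfin := finite_of_integral G _ hG (integral_of_rel G _ _ h0 (fun i hi => ?_) hr)
  · exact ⟨G X ^ M, inj_of_finite hB _ hfin, hfin⟩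
  · rw [natDegree_scaleRoots] at hi
    refine degree_lt_degree ?_
    rw [coeff_scaleRoots, coeff_scaleRoots, natDegree_mul q0 (pow_ne_zero _ hu1.ne_zero)]
    refine natDegree_mul_le.trans_lt ?_
    rw [hu1.natDegree_pow, hu1.natDegree_pow, hu2, Nat.sub_zero]
    have h1 := hM (i + 1) hi
    obtain ⟨d, hd⟩ : ∃ d, q.natDegree = d + (i + 1) := ⟨q.natDegree - (i + 1), by omega⟩
    rw [hd, Nat.add_sub_cancel]
    nlinarith [Nat.zero_le (q.coeff 0).natDegree, Nat.zero_le (i * M)]

namespace Cot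

variable {K A : Type} [Field K] [CharZero K] [CommRing A] [Algebra K A]

theorem nat_not_mem (K : Type) [Field K] [CharZero K] [Algebra K A] {m : Ideal A}
    (hm : m.IsMaximal) (n : ℕ) (hn : n ≠ 0) : (n : A) ∉ m := fun h => by
  refine hm.ne_top (Ideal.eq_top_of_isUnit_mem _ h ?_)
  rw [← map_natCast (algebraMap K A)]
  exact (IsUnit.mk0 _ (Nat.cast_ne_zero.2 hn)).map _

theorem hp_not_mem (K : Type) [Field K] [CharZero K] [Algebra K A] {u w : Fin 3 → A}
    (h : Rel u w) {m : Ideal A} (hm : m.IsMaximal) (i : Fin 3) (hw : w i ∈ m) : hp u i ∉ m := by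
  intro hh
  have h4 := m.pow_mem_of_mem hw 4 (by norm_num)
  fin_cases i
  · refine nat_not_mem K hm 500 (by norm_num) ?_
    have := m.sub_mem (m.mul_mem_left (8 * u 0 ^ 2 + 20) h4) (m.mul_mem_left (2 * u 0 ^ 3) hh)
    convert this using 1
    simp only [hp, Fin.zero_eta, h.r0, Matrix.cons_val_zero]
    push_cast
    ring
  · refine nat_not_mem K hm 3 (by norm_num) ?_
    have := m.sub_mem (m.mul_mem_left (3 + 8 * u 1 ^ 3) hh) (m.mul_mem_left (32 * u 1 ^ 2) h4)
    convert this using 1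
    simp only [hp, Fin.mk_one, h.r1, Matrix.cons_val_one, Matrix.cons_val_zero]
    push_cast
    ring
  · refine nat_not_mem K hm 3 (by norm_num) ?_
    have := m.sub_mem (m.mul_mem_left (3 + 8 * u 2 ^ 3) hh) (m.mul_mem_left (32 * u 2 ^ 2) h4)
    convert this using 1
    simp only [hp, Fin.reduceFinMk, h.r2, Matrix.cons_val]
    push_cast
    ring

theorem cube_not_mem (K : Type) [Field K] [CharZero K] [Algebra K A] {m : Ideal A}
    (hm : m.IsMaximal) {w : A} (hw : w ∉ m) : 4 * w ^ 3 ∉ m := fun h =>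
  (hm.isPrime.mem_or_mem h).elim (nat_not_mem K hm 4 (by norm_num))
    fun h' => hw (hm.isPrime.mem_of_pow_mem 3 h')

omit [CharZero K] in
theorem der_rel {Q : Type} [AddCommGroup Q] [Module A Q] [Module K Q] (δ : Derivation K A Q)
    {u w : Fin 3 → A} (h : Rel u w) (i : Fin 3) :
    (4 * w i ^ 3) • δ (w i) = hp u i • δ (u i) := by
  have c : ∀ n : ℕ, δ (n : A) = 0 := δ.map_natCast
  have c2 : δ 2 = 0 := by exact_mod_cast c 2
  have c10 : δ 10 = 0 := by exact_mod_cast c 10
  have c25 : δ 25 = 0 := by exact_mod_cast c 25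
  fin_cases i
  · have := congrArg δ h.r0
    simp only [map_add, map_sub, Derivation.leibniz, Derivation.leibniz_pow, c2, c10, c25] at this
    simp only [hp, Fin.zero_eta, Matrix.cons_val_zero]
    linear_combination (norm := module) this
  · have := congrArg δ h.r1
    simp only [map_add, Derivation.leibniz, Derivation.leibniz_pow, c2] at this
    simp only [hp, Fin.mk_one, Matrix.cons_val_one, Matrix.cons_val_zero]
    linear_combination (norm := module) this
  · have := congrArg δ h.r2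
    simp only [map_add, Derivation.leibniz, Derivation.leibniz_pow, c2] at this
    simp only [hp, Fin.reduceFinMk, Matrix.cons_val]
    linear_combination (norm := module) this

/-- the universal derivation at a closed point -/
theorem exists_der [Algebra.FiniteType K A] {m : Ideal A} (hm : m.IsMaximal) :
    ∃ δ : Derivation K A (A ⧸ m ^ 2), (∀ b ∈ m, ∀ a, b • δ a = 0) ∧
      ∀ a ∈ m, δ a = Ideal.Quotient.mk _ a := by
  let _ := Ideal.Quotient.field m
  have : Module.Finite K (A ⧸ m) := finite_of_finite_type_of_isJacobsonRing K (A ⧸ m)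
  have := Algebra.FormallyEtale.of_isSeparable K (A ⧸ m)
  let ρ : (A ⧸ m ^ 2) →ₐ[K] A ⧸ m := Ideal.Quotient.factorₐ K (Ideal.pow_le_self two_ne_zero)
  have hρ : ∀ a, ρ (Ideal.Quotient.mk _ a) = Ideal.Quotient.mk _ a := fun _ => rfl
  have sq : ∀ x y, ρ x = 0 → ρ y = 0 → x * y = 0 := by
    intro x y hx hy
    obtain ⟨x, rfl⟩ := Ideal.Quotient.mk_surjective x
    obtain ⟨y, rfl⟩ := Ideal.Quotient.mk_surjective y
    rw [hρ, Ideal.Quotient.eq_zero_iff_mem] at hx hy
    rw [← map_mul, Ideal.Quotient.eq_zero_iff_mem, pow_two]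
    exact Ideal.mul_mem_mul hx hy
  have surj : Function.Surjective ρ := fun x => by
    obtain ⟨x, rfl⟩ := Ideal.Quotient.mk_surjective x
    exact ⟨_, hρ x⟩
  have nil : IsNilpotent (RingHom.ker ρ) := ⟨2, by
    rw [pow_two (RingHom.ker ρ), Ideal.zero_eq_bot, eq_bot_iff, Ideal.mul_le]
    exact fun x hx y hy => sq x y hx hy⟩
  let sec := Algebra.FormallySmooth.liftOfSurjective (AlgHom.id K (A ⧸ m)) ρ surj nil
  have hs : ∀ x, ρ (sec x) = x := Algebra.FormallySmooth.liftOfSurjective_apply _ ρ surj nil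
  let L : A →ₗ[K] A ⧸ m ^ 2 := (Ideal.Quotient.mkₐ K (m ^ 2)).toLinearMap -
    (sec.comp (Ideal.Quotient.mkₐ K m)).toLinearMap
  have hL : ∀ a, L a = Ideal.Quotient.mk _ a - sec (Ideal.Quotient.mk _ a) := fun _ => rfl
  have hL0 : ∀ a, ρ (L a) = 0 := fun a => by rw [hL, map_sub, hρ, hs, sub_self]
  have sm : ∀ (b : A) (x : A ⧸ m ^ 2), b • x = Ideal.Quotient.mk _ b * x := fun b x =>
    Algebra.smul_def b x
  refine ⟨Derivation.mk' L fun a b => ?_, fun b hb a => ?_, fun a ha => ?_⟩
  · have := sq _ _ (hL0 a) (hL0 b)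
    simp only [hL, sm, map_mul] at this ⊢
    linear_combination -this
  · rw [sm]
    exact sq _ _ (by rw [hρ, Ideal.Quotient.eq_zero_iff_mem]; exact hb) (hL0 a)
  · change L a = _
    rw [hL, Ideal.Quotient.eq_zero_iff_mem.2 ha, map_zero, sub_zero]

end Cot

open Cot in
theorem cotThm : CotStmt := by
  intro K A _ _ _ _ u w hrel hgen D hD m hm
  have : Algebra.FiniteType K A := by
    classical
    exact ⟨⟨Finset.univ.image u ∪ Finset.univ.image w, by simpa using hgen⟩⟩
  constructor
  · obtain ⟨δ, h1, h2⟩ := exists_der (K := K) hm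
    have hξ : ∀ i, ∃ ξ : A ⧸ m ^ 2, (∀ b ∈ m, b • ξ = 0) ∧ (4 * w i ^ 3) • ξ = δ (u i) ∧
        hp u i • ξ = δ (w i) := by
      intro i
      have hr := der_rel δ hrel i
      by_cases hw : w i ∈ m
      · obtain ⟨q, c, hc, e⟩ := hm.exists_inv (hp_not_mem K hrel hm i hw)
        refine ⟨q • δ (w i), fun b hb => by rw [smul_comm, h1 b hb, smul_zero], ?_, ?_⟩
        · rw [smul_comm, hr, smul_smul, eq_sub_of_add_eq e, sub_smul, one_smul, h1 c hc, sub_zero]
        · rw [smul_smul, mul_comm, eq_sub_of_add_eq e, sub_smul, one_smul, h1 c hc, sub_zero]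
      · obtain ⟨p, c, hc, e⟩ := hm.exists_inv (cube_not_mem K hm hw)
        refine ⟨p • δ (u i), fun b hb => by rw [smul_comm, h1 b hb, smul_zero], ?_, ?_⟩
        · rw [smul_smul, mul_comm, eq_sub_of_add_eq e, sub_smul, one_smul, h1 c hc, sub_zero]
        · rw [smul_comm, ← hr, smul_smul, eq_sub_of_add_eq e, sub_smul, one_smul, h1 c hc, sub_zero]
    choose ξ ξ1 ξ2 ξ3 using hξ
    let E : Fin 3 → Derivation K A (A ⧸ m ^ 2) := fun i =>
      (LinearMap.toSpanSingleton A _ (ξ i)).compDer (D i)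
    have hE : ∀ a, (E 0 + E 1 + E 2) a = ∑ i, D i a • ξ i := fun a => by
      rw [Fin.sum_univ_three]; rfl
    have key : δ = E 0 + E 1 + E 2 := by
      refine Derivation.ext_of_adjoin_eq_top _ hgen ?_
      rintro _ (⟨j, rfl⟩ | ⟨j, rfl⟩)
      · rw [hE]
        simp only [hD.du, ite_smul, zero_smul, Finset.sum_ite_eq', Finset.mem_univ, if_true, ξ2]
      · rw [hE]
        simp only [hD.dw, ite_smul, zero_smul, Finset.sum_ite_eq', Finset.mem_univ, if_true, ξ3]
    intro a ha hDa
    rw [← Ideal.Quotient.eq_zero_iff_mem, ← h2 a ha, key, hE]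
    exact Finset.sum_eq_zero fun i _ => ξ1 i _ (hDa i)
  · intro i
    by_cases hw : w i ∈ m
    · refine ⟨w i, hw, ?_, fun j hj => ?_⟩
      · rw [hD.dw, if_pos rfl]
        exact hp_not_mem K hrel hm i hw
      · rw [hD.dw, if_neg hj]
        exact m.zero_mem
    · let _ := Ideal.Quotient.field m
      have : Module.Finite K (A ⧸ m) := finite_of_finite_type_of_isJacobsonRing K (A ⧸ m)
      have e : ∀ P : K[X], Ideal.Quotient.mk m (aeval (u i) P) =
          aeval (Ideal.Quotient.mk m (u i)) P := fun P =>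
        (aeval_algHom_apply (Ideal.Quotient.mkₐ K m) (u i) P).symm
      refine ⟨aeval (u i) (minpoly K (Ideal.Quotient.mk m (u i))), ?_, ?_, fun j hj => ?_⟩
      · rw [← Ideal.Quotient.eq_zero_iff_mem, e, minpoly.aeval]
      · rw [Derivation.map_aeval, hD.du, if_pos rfl, smul_eq_mul]
        intro h
        refine (hm.isPrime.mem_or_mem h).elim (fun h' => ?_) (cube_not_mem K hm hw)
        rw [← Ideal.Quotient.eq_zero_iff_mem, e] at h'
        exact (Algebra.IsSeparable.isSeparable K _).aeval_derivative_ne_zero (minpoly.aeval _ _) h'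
      · rw [Derivation.map_aeval, hD.du, if_neg hj, smul_zero]
        exact m.zero_mem

end Pool.Agent.P.MP_8b60db_ag
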