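import Pool.Agent.P.MP_8b60db_ag.Defs

/-! Norms and Gram determinants over a fourth root of two. -/

namespace Pool.Agent.P.MP_8b60db_ag

open Polynomial Module

namespace NormGram

/-- multiplication by `a + b t + c t^2 + d t^3` in the basis `1, t, t^2, t^3` -/
def Mx {R : Type} [CommRing R] (a b c d : R) : Matrix (Fin 4) (Fin 4) R :=
  !![a, 2 * d, 2 * c, 2 * b; b, a, 2 * d, 2 * c; c, b, a, 2 * d; d, c, b, a]

lemma det_Mx {R : Type} [CommRing R] (a b c d : R) : (Mx a b c d).det = Nm a b c d := by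
  simp [Mx, Nm, Matrix.det_succ_row_zero, Fin.sum_univ_succ, Fin.succAbove]
  ring

lemma Mx_add {R : Type} [CommRing R] (a b c d a' b' c' d' : R) :
    Mx a b c d + Mx a' b' c' d' = Mx (a + a') (b + b') (c + c') (d + d') := by
  ext i j
  fin_cases i <;> fin_cases j <;> simp [Mx] <;> ring

lemma Mx_mul {R : Type} [CommRing R] (a b c d : R) :
    Mx a b c d * Mx 0 1 0 0 = Mx (2 * d) a b c := by
  ext i j
  fin_cases i <;> fin_cases j <;> simp [Mx, Matrix.mul_apply, Fin.sum_univ_succ] <;> ring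

lemma Mx_C {R : Type} [CommRing R] (a : R) :
    algebraMap R (Matrix (Fin 4) (Fin 4) R) a = Mx a 0 0 0 := by
  ext i j
  fin_cases i <;> fin_cases j <;> simp [Mx, Matrix.algebraMap_matrix_apply]

lemma aeval_eq {R : Type} [CommRing R] (p : R[X]) :
    ∃ a b c d : R, aeval (Mx (0 : R) 1 0 0) p = Mx a b c d := by
  induction p using Polynomial.induction_on with
  | C a => exact ⟨a, 0, 0, 0, by rw [aeval_C, Mx_C]⟩
  | add p q hp hq =>
    obtain ⟨a, b, c, d, h⟩ := hp
    obtain ⟨a', b', c', d', h'⟩ := hq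
    exact ⟨_, _, _, _, by rw [map_add, h, h', Mx_add]⟩
  | monomial n a ih =>
    obtain ⟨a', b, c, d, h⟩ := ih
    exact ⟨_, _, _, _, by rw [pow_succ, ← mul_assoc, map_mul, h, aeval_X, Mx_mul]⟩

lemma aeval_cubic {R : Type} [CommRing R] (a b c d : R) :
    aeval (Mx (0 : R) 1 0 0) (((C d * X + C c) * X + C b) * X + C a) = Mx a b c d := by
  simp only [map_add, map_mul, aeval_C, aeval_X, Mx_C, Mx_mul, Mx_add]
  simp

/-- a block matrix of multiplication matrices has a norm as determinant -/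
lemma det_block {R n : Type} [CommRing R] [Fintype n] [DecidableEq n] (A B C' D : Matrix n n R) :
    ∃ a b c d : R, (Matrix.of fun (x y : Fin 4 × n) =>
      Mx (A x.2 y.2) (B x.2 y.2) (C' x.2 y.2) (D x.2 y.2) x.1 y.1).det = Nm a b c d := by
  let P : Matrix n n R[X] := Matrix.of fun i j =>
    ((C (D i j) * X + C (C' i j)) * X + C (B i j)) * X + C (A i j)
  have h := Matrix.det_det P (aeval (Mx (0 : R) 1 0 0) : R[X] →ₐ[R] _).toRingHom
  obtain ⟨a, b, c, d, h2⟩ := aeval_eq P.det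
  refine ⟨a, b, c, d, ?_⟩
  rw [← det_Mx, ← h2]
  refine Eq.trans ?_ h.symm
  rw [← Matrix.det_submatrix_equiv_self (Equiv.prodComm n (Fin 4))]
  congr 1
  ext ⟨i, k⟩ ⟨j, l⟩
  have := aeval_cubic (A i j) (B i j) (C' i j) (D i j)
  simp only [Matrix.submatrix_apply, Equiv.prodComm_apply, Prod.swap_prod_mk, Matrix.of_apply,
    Matrix.comp_apply, Matrix.map_apply, P]
  rw [← this]
  rfl

lemma norm_Nm {R S : Type} [CommRing R] [CommRing S] [Algebra R S] [Module.Free R S]
    [Module.Finite R S] (x0 x1 x2 x3 : S) :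
    ∃ a b c d : R, Algebra.norm R (Nm x0 x1 x2 x3) = Nm a b c d := by
  classical
  let bS := Module.Free.chooseBasis R S
  let g := Algebra.leftMulMatrix bS
  obtain ⟨a, b, c, d, h⟩ := det_block (g x0) (g x1) (g x2) (g x3)
  refine ⟨a, b, c, d, ?_⟩
  rw [← h, Algebra.norm_eq_matrix_det bS, ← det_Mx]
  refine (Matrix.det_det (Mx x0 x1 x2 x3) g.toRingHom).trans ?_
  congr 1
  ext ⟨k, i⟩ ⟨l, j⟩
  simp only [Matrix.comp_apply, Matrix.map_apply, Matrix.of_apply, AlgHom.toRingHom_eq_coe,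
    RingHom.coe_coe]
  fin_cases k <;> fin_cases l <;> simp [Mx, two_mul]

lemma Nm_param {S : Type} [CommRing S] {θ i : S} (hθ : θ ^ 4 = 2) (hi : 2 * i = 1) (a : S) :
    Nm (1 + a * i ^ 2) (a * θ ^ 3 * i ^ 3) (a * θ ^ 2 * i ^ 3) (a * θ * i ^ 3) = 1 + a := by
  have h1 : (1 + a * i ^ 2) ^ 2 + 2 * (a * θ ^ 2 * i ^ 3) ^ 2 -
      4 * (a * θ ^ 3 * i ^ 3) * (a * θ * i ^ 3) = 1 + a * i := by
    linear_combination (a * i - a ^ 2 * i ^ 4 * (2 * i + 1)) * hi - 2 * a ^ 2 * i ^ 6 * hθ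
  have h2 : 2 * (1 + a * i ^ 2) * (a * θ ^ 2 * i ^ 3) - (a * θ ^ 3 * i ^ 3) ^ 2 -
      2 * (a * θ * i ^ 3) ^ 2 = θ ^ 2 * a * i ^ 2 := by
    linear_combination (a * θ ^ 2 * i ^ 2 - 2 * a ^ 2 * θ ^ 2 * i ^ 5) * hi -
      a ^ 2 * θ ^ 2 * i ^ 6 * hθ
  rw [Nm, h1, h2]
  linear_combination (a - a ^ 2 * i ^ 2 * (2 * i + 1)) * hi - 2 * a ^ 2 * i ^ 4 * hθ

lemma map_Nm {S T : Type} [CommRing S] [CommRing T] (φ : S →+* T) (a b c d : S) :
    φ (Nm a b c d) = Nm (φ a) (φ b) (φ c) (φ d) := by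
  simp [Nm, map_ofNat]

lemma norm_congr {R S : Type} [CommRing R] [CommRing S] [Algebra R S] [Module.Free R S]
    [Module.Finite R S] {t : R} {x y : S} (h : algebraMap R S t ∣ x - y) :
    t ∣ Algebra.norm R x - Algebra.norm R y := by
  classical
  let bS := Module.Free.chooseBasis R S
  obtain ⟨z, hz⟩ := h
  have hx : x = y + t • z := by rw [Algebra.smul_def, ← hz]; ring
  rw [← Ideal.mem_span_singleton, ← Ideal.Quotient.eq, Algebra.norm_eq_matrix_det bS,
    Algebra.norm_eq_matrix_det bS, RingHom.map_det, RingHom.map_det]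
  congr 1
  ext i j
  have ht : Ideal.Quotient.mk (Ideal.span {t}) t = 0 :=
    Ideal.Quotient.eq_zero_iff_mem.2 (Ideal.mem_span_singleton_self t)
  simp [hx, ht]

lemma v_one {K : Type} [Field K] {v : K → ℤ} (hv : Good K v) : v 1 = 0 := by
  have := hv.mul 1 1 one_ne_zero one_ne_zero
  rw [one_mul] at this
  omega

lemma v_neg {K : Type} [Field K] {v : K → ℤ} (hv : Good K v) {x : K} (hx : x ≠ 0) :
    v (-x) = v x := by
  have h1 := hv.mul (-1) (-1) (by simp) (by simp)
  have h2 := hv.mul (-1) x (by simp) hx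
  rw [neg_mul_neg, one_mul, v_one hv] at h1
  rw [neg_one_mul] at h2
  omega

lemma gram_change {K A ι : Type} [Field K] [CommRing A] [Algebra K A] [Fintype ι] [DecidableEq ι]
    (l : A →ₗ[K] K) (e e' : Basis ι K A) :
    gram l e' = (e.toMatrix e').det * (e.toMatrix e').det * gram l e := by
  have h : (Matrix.of fun i j => l (e' i * e' j)) =
      (e.toMatrix e').transpose * (Matrix.of fun i j => l (e i * e j)) * e.toMatrix e' := by
    ext i j
    rw [Matrix.of_apply, ← e.sum_repr (e' i), ← e.sum_repr (e' j)]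
    simp only [Finset.sum_mul, Finset.mul_sum, map_sum, Matrix.mul_apply, Matrix.transpose_apply,
      Matrix.of_apply, Basis.toMatrix_apply, smul_mul_smul_comm, map_smul, smul_eq_mul]
    refine Finset.sum_congr rfl fun k _ => Finset.sum_congr rfl fun k' _ => by ring
  rw [gram, h, Matrix.det_mul, Matrix.det_mul, Matrix.det_transpose, gram]
  ring

lemma mul_conj {A : Type} [CommRing A] {θ : A} (hθ : θ ^ 4 = 2) (a b c d : A) :
    (a + b * θ + c * θ ^ 2 + d * θ ^ 3) * ((a - b * θ + c * θ ^ 2 - d * θ ^ 3) *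
      ((a ^ 2 + 2 * c ^ 2 - 4 * b * d) - θ ^ 2 * (2 * a * c - b ^ 2 - 2 * d ^ 2))) =
      Nm a b c d := by
  have h1 : (a + b * θ + c * θ ^ 2 + d * θ ^ 3) * (a - b * θ + c * θ ^ 2 - d * θ ^ 3) =
      (a ^ 2 + 2 * c ^ 2 - 4 * b * d) + θ ^ 2 * (2 * a * c - b ^ 2 - 2 * d ^ 2) := by
    linear_combination (c ^ 2 - 2 * b * d - d ^ 2 * θ ^ 2) * hθ
  rw [← mul_assoc, h1, Nm]
  linear_combination (-(2 * a * c - b ^ 2 - 2 * d ^ 2) ^ 2) * hθ

/-- a basis adapted to the fourth root of two -/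
lemma exists_basis {K : Type} [Field K] {v : K → ℤ} (hv : Good K v) {A : Type} [CommRing A]
    [Algebra K A] [Module.Finite K A] {θ : A} (hθ : θ ^ 4 = 2) :
    ∃ (κ : Type) (_ : Fintype κ) (f : κ → A) (e : Basis (Fin 4 × κ) K A),
      ∀ x, e x = θ ^ (x.1 : ℕ) * f x.2 := by
  classical
  have hm : (X ^ 4 - C 2 : K[X]).Monic := monic_X_pow_sub_C _ (by norm_num)
  have hd : (X ^ 4 - C 2 : K[X]).natDegree = 4 := natDegree_X_pow_sub_C
  let F := AdjoinRoot (X ^ 4 - C 2 : K[X])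
  let τ : F := AdjoinRoot.root _
  let bF : Basis (Fin 4) K F := (AdjoinRoot.powerBasis' hm).basis.reindex (finCongr hd)
  have hbF : ∀ i, bF i = τ ^ (i : ℕ) := by
    intro i
    simp only [bF, Basis.reindex_apply, PowerBasis.coe_basis]
    rfl
  have hτ : τ ^ 4 = 2 := by
    have := AdjoinRoot.eval₂_root (X ^ 4 - C 2 : K[X])
    rw [eval₂_sub, eval₂_pow, eval₂_X, eval₂_C, map_ofNat] at this
    exact sub_eq_zero.1 this
  have hnt : Nontrivial F := by
    refine ⟨bF 0, 0, bF.ne_zero 0⟩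
  have hF : IsField F := by
    refine ⟨exists_pair_ne F, mul_comm, fun {x} hx => ?_⟩
    have hs := bF.sum_repr x
    simp only [Fin.sum_univ_four, hbF, Algebra.smul_def] at hs
    have hne : ¬ (bF.repr x 0 = 0 ∧ bF.repr x 1 = 0 ∧ bF.repr x 2 = 0 ∧ bF.repr x 3 = 0) := by
      rintro ⟨h0, h1, h2, h3⟩
      rw [h0, h1, h2, h3] at hs
      simp at hs
      exact hx hs.symm
    have hN := (hv.nm _ _ _ _ hne).1
    have hc := mul_conj hτ (algebraMap K F (bF.repr x 0)) (algebraMap K F (bF.repr x 1))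
      (algebraMap K F (bF.repr x 2)) (algebraMap K F (bF.repr x 3))
    rw [← map_Nm] at hc
    have hx' : algebraMap K F (bF.repr x 0) + algebraMap K F (bF.repr x 1) * τ +
        algebraMap K F (bF.repr x 2) * τ ^ 2 + algebraMap K F (bF.repr x 3) * τ ^ 3 = x := by
      simpa using hs
    rw [hx'] at hc
    obtain ⟨y, hy⟩ : ∃ y, x * y =
        algebraMap K F (Nm (bF.repr x 0) (bF.repr x 1) (bF.repr x 2) (bF.repr x 3)) := ⟨_, hc⟩
    refine ⟨y * algebraMap K F (Nm (bF.repr x 0) (bF.repr x 1) (bF.repr x 2) (bF.repr x 3))⁻¹, ?_⟩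
    rw [← mul_assoc, hy, ← map_mul, mul_inv_cancel₀ hN, map_one]
  have hroot : eval₂ (algebraMap K A) θ (X ^ 4 - C 2 : K[X]) = 0 := by
    rw [eval₂_sub, eval₂_pow, eval₂_X, eval₂_C, map_ofNat, hθ, sub_self]
  let : Algebra F A := (AdjoinRoot.lift (algebraMap K A) θ hroot).toAlgebra
  have hτθ : algebraMap F A τ = θ := AdjoinRoot.lift_root hroot
  have : IsScalarTower K F A :=
    IsScalarTower.of_algebraMap_eq fun k => (AdjoinRoot.lift_of hroot).symm
  have : Module.Free F A := by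
    let := hF.toField
    exact Module.Free.of_divisionRing F A
  have : Module.Finite F A := Module.Finite.of_restrictScalars_finite K F A
  let bA := Module.Free.chooseBasis F A
  refine ⟨_, inferInstance, bA, bF.smulTower bA, fun x => ?_⟩
  rw [Basis.smulTower_apply, hbF, Algebra.smul_def, map_pow, hτθ]

end NormGram

open NormGram

theorem normThm : NormStmt := by
  intro R S _ _ _ _ _ h2 t θ ht γ
  obtain ⟨i, hi⟩ := h2.exists_right_inv
  obtain ⟨a, b, c, d, h⟩ := norm_Nm (R := R) (1 + (γ - 1) * i ^ 2) ((γ - 1) * θ ^ 3 * i ^ 3)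
    ((γ - 1) * θ ^ 2 * i ^ 3) ((γ - 1) * θ * i ^ 3)
  refine ⟨a, b, c, d, ?_⟩
  rw [← h]
  refine norm_congr (ht.trans ?_)
  rw [← Ideal.mem_span_singleton, ← Ideal.Quotient.eq, map_Nm]
  let φ := Ideal.Quotient.mk (Ideal.span {θ ^ 4 - 2})
  have hθ : φ θ ^ 4 = 2 := by
    have : φ (θ ^ 4 - 2) = 0 := Ideal.Quotient.eq_zero_iff_mem.2 (Ideal.mem_span_singleton_self _)
    rw [map_sub, map_pow, map_ofNat] at this
    exact sub_eq_zero.1 this
  have hi' : 2 * φ i = 1 := by rw [← map_ofNat φ 2, ← map_mul, hi, map_one]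
  have := Nm_param hθ hi' (φ (γ - 1))
  simp only [map_add, map_mul, map_pow, map_one]
  rw [this, map_sub, map_one]
  ring

theorem gramThm : GramStmt := by
  intro K _ _ v hv A _ _ θ hθ l ι _ _ e hg
  classical
  have : Module.Finite K A := Module.Finite.of_basis e
  obtain ⟨κ, _, f, e', he'⟩ := exists_basis hv hθ
  obtain ⟨a, b, c, d, h⟩ := det_block (R := K) (n := κ)
    (Matrix.of fun j j' => l (θ ^ 3 * (f j * f j'))) (Matrix.of fun j j' => l (θ ^ 2 * (f j * f j')))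
    (Matrix.of fun j j' => l (θ * (f j * f j'))) (Matrix.of fun j j' => l (f j * f j'))
  let σ : Equiv.Perm (Fin 4 × κ) := Equiv.prodCongr Fin.revPerm (Equiv.refl κ)
  have hp := Matrix.det_permute σ (Matrix.of fun x y : Fin 4 × κ => l (e' x * e' y))
  have hθ' : ∀ (n : ℕ) (z : A), l (θ ^ (n + 4) * z) = 2 * l (θ ^ n * z) := by
    intro n z
    rw [pow_add, hθ, two_mul, ← map_add]
    congr 1; ring
  have hmat : (Matrix.of fun x y : Fin 4 × κ => l (e' x * e' y)).submatrix σ id =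
      Matrix.of fun (x y : Fin 4 × κ) =>
        Mx ((Matrix.of fun j j' => l (θ ^ 3 * (f j * f j'))) x.2 y.2)
          ((Matrix.of fun j j' => l (θ ^ 2 * (f j * f j'))) x.2 y.2)
          ((Matrix.of fun j j' => l (θ * (f j * f j'))) x.2 y.2)
          ((Matrix.of fun j j' => l (f j * f j')) x.2 y.2) x.1 y.1 := by
    ext ⟨k, j⟩ ⟨k', j'⟩
    have e1 : e' (σ (k, j)) * e' (k', j') = θ ^ ((3 - (k : ℕ)) + k') * (f j * f j') := by
      rw [he', he', pow_add]
      have : (((σ (k, j)).1 : Fin 4) : ℕ) = 3 - k := by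
        simp [σ, Fin.val_rev]
      rw [this]
      have : (σ (k, j)).2 = j := rfl
      rw [this]; ring
    have h4 := hθ' 0 (f j * f j')
    have h5 := hθ' 1 (f j * f j')
    have h6 := hθ' 2 (f j * f j')
    simp only [Matrix.submatrix_apply, Matrix.of_apply, id, e1]
    fin_cases k <;> fin_cases k' <;> simp_all [Mx]
  rw [hmat, h] at hp
  have hg' : gram l (e'.reindex (e'.indexEquiv e)) = gram l e' := by
    rw [gram, gram, ← Matrix.det_submatrix_equiv_self (e'.indexEquiv e)]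
    congr 1
    ext x y
    simp
  have hch := gram_change l e (e'.reindex (e'.indexEquiv e))
  have hP : (e.toMatrix (e'.reindex (e'.indexEquiv e))).det ≠ 0 := by
    have := e.isUnit_det (e'.reindex (e'.indexEquiv e))
    rw [Basis.det_apply] at this
    exact this.ne_zero
  rw [hg'] at hch
  have hne : gram l e' ≠ 0 := by rw [hch]; exact mul_ne_zero (mul_ne_zero hP hP) hg
  have hv1 : v (gram l e') = v (Nm a b c d) := by
    change _ = _ * gram l e' at hp
    rcases Int.units_eq_one_or (Equiv.Perm.sign σ) with hs | hs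
    · rw [hp, hs]; simp
    · rw [hp, hs]; simp [v_neg hv hne]
  have hN : Nm a b c d ≠ 0 := by
    change _ = _ * gram l e' at hp
    rw [hp]
    exact mul_ne_zero (by simp) hne
  have h4 := (hv.nm a b c d (by
    rintro ⟨rfl, rfl, rfl, rfl⟩
    exact hN (by simp [Nm]))).2
  rw [← hv1, hch, hv.mul _ _ (mul_ne_zero hP hP) hg, hv.mul _ _ hP hP] at h4
  obtain ⟨k, hk⟩ := h4
  exact ⟨2 * k - v (e.toMatrix (e'.reindex (e'.indexEquiv e))).det, by omega⟩

end Pool.Agent.P.MP_8b60db_ag
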