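import Pool.Agent.P.MP_8b60db_ag.Defs

/-! The product of three plane quartics: a smooth domain of dimension three. -/

namespace Pool.Agent.P.MP_8b60db_ag

open Polynomial

namespace RingT

/-- the coordinate ring of `w ^ 4 = h (u)` over `R` -/
abbrev Cv (R : Type) [CommRing R] (h : R[X]) : Type := AdjoinRoot (X ^ 4 - C h : R[X][X])

section general

variable {R : Type} [CommRing R] (h : R[X])

/-- the coordinate `u` -/
noncomputable def U : Cv R h := AdjoinRoot.of _ X

/-- the coordinate `w` -/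
noncomputable def W : Cv R h := AdjoinRoot.root _

lemma alg_eq (r : R) : algebraMap R (Cv R h) r = AdjoinRoot.of _ (C r) := rfl

lemma aeval_U (p : R[X]) : aeval (U h) p = AdjoinRoot.of (X ^ 4 - C h : R[X][X]) p := by
  have : (aeval (U h) : R[X] →ₐ[R] Cv R h) = IsScalarTower.toAlgHom R R[X] (Cv R h) := by
    apply Polynomial.algHom_ext
    simp [U]
  rw [this]
  rfl

lemma rel : W h ^ 4 = aeval (U h) h := by
  have := AdjoinRoot.eval₂_root (X ^ 4 - C h : R[X][X])
  rw [eval₂_sub, eval₂_pow, eval₂_X, eval₂_C, sub_eq_zero] at this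
  rw [aeval_U]
  exact this

lemma lift {S : Type} [CommRing S] (ψ : R →+* S) (u w : S) (hr : w ^ 4 = h.eval₂ ψ u) :
    ∃ φ : Cv R h →+* S, (∀ r, φ (algebraMap R _ r) = ψ r) ∧ φ (U h) = u ∧ φ (W h) = w := by
  refine ⟨AdjoinRoot.lift (eval₂RingHom ψ u) w (by simp [hr]), fun r => ?_, ?_, ?_⟩
  · rw [alg_eq, AdjoinRoot.lift_of]; simp
  · rw [U, AdjoinRoot.lift_of]; simp
  · rw [W, AdjoinRoot.lift_root]

lemma gen (T : Subring (Cv R h)) (h0 : ∀ r, algebraMap R _ r ∈ T) (h1 : U h ∈ T)
    (h2 : W h ∈ T) (x : Cv R h) : x ∈ T := by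
  have hof : ∀ p : R[X], AdjoinRoot.of (X ^ 4 - C h : R[X][X]) p ∈ T := by
    intro p
    induction p using Polynomial.induction_on with
    | C a => exact h0 a
    | add p q hp hq => rw [map_add]; exact T.add_mem hp hq
    | monomial n a ih => rw [pow_succ X n, ← mul_assoc, map_mul]; exact T.mul_mem ih h1
  induction x using AdjoinRoot.induction_on with
  | ih p =>
    induction p using Polynomial.induction_on with
    | C a => exact hof a
    | add p q hp hq => rw [map_add]; exact T.add_mem hp hq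
    | monomial n a ih => rw [pow_succ X n, ← mul_assoc, map_mul]; exact T.mul_mem ih h2

lemma hom_ext {S : Type} [CommRing S] {f g : Cv R h →+* S}
    (h0 : ∀ r, f (algebraMap R _ r) = g (algebraMap R _ r)) (h1 : f (U h) = g (U h))
    (h2 : f (W h) = g (W h)) : f = g :=
  RingHom.ext fun x => gen h (RingHom.eqLocus f g) h0 h1 h2 x

lemma monic_eq : (X ^ 4 - C h : R[X][X]).Monic := monic_X_pow_sub_C _ (by norm_num)

lemma irreducible_field {F : Type} [Field F] (g : F[X]) (hs : Squarefree g)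
    (hd : 0 < g.natDegree) : Irreducible (X ^ 4 - C g : F[X][X]) := by
  have hg0 : g ≠ 0 := by rintro rfl; simp at hd
  obtain ⟨p, hp, hpg⟩ := WfDvdMonoid.exists_irreducible_factor
    (not_isUnit_of_natDegree_pos g hd) hg0
  have hprime : (Ideal.span {p}).IsPrime := (Ideal.span_singleton_prime hp.ne_zero).mpr hp.prime
  have hm := monic_eq g
  have hdeg : (X ^ 4 - C g : F[X][X]).natDegree = 4 := natDegree_X_pow_sub_C
  refine Polynomial.IsEisensteinAt.irreducible (𝓟 := Ideal.span {p}) ⟨?_, ?_, ?_⟩ hprime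
    hm.isPrimitive (by rw [hdeg]; norm_num)
  · rw [hm.leadingCoeff]
    exact fun h1 => hprime.ne_top ((Ideal.eq_top_iff_one _).mpr h1)
  · intro n hn
    rw [hdeg] at hn
    rw [coeff_sub, coeff_X_pow, if_neg hn.ne, zero_sub, coeff_C]
    split_ifs
    · exact neg_mem (Ideal.mem_span_singleton.mpr hpg)
    · simp
  · rw [coeff_sub, coeff_X_pow, if_neg (by norm_num), zero_sub, coeff_C_zero,
      Ideal.span_singleton_pow, neg_mem_iff, Ideal.mem_span_singleton, sq]
    exact fun h1 => hp.not_isUnit (hs p h1)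

lemma prime_eq [IsDomain R] (hc : IsCoprime h h.derivative) (hd : 0 < h.natDegree) :
    Prime (X ^ 4 - C h : R[X][X]) := by
  let F := FractionRing R
  have hinj : Function.Injective (algebraMap R F) := IsFractionRing.injective R F
  have hsep : (h.map (algebraMap R F)).Separable := Separable.map hc
  have hirr := irreducible_field _ hsep.squarefree (by rwa [natDegree_map_eq_of_injective hinj])
  have hinj' : Function.Injective (mapRingHom (algebraMap R F)) := map_injective _ hinj
  have hmap : (X ^ 4 - C h : R[X][X]).map (mapRingHom (algebraMap R F)) =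
      X ^ 4 - C (h.map (algebraMap R F)) := by simp
  refine ⟨(monic_eq h).ne_zero, not_isUnit_of_natDegree_pos _ (by
    rw [natDegree_X_pow_sub_C]; norm_num), fun a b hab => ?_⟩
  rw [← map_dvd_map _ hinj' (monic_eq h), Polynomial.map_mul, hmap] at hab
  rw [← map_dvd_map _ hinj' (monic_eq h), ← map_dvd_map _ hinj' (monic_eq h), hmap]
  exact hirr.prime.dvd_or_dvd hab

lemma isDomain [IsDomain R] (hc : IsCoprime h h.derivative) (hd : 0 < h.natDegree) :
    IsDomain (Cv R h) := AdjoinRoot.isDomain_of_prime (prime_eq h hc hd)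

lemma smooth (h2 : IsUnit (2 : R)) (hc : IsCoprime h h.derivative) :
    Algebra.Smooth R (Cv R h) := by
  have hfp : Algebra.FinitePresentation R (Cv R h) :=
    Algebra.FinitePresentation.trans R R[X] (Cv R h)
  refine ⟨Algebra.FormallySmooth.of_comp_surjective fun B _ _ I hI g => ?_, hfp⟩
  obtain ⟨u0, hu0⟩ := Ideal.Quotient.mk_surjective (g (U h))
  obtain ⟨w0, hw0⟩ := Ideal.Quotient.mk_surjective (g (W h))
  obtain ⟨α, β, hαβ⟩ := hc
  obtain ⟨e, he⟩ := h2.exists_left_inv
  have he' : algebraMap R B e * 2 = 1 := by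
    have := congrArg (algebraMap R B) he
    rwa [map_mul, map_ofNat, map_one] at this
  set r := w0 ^ 4 - aeval u0 h with hr
  have hrI : r ∈ I := by
    have h5 : Ideal.Quotient.mk I (aeval u0 h) = aeval (g (U h)) h := by
      rw [← hu0]
      exact (aeval_algHom_apply (Ideal.Quotient.mkₐ R I) u0 h).symm
    rw [← Ideal.Quotient.eq_zero_iff_mem, hr, map_sub, map_pow, hw0, ← map_pow, rel, h5,
      aeval_algHom_apply, sub_self]
  have hr2 : r ^ 2 = 0 := by
    have := Ideal.pow_mem_pow hrI 2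
    rwa [hI, Ideal.mem_bot] at this
  have hb : aeval u0 α * aeval u0 h + aeval u0 β * aeval u0 h.derivative = 1 := by
    rw [← map_mul, ← map_mul, ← map_add, hαβ, map_one]
  set a := aeval u0 α
  set b := aeval u0 β
  set c := algebraMap R B e
  have key : (w0 - c ^ 2 * a * w0 * r) ^ 4 = h.eval₂ (algebraMap R B) (u0 + b * r) := by
    rw [← aeval_def, aeval_add_of_sq_eq_zero _ _ _ (by rw [mul_pow, hr2, mul_zero])]
    have h3 : aeval u0 h = w0 ^ 4 - r := by rw [hr]; ring
    rw [h3] at hb ⊢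
    have h4 : (c * 2) ^ 2 = 1 := by rw [he']; ring
    linear_combination (-r) * hb - (a * w0 ^ 4 * r) * h4 +
      (-a + 6 * c ^ 4 * a ^ 2 * w0 ^ 4 - 4 * c ^ 6 * a ^ 3 * w0 ^ 4 * r +
        c ^ 8 * a ^ 4 * w0 ^ 4 * r ^ 2) * hr2
  obtain ⟨φ, hφ0, hφ1, hφ2⟩ := lift h (algebraMap R B) _ _ key
  refine ⟨{ φ with commutes' := hφ0 }, ?_⟩
  apply AlgHom.coe_ringHom_injective
  apply hom_ext
  · intro x
    simp
  · show Ideal.Quotient.mk I (φ (U h)) = g (U h)
    rw [hφ1, ← hu0, Ideal.Quotient.eq]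
    simpa using I.mul_mem_left b hrI
  · show Ideal.Quotient.mk I (φ (W h)) = g (W h)
    rw [hφ2, ← hw0, Ideal.Quotient.eq]
    simpa using I.mul_mem_left _ hrI

lemma dim_integral {A B : Type} [CommRing A] [CommRing B] [Algebra A B] [Algebra.IsIntegral A B]
    (hinj : Function.Injective (algebraMap A B)) : ringKrullDim B = ringKrullDim A := by
  apply le_antisymm
  · exact Order.krullDim_le_of_strictMono (PrimeSpectrum.comap (algebraMap A B))
      fun P Q hPQ => Ideal.IsIntegral.comap_lt_comap (R := A) (I := P.asIdeal) (J := Q.asIdeal) hPQ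
  · refine iSup_le fun l => ?_
    obtain ⟨P, -, hP, hlo⟩ := Ideal.exists_ideal_over_prime_of_isIntegral l.head.asIdeal
      (⊥ : Ideal B) (by
        rw [Ideal.comap_bot_of_injective _ hinj]; exact bot_le)
    have : P.LiesOver l.head.asIdeal := ⟨hlo.symm⟩
    obtain ⟨L, hL, -⟩ := Ideal.exists_ltSeries_of_hasGoingUp l P
    rw [← hL]
    exact Order.LTSeries.length_le_krullDim L

lemma of_inj [IsDomain R] : Function.Injective (AdjoinRoot.of (X ^ 4 - C h : R[X][X])) :=
  AdjoinRoot.of.injective_of_degree_ne_zero (by rw [degree_X_pow_sub_C (by norm_num)]; norm_num)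

lemma dim_eq [IsDomain R] [IsNoetherianRing R] : ringKrullDim (Cv R h) = ringKrullDim R + 1 := by
  have : Module.Finite R[X] (Cv R h) := (monic_eq h).finite_adjoinRoot
  rw [dim_integral (A := R[X]) (B := Cv R h) (of_inj h),
    Polynomial.ringKrullDim_of_isNoetherianRing]

lemma coprime_of {a b : R[X]} {c : R} (hc : IsUnit c) (e : a * h + b * h.derivative = C c) :
    IsCoprime h h.derivative := by
  obtain ⟨d, hd⟩ := hc.exists_left_inv
  refine ⟨C d * a, C d * b, ?_⟩
  rw [mul_assoc, mul_assoc, ← mul_add, e, ← map_mul, hd, map_one]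

end general

/-- the first quartic -/
noncomputable def h1 (R : Type) [CommRing R] : R[X] := 2 * X ^ 4 - 10 * X ^ 2 + 25

/-- the second quartic -/
noncomputable def h2 (R : Type) [CommRing R] : R[X] := 2 * X ^ 4 + X

lemma eval₂_h1 {R S : Type} [CommRing R] [CommRing S] (ψ : R →+* S) (u : S) :
    (h1 R).eval₂ ψ u = 2 * u ^ 4 - 10 * u ^ 2 + 25 := by
  simp [h1, eval₂_pow]

lemma eval₂_h2 {R S : Type} [CommRing R] [CommRing S] (ψ : R →+* S) (u : S) :
    (h2 R).eval₂ ψ u = 2 * u ^ 4 + u := by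
  simp [h2, eval₂_pow]

lemma cop1 {R : Type} [CommRing R] (hc : IsUnit (500 : R)) :
    IsCoprime (h1 R) (h1 R).derivative := by
  refine coprime_of (h1 R) (a := 8 * X ^ 2 + 20) (b := -2 * X ^ 3) hc ?_
  simp only [h1, derivative_add, derivative_sub, derivative_mul, derivative_ofNat,
    derivative_X_pow, map_ofNat, Nat.cast_ofNat]
  ring

lemma cop2 {R : Type} [CommRing R] (hc : IsUnit (3 : R)) :
    IsCoprime (h2 R) (h2 R).derivative := by
  refine coprime_of (h2 R) (a := -32 * X ^ 2) (b := 3 + 8 * X ^ 3) hc ?_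
  simp only [h2, derivative_add, derivative_mul, derivative_ofNat, derivative_X,
    derivative_X_pow, map_ofNat, Nat.cast_ofNat]
  ring

lemma deg_pos {R : Type} [CommRing R] {p : R[X]} {n : ℕ} (hn : p.coeff (n + 1) ≠ 0) :
    0 < p.natDegree := lt_of_lt_of_le (Nat.succ_pos n) (le_natDegree_of_ne_zero hn)

lemma deg1 {R : Type} [CommRing R] (h : (2 : R) ≠ 0) : 0 < (h1 R).natDegree :=
  deg_pos (n := 3) (by simpa [h1, coeff_X_pow, coeff_ofNat_succ] using h)

lemma deg2 {R : Type} [CommRing R] [Nontrivial R] : 0 < (h2 R).natDegree :=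
  deg_pos (n := 0) (by simp [h2, coeff_X_pow])

lemma unit_nat (K A : Type) [Field K] [CharZero K] [CommRing A] [Algebra K A] (n : ℕ)
    [n.AtLeastTwo] : IsUnit (OfNat.ofNat n : A) := by
  have : IsUnit (OfNat.ofNat n : K) := IsUnit.mk0 _ (OfNat.ofNat_ne_zero n)
  have h := this.map (algebraMap K A)
  rwa [map_ofNat] at h

lemma ker_eq {K A B : Type} [Field K] [CommRing A] [CommRing B] [Algebra K A] {u w : Fin 3 → A}
    (hgen : Algebra.adjoin K (Set.range u ∪ Set.range w) = ⊤) (ι : B →+* A) (π : A →+* B)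
    (hk : ∀ k, ι (π (algebraMap K A k)) = algebraMap K A k) (hu0 : ι (π (u 0)) = u 0)
    (hw0 : ι (π (w 0)) = w 0) (hu1 : π (u 1) = 0) (hw1 : π (w 1) = 0) (hu2 : π (u 2) = 0)
    (hw2 : π (w 2) = 0) : RingHom.ker π = P0 u w := by
  apply le_antisymm
  · have key : ∀ x, x - ι (π x) ∈ P0 u w := by
      intro x
      have hx : x ∈ Algebra.adjoin K (Set.range u ∪ Set.range w) := by rw [hgen]; trivial
      induction hx using Algebra.adjoin_induction with
      | mem x hx =>
        rcases hx with ⟨i, rfl⟩ | ⟨i, rfl⟩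
        · fin_cases i
          · simp [hu0]
          · simpa [hu1, P0] using Ideal.subset_span (by simp)
          · simpa [hu2, P0] using Ideal.subset_span (by simp)
        · fin_cases i
          · simp [hw0]
          · simpa [hw1, P0] using Ideal.subset_span (by simp)
          · simpa [hw2, P0] using Ideal.subset_span (by simp)
      | algebraMap k => simp [hk]
      | add x y _ _ hx hy =>
        have := (P0 u w).add_mem hx hy
        rw [map_add, map_add]
        convert this using 1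
        ring
      | mul x y _ _ hx hy =>
        have := (P0 u w).add_mem ((P0 u w).mul_mem_right y hx) ((P0 u w).mul_mem_left (ι (π x)) hy)
        rw [map_mul, map_mul]
        convert this using 1
        ring
    intro x hx
    have := key x
    rwa [RingHom.mem_ker.mp hx, map_zero, sub_zero] at this
  · rw [P0, Ideal.span_le]
    intro x hx
    rcases hx with rfl | rfl | rfl | rfl
    exacts [hu1, hw1, hu2, hw2]

/-- `S` is the coordinate ring of `w ^ 4 = h (u)` over `R` -/
structure IsCv {R S : Type} [CommRing R] [CommRing S] (f : R →+* S) (h : R[X]) (u w : S) :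
    Prop where
  rel : w ^ 4 = h.eval₂ f u
  gen : ∀ T : Subring S, (∀ r, f r ∈ T) → u ∈ T → w ∈ T → ∀ x, x ∈ T
  lift : ∀ (S' : Type) [CommRing S'] (ψ : R →+* S') (u' w' : S'), w' ^ 4 = h.eval₂ ψ u' →
    ∃ φ : S →+* S', (∀ r, φ (f r) = ψ r) ∧ φ u = u' ∧ φ w = w'

lemma isCv {R : Type} [CommRing R] (h : R[X]) : IsCv (algebraMap R (Cv R h)) h (U h) (W h) :=
  ⟨rel h, gen h, fun _ _ ψ u w hr => lift h ψ u w hr⟩

lemma isA_of {K R1 R2 R3 : Type} [Field K] [CommRing R1] [CommRing R2] [CommRing R3]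
    [Algebra K R3] (f1 : K →+* R1) (f2 : R1 →+* R2) (f3 : R2 →+* R3)
    (hf : ∀ k, algebraMap K R3 k = (f3.comp f2) (f1 k)) {u1 w1 : R1} {u2 w2 : R2} {u3 w3 : R3}
    (c1 : IsCv f1 (h1 K) u1 w1) (c2 : IsCv f2 (h2 R1) u2 w2) (c3 : IsCv f3 (h2 R2) u3 w3) :
    IsA K ![(f3.comp f2) u1, f3 u2, u3] ![(f3.comp f2) w1, f3 w2, w3] := by
  refine ⟨⟨?_, ?_, ?_⟩, ?_, ?_⟩
  · have := congrArg (f3.comp f2) c1.rel
    rw [eval₂_h1] at this
    simp only [map_pow, map_add, map_sub, map_mul, map_ofNat] at this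
    exact this
  · have := congrArg f3 c2.rel
    rw [eval₂_h2] at this
    simp only [map_pow, map_add, map_mul, map_ofNat] at this
    exact this
  · have := c3.rel
    rwa [eval₂_h2] at this
  · set uu : Fin 3 → R3 := ![(f3.comp f2) u1, f3 u2, u3]
    set ww : Fin 3 → R3 := ![(f3.comp f2) w1, f3 w2, w3]
    set T := Algebra.adjoin K (Set.range uu ∪ Set.range ww)
    have hu : ∀ i, uu i ∈ T := fun i => Algebra.subset_adjoin (Or.inl ⟨i, rfl⟩)
    have hw : ∀ i, ww i ∈ T := fun i => Algebra.subset_adjoin (Or.inr ⟨i, rfl⟩)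
    have g1 : ∀ x, (f3.comp f2) x ∈ T := c1.gen (T.toSubring.comap (f3.comp f2))
      (fun k => by have := T.algebraMap_mem k; rw [hf] at this; exact this) (hu 0) (hw 0)
    have g2 : ∀ x, f3 x ∈ T := c2.gen (T.toSubring.comap f3) g1 (hu 1) (hw 1)
    rw [eq_top_iff]
    intro x _
    exact c3.gen T.toSubring g2 (hu 2) (hw 2) x
  · intro S _ ψ u' w' hr
    obtain ⟨φ1, a1, b1, d1⟩ := c1.lift S ψ (u' 0) (w' 0) (by rw [eval₂_h1]; exact hr.r0)
    obtain ⟨φ2, a2, b2, d2⟩ := c2.lift S φ1 (u' 1) (w' 1) (by rw [eval₂_h2]; exact hr.r1)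
    obtain ⟨φ3, a3, b3, d3⟩ := c3.lift S φ2 (u' 2) (w' 2) (by rw [eval₂_h2]; exact hr.r2)
    have e : ∀ x, φ3 ((f3.comp f2) x) = φ1 x := fun x => by rw [← a2, ← a3]; rfl
    refine ⟨φ3, fun k => by rw [hf, e, a1], fun i => ?_, fun i => ?_⟩
    · fin_cases i
      · exact (e _).trans b1
      · exact (a3 _).trans b2
      · exact b3
    · fin_cases i
      · exact (e _).trans d1
      · exact (a3 _).trans d2
      · exact d3

section tower

variable (K : Type) [Field K]

/-- the first curve -/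
abbrev A1 : Type := Cv K (h1 K)
/-- the product of two curves -/
abbrev A2 : Type := Cv (A1 K) (h2 (A1 K))
/-- the product of three curves -/
abbrev A3 : Type := Cv (A2 K) (h2 (A2 K))

/-- the inclusion of the first factor -/
noncomputable def inc : A1 K →+* A3 K := (algebraMap (A2 K) (A3 K)).comp (algebraMap (A1 K) (A2 K))

/-- the coordinates `u` -/
noncomputable def uu : Fin 3 → A3 K :=
  ![inc K (U _), algebraMap (A2 K) (A3 K) (U _), U _]

/-- the coordinates `w` -/
noncomputable def ww : Fin 3 → A3 K :=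
  ![inc K (W _), algebraMap (A2 K) (A3 K) (W _), W _]

lemma alg_inc (k : K) : algebraMap K (A3 K) k = inc K (algebraMap K (A1 K) k) := rfl

lemma isA : IsA K (uu K) (ww K) :=
  isA_of (algebraMap K (A1 K)) (algebraMap (A1 K) (A2 K)) (algebraMap (A2 K) (A3 K))
    (alg_inc K) (isCv _) (isCv _) (isCv _)

lemma exists_retr : ∃ π : A3 K →+* A1 K, Function.Surjective π ∧ π (uu K 0) = U _ ∧
    π (ww K 0) = W _ ∧ RingHom.ker π = P0 (uu K) (ww K) := by
  obtain ⟨π, a, b, c⟩ := (isA K).lift (A1 K) (algebraMap K _) ![U _, 0, 0] ![W _, 0, 0] (by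
    refine ⟨?_, ?_, ?_⟩
    · have := rel (h1 K)
      rwa [aeval_def, eval₂_h1] at this
    · show (0 : A1 K) ^ 4 = 2 * 0 ^ 4 + 0
      ring
    · show (0 : A1 K) ^ 4 = 2 * 0 ^ 4 + 0
      ring)
  refine ⟨π, fun x => gen (h1 K) π.range (fun k => ⟨_, a k⟩) ⟨_, b 0⟩ ⟨_, c 0⟩ x, b 0, c 0,
    ker_eq (isA K).gen (inc K) π (fun k => ?_) ?_ ?_ (b 1) (c 1) (b 2) (c 2)⟩
  · rw [a, alg_inc]
  · rw [b]; rfl
  · rw [c]; rfl

end tower

end RingT

open RingT in
theorem ringThm : RingStmt := by
  intro K _ _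
  have d1 : IsDomain (A1 K) := isDomain _ (cop1 (unit_nat K K 500)) (deg1 two_ne_zero)
  have d2 : IsDomain (A2 K) := isDomain _ (cop2 (unit_nat K _ 3)) deg2
  have d3 : IsDomain (A3 K) := isDomain _ (cop2 (unit_nat K _ 3)) deg2
  have s1 : Algebra.Smooth K (A1 K) := smooth _ (unit_nat K K 2) (cop1 (unit_nat K K 500))
  have s2 : Algebra.Smooth (A1 K) (A2 K) := smooth _ (unit_nat K _ 2) (cop2 (unit_nat K _ 3))
  have s3 : Algebra.Smooth (A2 K) (A3 K) := smooth _ (unit_nat K _ 2) (cop2 (unit_nat K _ 3))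
  have s4 : Algebra.Smooth K (A2 K) := Algebra.Smooth.comp K (A1 K) (A2 K)
  have k1 : ringKrullDim (A1 K) = 1 := by
    rw [dim_eq, ringKrullDim_eq_zero_of_field, zero_add]
  have k3 : ringKrullDim (A3 K) = 3 := by
    rw [dim_eq, dim_eq, k1]; norm_num
  obtain ⟨π, hsurj, e2, e1, hker⟩ := exists_retr K
  refine ⟨A3 K, inferInstance, d3, inferInstance, uu K, ww K, isA K,
    Algebra.Smooth.comp K (A2 K) (A3 K), k3, ?_, ?_, ?_⟩
  · rw [← hker]
    exact RingHom.ker_isPrime π
  · rw [← hker, ringKrullDim_eq_of_ringEquiv (RingHom.quotientKerEquivOfSurjective hsurj), k1]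
  · rw [← hker, RingHom.mem_ker, map_sub]
    intro h0
    have h3 : W (h1 K) = U (h1 K) := by
      rw [e1, e2] at h0
      exact sub_eq_zero.mp h0
    have h4 := rel (h1 K)
    rw [h3, aeval_U, U, ← map_pow] at h4
    have h5 := congrArg (eval 0) (of_inj _ h4)
    simp [h1] at h5

end Pool.Agent.P.MP_8b60db_ag
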