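import Pool.Agent.P.MP_8b60db_ag.Arith
import Pool.Agent.P.MP_8b60db_ag.Bundle
import Pool.Agent.P.MP_8b60db_ag.Ring
import Pool.Agent.P.MP_8b60db_ag.Inf
import Pool.Agent.P.MP_8b60db_ag.FinPl
import Pool.Agent.P.MP_8b60db_ag.Diff
import Pool.Agent.P.MP_8b60db_ag.NormGram
import Pool.Agent.P.MP_8b60db_ag.Noeth
import Pool.Agent.P.MP_8b60db_ag.Good
import Pool.Agent.P.MP_8b60db_ag.Fiber

/-! Assembly of the counterexample. -/

namespace Pool.Agent.P.MP_8b60db_ag
namespace Main

open Polynomial TrivSqZeroExt Geom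
open scoped TensorProduct

theorem rel_map {A S : Type} [CommRing A] [CommRing S] (φ : A →+* S) {u w : Fin 3 → A}
    (h : Rel u w) : Rel (fun i => φ (u i)) (fun i => φ (w i)) := by
  refine ⟨?_, ?_, ?_⟩
  · simpa only [map_pow, map_add, map_sub, map_mul, map_ofNat] using congrArg φ h.r0
  · simpa only [map_pow, map_add, map_mul, map_ofNat] using congrArg φ h.r1
  · simpa only [map_pow, map_add, map_mul, map_ofNat] using congrArg φ h.r2

variable {K A : Type} [Field K] [CommRing A] [Algebra K A] {u w : Fin 3 → A}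

theorem hom_ext (hgen : Algebra.adjoin K (Set.range u ∪ Set.range w) = ⊤) {S : Type} [CommRing S]
    {φ ψ : A →+* S} (h0 : ∀ k, φ (algebraMap K A k) = ψ (algebraMap K A k))
    (hu : ∀ i, φ (u i) = ψ (u i)) (hw : ∀ i, φ (w i) = ψ (w i)) (x : A) : φ x = ψ x := by
  have hx : x ∈ Algebra.adjoin K (Set.range u ∪ Set.range w) := by rw [hgen]; trivial
  induction hx using Algebra.adjoin_induction with
  | mem x hx =>
    rcases hx with ⟨i, rfl⟩ | ⟨i, rfl⟩
    · exact hu i
    · exact hw i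
  | algebraMap k => exact h0 k
  | add x y _ _ hx hy => rw [map_add, map_add, hx, hy]
  | mul x y _ _ hx hy => rw [map_mul, map_mul, hx, hy]

theorem ind_of (H : IsA K u w) : Ind K (u 0) (I0 u w) := by
  let p : K[X] := (X ^ 2 - 5) ^ 2
  let r := AdjoinRoot.root p
  have hr : (r ^ 2 - 5) ^ 2 = 0 := by
    have := AdjoinRoot.eval₂_root p
    simpa [p, eval₂_pow, eval₂_sub, eval₂_ofNat] using this
  obtain ⟨φ, h0, hu, hw⟩ := H.lift (AdjoinRoot p) (AdjoinRoot.of p) ![r, 0, 0] ![r, 0, 0]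
    ⟨by simp only [Matrix.cons_val_zero]; linear_combination -hr, by simp, by simp⟩
  have hI : I0 u w ≤ RingHom.ker φ := by
    unfold I0 P0
    refine sup_le ?_ ?_ <;> rw [Ideal.span_le] <;> intro x hx
    · simp only [Set.mem_insert_iff, Set.mem_singleton_iff] at hx
      rcases hx with rfl | rfl | rfl | rfl <;> simp [RingHom.mem_ker, hu, hw]
    · rw [Set.mem_singleton_iff.mp hx]
      simp [RingHom.mem_ker, hu, hw]
  intro k0 k1 k2 k3 hk
  have h1 := hI hk
  simp only [RingHom.mem_ker, map_add, map_mul, map_sub, map_pow, map_ofNat, h0, hu,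
    Matrix.cons_val_zero] at h1
  have h2 : AdjoinRoot.mk p (C k0 + C k1 * X + C k2 * (X ^ 2 - 5) + C k3 * (X * (X ^ 2 - 5)))
      = 0 := by
    simpa only [map_add, map_mul, map_sub, map_pow, map_ofNat, AdjoinRoot.mk_C, AdjoinRoot.mk_X]
      using h1
  have hp : p.natDegree = 4 := by
    simp only [p]
    compute_degree!
  have h3 := eq_zero_of_dvd_of_natDegree_lt (AdjoinRoot.mk_eq_zero.mp h2) (by
    rw [hp]
    exact Nat.lt_succ_of_le (by compute_degree))
  have e : C k0 + C k1 * X + C k2 * (X ^ 2 - 5) + C k3 * (X * (X ^ 2 - 5)) =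
      C (k0 - 5 * k2) + C (k1 - 5 * k3) * X + C k2 * X ^ 2 + C k3 * X ^ 3 := by
    simp only [map_sub, map_mul, map_ofNat]
    ring
  rw [e] at h3
  have c0 := congrArg (coeff · 0) h3
  have c1 := congrArg (coeff · 1) h3
  have c2 := congrArg (coeff · 2) h3
  have c3 := congrArg (coeff · 3) h3
  simp only [coeff_add, coeff_C_mul, coeff_X_pow, coeff_X, coeff_C, coeff_zero] at c0 c1 c2 c3
  norm_num at c0 c1 c2 c3
  refine ⟨?_, ?_, c2, c3⟩
  · linear_combination c0 + 5 * c2
  · linear_combination c1 + 5 * c3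

/-- A derivation from a ring homomorphism to dual numbers. -/
noncomputable def derOf (R : Type) [CommRing R] [Algebra R A] (φ : A →+* DualNumber A)
    (h : ∀ a, (φ a).fst = a) (h0 : ∀ r, (φ (algebraMap R A r)).snd = 0) : Derivation R A A :=
  Derivation.mk'
    { toFun := fun a => (φ a).snd
      map_add' := fun a b => by simp
      map_smul' := fun r a => by
        simp [Algebra.smul_def, h, h0] }
    (fun a b => by simp [h, mul_comm])

theorem derOf_apply (R : Type) [CommRing R] [Algebra R A] (φ : A →+* DualNumber A)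
    (h : ∀ a, (φ a).fst = a) (h0 : ∀ r, (φ (algebraMap R A r)).snd = 0) (a : A) :
    derOf R φ h h0 a = (φ a).snd := rfl

theorem der_of (H : IsA K u w) (x y : Fin 3 → A) (h : ∀ j, 4 * w j ^ 3 * y j = hp u j * x j) :
    ∃ D : Derivation K A A, (∀ j, D (u j) = x j) ∧ ∀ j, D (w j) = y j := by
  let ι : A →+* DualNumber A := inlHom A A
  let e : DualNumber A := DualNumber.eps
  have he : e ^ 2 = 0 := DualNumber.eps_pow_two
  have hr := rel_map ι H.rel
  have h0 := congrArg ι (h 0)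
  have h1 := congrArg ι (h 1)
  have h2 := congrArg ι (h 2)
  simp only [hp, Matrix.cons_val_zero, Matrix.cons_val_one, Matrix.cons_val, map_mul, map_pow,
    map_ofNat, map_sub, map_add, map_one] at h0 h1 h2
  obtain ⟨φ, g0, hu, hw⟩ := H.lift (DualNumber A) (ι.comp (algebraMap K A))
    (fun j => ι (u j) + ι (x j) * e) (fun j => ι (w j) + ι (y j) * e) (by
      refine ⟨?_, ?_, ?_⟩
      · linear_combination hr.r0 + e * h0 + (6 * ι (w 0) ^ 2 * ι (y 0) ^ 2 +
          4 * ι (w 0) * ι (y 0) ^ 3 * e + ι (y 0) ^ 4 * e ^ 2 - 2 * (6 * ι (u 0) ^ 2 * ι (x 0) ^ 2 +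
          4 * ι (u 0) * ι (x 0) ^ 3 * e + ι (x 0) ^ 4 * e ^ 2) + 10 * ι (x 0) ^ 2) * he
      · linear_combination hr.r1 + e * h1 + (6 * ι (w 1) ^ 2 * ι (y 1) ^ 2 +
          4 * ι (w 1) * ι (y 1) ^ 3 * e + ι (y 1) ^ 4 * e ^ 2 - 2 * (6 * ι (u 1) ^ 2 * ι (x 1) ^ 2 +
          4 * ι (u 1) * ι (x 1) ^ 3 * e + ι (x 1) ^ 4 * e ^ 2)) * he
      · linear_combination hr.r2 + e * h2 + (6 * ι (w 2) ^ 2 * ι (y 2) ^ 2 +
          4 * ι (w 2) * ι (y 2) ^ 3 * e + ι (y 2) ^ 4 * e ^ 2 - 2 * (6 * ι (u 2) ^ 2 * ι (x 2) ^ 2 +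
          4 * ι (u 2) * ι (x 2) ^ 3 * e + ι (x 2) ^ 4 * e ^ 2)) * he)
  have hf : ∀ a, (φ a).fst = a :=
    hom_ext H.gen (φ := (fstHom A A A).toRingHom.comp φ) (ψ := RingHom.id A)
      (fun k => by simp [g0, ι]) (fun j => by simp [hu, ι, e]) (fun j => by simp [hw, ι, e])
  exact ⟨derOf K φ hf (fun k => by simp [g0, ι]), fun j => by simp [derOf_apply, hu, ι, e],
    fun j => by simp [derOf_apply, hw, ι, e]⟩

theorem ham_of (H : IsA K u w) : ∃ D : Fin 3 → Derivation K A A, Ham u w D := by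
  have key : ∀ i : Fin 3, ∃ D : Derivation K A A,
      (∀ j, D (u j) = if i = j then 4 * w j ^ 3 else 0) ∧
        ∀ j, D (w j) = if i = j then hp u j else 0 := fun i =>
    der_of H _ _ fun j => by split_ifs <;> ring
  choose D h1 h2 using key
  exact ⟨D, h1, h2⟩

theorem data_map {S : Type} [CommRing S] (φ : A →+* S) {ι : Type} {a : ι → A} {f : A}
    {β : ι → ι → A} (H : Data u w a f β) :
    Data (fun i => φ (u i)) (fun i => φ (w i)) (fun i => φ (a i)) (φ f)
      (fun i j => φ (β i j)) := by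
  refine ⟨?_, ?_, ?_, ?_, ?_, ?_⟩
  · have := congrArg (Ideal.map φ) H.span
    simpa only [I0, P0, Ideal.map_sup, Ideal.map_span, Set.image_insert_eq, Set.image_singleton,
      map_sub, ← Set.range_comp, Function.comp_def] using this
  · intro i j
    rw [H.anti i j, map_neg]
  · intro i j k l
    simpa only [map_add, map_sub, map_mul, map_zero] using congrArg φ (H.plu i j k l)
  · intro i j k
    simpa only [map_add, map_sub, map_mul, map_zero] using congrArg φ (H.syz i j k)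
  · intro i j k l
    simpa only [map_add, map_mul] using map_dvd φ (H.dvd i j k l)
  · have := Ideal.mem_map_of_mem φ H.top
    rw [Ideal.map_span, map_add] at this
    refine Ideal.span_mono ?_ this
    rintro _ ⟨_, ⟨i, j, k, l, rfl⟩, rfl⟩
    exact ⟨i, j, k, l, map_mul _ _ _⟩

theorem no_data {A0 : Type} [CommRing A0] [Algebra ℚ A0] {u w : Fin 3 → A0} (H : IsA ℚ u w)
    {a : Fin 7 → A0} {f : A0} {β : Fin 7 → Fin 7 → A0} (hd : Data u w a f β) : False := by
  obtain ⟨K, _, _, v, lam, δ, hv, hδ1, hδ2⟩ := fieldEx (Fin 7 × Fin 7)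
  obtain ⟨A, _, _, _, u', w', H', -⟩ := ringThm K
  obtain ⟨φ, -, hu, hw⟩ := H.lift A ((algebraMap K A).comp (Rat.castHom K)) u' w' H'.rel
  have hd' := data_map φ hd
  simp only [hu, hw] at hd'
  obtain ⟨D, hD⟩ := ham_of H'
  let m : DualNumber K →ₐ[K] DualNumber A :=
    DualNumber.lift ⟨(Algebra.ofId K _, DualNumber.eps), DualNumber.eps_mul_eps,
      fun _ => DualNumber.commute_eps_left _⟩
  have hm1 : ∀ x, (m x).fst = algebraMap K A x.fst := fun x => by
    simp [m, DualNumber.lift_apply_apply, Algebra.ofId_apply, algebraMap_eq_inl']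
  have hm2 : ∀ x, (m x).snd = algebraMap K A x.snd := fun x => by
    simp [m, DualNumber.lift_apply_apply, Algebra.ofId_apply, algebraMap_eq_inl']
  have key : ∀ α, ∃ d : Derivation ℤ A A, (∀ x, d (φ x) = 0) ∧
      ∀ α', d (algebraMap K A (lam α')) = if α = α' then 1 else 0 := by
    intro α
    obtain ⟨ψ, h0, h1, h2⟩ := H'.lift (DualNumber A) (m.toRingHom.comp (δ α))
      (fun j => inlHom A A (u' j)) (fun j => inlHom A A (w' j)) (rel_map _ H'.rel)
    have hf : ∀ a, (ψ a).fst = a :=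
      hom_ext H'.gen (φ := (fstHom A A A).toRingHom.comp ψ) (ψ := RingHom.id A)
        (fun k => by simp [h0, hm1, hδ1]) (fun j => by simp [h1]) (fun j => by simp [h2])
    refine ⟨derOf ℤ ψ hf (fun k => by simp), fun x => ?_, fun α' => ?_⟩
    · have := hom_ext H.gen (φ := ψ.comp φ) (ψ := (inlHom A A).comp φ)
        (fun k => RingHom.congr_fun (RingHom.ext_rat ((ψ.comp φ).comp (algebraMap ℚ A0))
          (((inlHom A A).comp φ).comp (algebraMap ℚ A0))) k)
        (fun j => by simp [hu, h1]) (fun j => by simp [hw, h2]) x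
      rw [derOf_apply]
      simpa using congrArg snd this
    · rw [derOf_apply, h0]
      simp only [RingHom.comp_apply, AlgHom.toRingHom_eq_coe, RingHom.coe_coe, hm2, hδ2]
      split_ifs <;> simp
  choose pd h1 h2 using key
  obtain ⟨B, _, _, _, u2, w2, f2, d, β2, c2, hC⟩ := geomThm cotThm K A (Arith.five_not_sq hv)
    u' w' H'.rel H'.gen D hD (ind_of H') (Fin 7) _ _ _ hd' (fun α => algebraMap K A (lam α)) pd
    (fun α i => by rw [← hu, h1]) (fun α i => by rw [← hw, h1]) (fun α i => h1 _ _)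
    (fun α => h1 _ _) (fun α i j => h1 _ _) h2
  exact arithThm noethThm (fiberThm normThm gramThm) (infThm goodTc normThm) diffThm finThm
    K v hv B u2 w2 f2 _ d β2 c2 hC

theorem geom_integral {A0 : Type} [CommRing A0] [Algebra ℚ A0] {u w : Fin 3 → A0}
    (H : IsA ℚ u w) (K : Type) [Field K] [Algebra ℚ K] : IsDomain (K ⊗[ℚ] A0) := by
  have : CharZero K := algebraRat.charZero K
  obtain ⟨A, _, _, _, u', w', H', -⟩ := ringThm K
  let : Algebra ℚ A := ((algebraMap K A).comp (algebraMap ℚ K)).toAlgebra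
  have : IsScalarTower ℚ K A := IsScalarTower.of_algebraMap_eq fun _ => rfl
  obtain ⟨φ, h0, hu, hw⟩ := H.lift A (algebraMap ℚ A) u' w' H'.rel
  let φ' : A0 →ₐ[ℚ] A := { φ with commutes' := h0 }
  let F : K ⊗[ℚ] A0 →ₐ[K] A :=
    Algebra.TensorProduct.lift (Algebra.ofId K A) φ' fun _ _ => Commute.all _ _
  let j : A0 →+* K ⊗[ℚ] A0 := (Algebra.TensorProduct.includeRight (R := ℚ) (A := K)).toRingHom
  obtain ⟨g, g0, gu, gw⟩ := H'.lift (K ⊗[ℚ] A0) (algebraMap K _) _ _ (rel_map j H.rel)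
  have hg : ∀ x, g (φ x) = j x :=
    hom_ext H.gen (φ := g.comp φ) (ψ := j)
      (fun k => RingHom.congr_fun (RingHom.ext_rat ((g.comp φ).comp (algebraMap ℚ A0))
          (j.comp (algebraMap ℚ A0))) k)
      (fun i => by rw [RingHom.comp_apply, hu, gu]) (fun i => by rw [RingHom.comp_apply, hw, gw])
  have hgF : ∀ x, g (F x) = x := by
    intro x
    induction x using TensorProduct.induction_on with
    | zero => simp
    | tmul k a =>
      have : F (k ⊗ₜ a) = algebraMap K A k * φ a := rfl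
      rw [this, map_mul, g0, hg]
      simp [j]
    | add x y hx hy => rw [map_add, map_add, hx, hy]
  exact (Function.LeftInverse.injective hgF).isDomain F.toRingHom

end Main

open scoped TensorProduct in
theorem main : ∃ (A : Type) (_ : CommRing A) (_ : Algebra ℚ A),
    Algebra.Smooth ℚ A ∧ (∀ (K : Type) [Field K] [Algebra ℚ K], IsDomain (K ⊗[ℚ] A)) ∧
    ringKrullDim A = 3 ∧
    ∃ (E : Type) (_ : AddCommGroup E) (_ : Module A E),
      Module.Finite A E ∧ Module.Projective A E ∧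
      (∀ p : PrimeSpectrum A, Module.rankAtStalk E p = 3) ∧
      (∃ (s : E) (P : Ideal A) (h : A), P.IsPrime ∧ ringKrullDim (A ⧸ P) = 1 ∧ h ∉ P ∧
        ∀ x : A, (∃ φ : Module.Dual A E, φ s = x) ↔ x ∈ P ⊔ Ideal.span {h}) ∧
      ∀ (E' : Type) [AddCommGroup E'] [Module A E'], IsEmpty (E ≃ₗ[A] E' × A) := by
  obtain ⟨A, _, _, _, u, w, H, hs, hdim, hP, hP1, hf⟩ := ringThm ℚ
  have hI : I0 u w ≠ ⊤ := fun h =>
    one_ne_zero (Main.ind_of H 1 0 0 0 (by rw [h]; trivial)).1
  obtain ⟨E, _, _, hfin, hproj, hrk, s, hs', hq⟩ := bundleThm A u w H.rel hI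
  refine ⟨A, inferInstance, inferInstance, hs, Main.geom_integral H, hdim, E, inferInstance,
    inferInstance, hfin, hproj, fun p => ?_, ⟨s, P0 u w, w 0 - u 0, hP, hP1, hf,
      fun x => (hs' x).symm⟩, fun E' _ _ => ⟨fun e => ?_⟩⟩
  · rw [← Ideal.finrank_fiber_eq_rankAtStalk p.asIdeal, Ideal.finrank_fiber_eq_finrank, hrk]
  · obtain ⟨a, f, β, hd⟩ := hq (e.symm (0, 1)) ((LinearMap.snd A E' A).comp e.toLinearMap)
      (by simp)
    exact Main.no_data H hd

end Pool.Agent.P.MP_8b60db_ag
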